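import Mathlib

set_option autoImplicit false

open Filter Topology

namespace Pool.Agent.Helper31.Biorth

variable {𝕜 : Type*} [RCLike 𝕜]

theorem norming {E : Type*} [NormedAddCommGroup E] [NormedSpace 𝕜 E] (S : Submodule 𝕜 E)
    [FiniteDimensional 𝕜 S] :
    ∃ T : Finset (StrongDual 𝕜 E), (∀ φ ∈ T, ‖φ‖ ≤ 1) ∧ ∀ s ∈ S, ∃ φ ∈ T, ‖s‖ ≤ 2 * ‖φ s‖ := by
  classical
  have hprop : ProperSpace S := FiniteDimensional.proper_rclike 𝕜 S
  have hcomp : IsCompact (Metric.sphere (0 : S) 1) := isCompact_sphere _ _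
  let U : {φ : StrongDual 𝕜 E // ‖φ‖ ≤ 1} → Set S := fun φ => {s | 1 / 2 < ‖φ.1 (s : E)‖}
  have hUo : ∀ φ, IsOpen (U φ) := by
    intro φ
    refine isOpen_lt continuous_const ?_
    fun_prop
  have hcov : Metric.sphere (0 : S) 1 ⊆ ⋃ φ, U φ := by
    intro s hs
    obtain ⟨φ, h1, h2⟩ := exists_dual_vector'' 𝕜 (s : E)
    refine Set.mem_iUnion.2 ⟨⟨φ, h1⟩, ?_⟩
    change 1 / 2 < ‖φ (s : E)‖
    have hs1 : ‖(s : E)‖ = 1 := by
      have := mem_sphere_zero_iff_norm.1 hs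
      exact this
    rw [h2, RCLike.norm_ofReal, hs1]
    norm_num
  obtain ⟨T, hT⟩ := hcomp.elim_finite_subcover U hUo hcov
  refine ⟨insert 0 (T.image Subtype.val), ?_, ?_⟩
  · intro φ hφ
    rcases Finset.mem_insert.1 hφ with rfl | hφ
    · simp
    · obtain ⟨ψ, _, rfl⟩ := Finset.mem_image.1 hφ
      exact ψ.2
  · intro s hs
    rcases eq_or_ne s 0 with rfl | hs0
    · exact ⟨0, Finset.mem_insert_self _ _, by simp⟩
    · have hn : ‖s‖ ≠ 0 := norm_ne_zero_iff.2 hs0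
      have hn' : 0 < ‖s‖ := norm_pos_iff.2 hs0
      set s' : S := ((‖s‖ : 𝕜)⁻¹) • (⟨s, hs⟩ : S) with hs'
      have hs'n : s' ∈ Metric.sphere (0 : S) 1 := by
        rw [mem_sphere_zero_iff_norm, hs', norm_smul, norm_inv, RCLike.norm_ofReal,
          abs_of_pos hn']
        change ‖s‖⁻¹ * ‖s‖ = 1
        exact inv_mul_cancel₀ hn
      obtain ⟨φ, hφT, hφ⟩ := Set.mem_iUnion₂.1 (hT hs'n)
      refine ⟨φ.1, Finset.mem_insert_of_mem (Finset.mem_image.2 ⟨φ, hφT, rfl⟩), ?_⟩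
      have h3 : 1 / 2 < ‖φ.1 (s' : E)‖ := hφ
      have h4 : (s' : E) = ((‖s‖ : 𝕜)⁻¹) • s := rfl
      rw [h4, map_smul, norm_smul, norm_inv, RCLike.norm_ofReal, abs_of_pos hn'] at h3
      have h5 : ‖s‖ * (1 / 2) < ‖s‖ * (‖s‖⁻¹ * ‖φ.1 s‖) := mul_lt_mul_of_pos_left h3 hn'
      rw [← mul_assoc, mul_inv_cancel₀ hn, one_mul] at h5
      linarith

theorem exists_in_kernels {E : Type*} [NormedAddCommGroup E] [NormedSpace 𝕜 E]
    (hE : ¬ FiniteDimensional 𝕜 E) (T : Finset (StrongDual 𝕜 E)) :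
    ∃ q : E, ‖q‖ = 1 ∧ ∀ φ ∈ T, φ q = 0 := by
  classical
  set R : E →ₗ[𝕜] (T → 𝕜) := LinearMap.pi (fun φ => (φ.1 : E →ₗ[𝕜] 𝕜)) with hR
  have hninj : ¬ Function.Injective R := fun h => hE (FiniteDimensional.of_injective R h)
  have : LinearMap.ker R ≠ ⊥ := fun h => hninj (LinearMap.ker_eq_bot.1 h)
  obtain ⟨x, hx, hx0⟩ := Submodule.exists_mem_ne_zero_of_ne_bot this
  have hn' : 0 < ‖x‖ := norm_pos_iff.2 hx0
  refine ⟨((‖x‖ : 𝕜)⁻¹) • x, ?_, ?_⟩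
  · rw [norm_smul, norm_inv, RCLike.norm_ofReal, abs_of_pos hn']
    exact inv_mul_cancel₀ hn'.ne'
  · intro φ hφ
    rw [map_smul]
    have h1 : R x = 0 := hx
    have h2 : φ x = 0 := congrFun h1 ⟨φ, hφ⟩
    rw [h2, smul_zero]

theorem step {E : Type*} [NormedAddCommGroup E] [NormedSpace 𝕜 E]
    (hE : ¬ FiniteDimensional 𝕜 E) (F : Finset (E × StrongDual 𝕜 E)) :
    ∃ y : E × StrongDual 𝕜 E, (‖y.1‖ = 1 ∧ ‖y.2‖ ≤ 3 ∧ y.2 y.1 = 1) ∧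
      ∀ x ∈ F, y.2 x.1 = 0 ∧ x.2 y.1 = 0 := by
  classical
  set S : Submodule 𝕜 E := Submodule.span 𝕜 (F.image Prod.fst : Finset E) with hS
  obtain ⟨T, hT1, hT2⟩ := norming (𝕜 := 𝕜) S
  obtain ⟨q, hq1, hq2⟩ := exists_in_kernels hE (T ∪ F.image Prod.snd)
  have hdist : ∀ m : E, m - q ∈ S → 1 / 3 ≤ ‖m‖ := by
    intro m hm
    obtain ⟨φ, hφ, hs⟩ := hT2 _ hm
    have h1 : φ q = 0 := hq2 φ (Finset.mem_union_left _ hφ)
    have h2 : φ (m - q) = φ m := by rw [map_sub, h1, sub_zero]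
    rw [h2] at hs
    have h3 : ‖φ m‖ ≤ ‖m‖ := by
      calc ‖φ m‖ ≤ ‖φ‖ * ‖m‖ := φ.le_opNorm m
        _ ≤ 1 * ‖m‖ := by gcongr; exact hT1 φ hφ
        _ = ‖m‖ := one_mul _
    have h4 : ‖q‖ ≤ ‖m‖ + ‖m - q‖ := by
      calc ‖q‖ = ‖m - (m - q)‖ := by rw [sub_sub_cancel]
        _ ≤ ‖m‖ + ‖m - q‖ := norm_sub_le _ _
    rw [hq1] at h4
    linarith
  have hquot : 1 / 3 ≤ ‖(Submodule.Quotient.mk q : E ⧸ S)‖ := by
    by_contra hcon
    push Not at hcon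
    obtain ⟨m, hm1, hm2⟩ := Submodule.Quotient.norm_mk_lt (Submodule.Quotient.mk q : E ⧸ S)
      (ε := 1 / 3 - ‖(Submodule.Quotient.mk q : E ⧸ S)‖) (by linarith)
    have := hdist m ((Submodule.Quotient.eq S).1 hm1)
    linarith
  have hpos : 0 < ‖(Submodule.Quotient.mk q : E ⧸ S)‖ := by linarith
  obtain ⟨h, hh1, hh2⟩ := exists_dual_vector'' 𝕜 (Submodule.Quotient.mk q : E ⧸ S)
  set φ : StrongDual 𝕜 E :=
    ((‖(Submodule.Quotient.mk q : E ⧸ S)‖ : 𝕜)⁻¹) • (h.comp S.mkQL) with hφ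
  have hval : ∀ x, φ x = ((‖(Submodule.Quotient.mk q : E ⧸ S)‖ : 𝕜)⁻¹) *
      h (Submodule.Quotient.mk x : E ⧸ S) := fun x => rfl
  refine ⟨(q, φ), ⟨hq1, ?_, ?_⟩, ?_⟩
  · refine ContinuousLinearMap.opNorm_le_bound _ (by norm_num) fun x => ?_
    change ‖φ x‖ ≤ 3 * ‖x‖
    rw [hval, norm_mul, norm_inv, RCLike.norm_ofReal, abs_of_pos hpos]
    have h1 : ‖h (Submodule.Quotient.mk x : E ⧸ S)‖ ≤ 1 * ‖x‖ := by
      calc _ ≤ ‖h‖ * ‖(Submodule.Quotient.mk x : E ⧸ S)‖ := h.le_opNorm _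
        _ ≤ 1 * ‖x‖ := by
          gcongr
          exact Submodule.Quotient.norm_mk_le S x
    have h2 : ‖(Submodule.Quotient.mk q : E ⧸ S)‖⁻¹ ≤ 3 := by
      rw [inv_le_comm₀ hpos (by norm_num)]
      linarith
    calc _ ≤ 3 * (1 * ‖x‖) := by gcongr
      _ = 3 * ‖x‖ := by ring
  · change φ q = 1
    rw [hval, hh2]
    refine inv_mul_cancel₀ ?_
    exact_mod_cast hpos.ne'
  · intro x hx
    refine ⟨?_, ?_⟩
    · change φ x.1 = 0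
      have h1 : (Submodule.Quotient.mk x.1 : E ⧸ S) = 0 := by
        rw [Submodule.Quotient.mk_eq_zero]
        exact Submodule.subset_span (Finset.mem_coe.2 (Finset.mem_image_of_mem _ hx))
      rw [hval, h1, map_zero, mul_zero]
    · exact hq2 _ (Finset.mem_union_right _ (Finset.mem_image_of_mem _ hx))

/-- Every infinite dimensional normed space carries a bounded biorthogonal sequence. -/
theorem exists_biorth {E : Type*} [NormedAddCommGroup E] [NormedSpace 𝕜 E]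
    (hE : ¬ FiniteDimensional 𝕜 E) :
    ∃ (q : ℕ → E) (φ : ℕ → StrongDual 𝕜 E), (∀ k, ‖q k‖ = 1) ∧ (∀ k, ‖φ k‖ ≤ 3) ∧
      ∀ k l, φ k (q l) = if k = l then 1 else 0 := by
  obtain ⟨f, hf1, hf2⟩ := exists_seq_of_forall_finset_exists
    (fun y : E × StrongDual 𝕜 E => ‖y.1‖ = 1 ∧ ‖y.2‖ ≤ 3 ∧ y.2 y.1 = 1)
    (fun x y => y.2 x.1 = 0 ∧ x.2 y.1 = 0)
    (fun s _ => step hE s)
  refine ⟨fun k => (f k).1, fun k => (f k).2, fun k => (hf1 k).1, fun k => (hf1 k).2.1, ?_⟩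
  intro k l
  rcases lt_trichotomy k l with h | h | h
  · rw [if_neg h.ne]; exact (hf2 k l h).2
  · subst h; rw [if_pos rfl]; exact (hf1 k).2.2
  · rw [if_neg h.ne']; exact (hf2 l k h).1

end Pool.Agent.Helper31.Biorth
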