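import Pool.Agent.Helper31.Helly
import Pool.Agent.Helper31.Biorth

set_option autoImplicit false
set_option maxSynthPendingDepth 3

open Filter Topology

namespace Pool.Agent.Helper31.Arr

/-- Dependent choice for sequences, in a form convenient for stepwise constructions. -/
theorem exists_seq_of_extend {α : Type*} [Nonempty α] (Cond : (ℕ → α) → ℕ → Prop)
    (hloc : ∀ a b k, (∀ i ≤ k, a i = b i) → Cond a k → Cond b k)
    (hext : ∀ a n, (∀ i < n, Cond a i) → ∃ v, Cond (Function.update a n v) n) :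
    ∃ a, ∀ k, Cond a k := by
  classical
  let next : (ℕ → α) → ℕ → (ℕ → α) := fun a n =>
    if h : ∀ i < n, Cond a i then Function.update a n (hext a n h).choose else a
  let A : ℕ → (ℕ → α) := fun n => Nat.rec (fun _ => Classical.arbitrary α) (fun m a => next a m) n
  have hA : ∀ n, A (n + 1) = next (A n) n := fun n => rfl
  have hne : ∀ a n i, i ≠ n → next a n i = a i := by
    intro a n i hi
    change (if h : ∀ i < n, Cond a i then Function.update a n (hext a n h).choose else a) i = a i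
    split_ifs with h
    · exact Function.update_of_ne hi _ _
    · rfl
  have hgood : ∀ n, ∀ i < n, Cond (A n) i := by
    intro n
    induction n with
    | zero => intro i hi; exact absurd hi (Nat.not_lt_zero i)
    | succ n ih =>
      intro i hi
      rw [hA]
      rcases Nat.lt_succ_iff_lt_or_eq.1 hi with h | h
      · refine hloc (A n) _ i ?_ (ih i h)
        intro j hj
        exact (hne _ _ _ (by omega)).symm
      · subst h
        have h1 : next (A i) i = Function.update (A i) i (hext (A i) i ih).choose := by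
          change (if h : ∀ j < i, Cond (A i) j then Function.update (A i) i (hext (A i) i h).choose
            else A i) = _
          rw [dif_pos ih]
        rw [h1]
        exact (hext (A i) i ih).choose_spec
  have hstab : ∀ i d, A (i + 1 + d) i = A (i + 1) i := by
    intro i d
    induction d with
    | zero => rfl
    | succ d ih =>
      rw [← ih, ← Nat.add_assoc, hA]
      exact hne _ _ _ (by omega)
  refine ⟨fun k => A (k + 1) k, fun k => ?_⟩
  refine hloc (A (k + 1)) _ k ?_ (hgood (k + 1) k (Nat.lt_succ_self k))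
  intro i hi
  obtain ⟨d, rfl⟩ := Nat.exists_eq_add_of_le hi
  have := hstab i d
  rw [show i + d + 1 = i + 1 + d by omega]
  exact this

variable {𝕜 : Type*} [RCLike 𝕜]

open NormedSpace

section

variable {X : Type*} [NormedAddCommGroup X] [NormedSpace 𝕜 X] [CompleteSpace X]

theorem exists_functionals
    (h : ¬ FiniteDimensional 𝕜
      (StrongDual 𝕜 (StrongDual 𝕜 X) ⧸ (LinearMap.range (inclusionInDoubleDual 𝕜 X).toLinearMap))) :
    ∃ (G : ℕ → StrongDual 𝕜 (StrongDual 𝕜 X))
      (Φ : ℕ → StrongDual 𝕜 (StrongDual 𝕜 (StrongDual 𝕜 X))),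
      (∀ k, ‖G k‖ < 2) ∧ (∀ k, ‖Φ k‖ < 4) ∧ (∀ k l, Φ k (G l) = if k = l then 1 else 0) ∧
      ∀ k x, Φ k (inclusionInDoubleDual 𝕜 X x) = 0 := by
  set R := LinearMap.range (inclusionInDoubleDual 𝕜 X).toLinearMap with hR
  haveI hclosed : IsClosed (R : Set (StrongDual 𝕜 (StrongDual 𝕜 X))) := by
    have h1 := (inclusionInDoubleDualLi (E := X) 𝕜).isometry.isClosedEmbedding.isClosed_range
    have h2 : (R : Set (StrongDual 𝕜 (StrongDual 𝕜 X))) =
        Set.range (inclusionInDoubleDualLi (E := X) 𝕜) := by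
      ext y
      simp only [hR, LinearMap.coe_range]
      rfl
    rw [h2]
    exact h1
  obtain ⟨q, φ, hq, hφ, hqφ⟩ := Biorth.exists_biorth (𝕜 := 𝕜) h
  have hrep : ∀ k, ∃ G : StrongDual 𝕜 (StrongDual 𝕜 X),
      (Submodule.Quotient.mk G : _ ⧸ R) = q k ∧ ‖G‖ < 2 := by
    intro k
    obtain ⟨m, hm1, hm2⟩ := Submodule.Quotient.norm_mk_lt (q k) (ε := 1) one_pos
    refine ⟨m, hm1, ?_⟩
    rw [hq k] at hm2
    linarith
  choose G hG1 hG2 using hrep
  refine ⟨G, fun k => (φ k).comp R.mkQL, hG2, ?_, ?_, ?_⟩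
  · intro k
    have : ‖(φ k).comp R.mkQL‖ ≤ 3 := by
      refine ContinuousLinearMap.opNorm_le_bound _ (by norm_num) fun x => ?_
      calc ‖φ k (Submodule.Quotient.mk x : _ ⧸ R)‖
          ≤ ‖φ k‖ * ‖(Submodule.Quotient.mk x : _ ⧸ R)‖ := (φ k).le_opNorm _
        _ ≤ 3 * ‖x‖ := by
          gcongr
          · exact hφ k
          · exact Submodule.Quotient.norm_mk_le R x
    linarith
  · intro k l
    change φ k (Submodule.Quotient.mk (G l) : _ ⧸ R) = _
    rw [hG1, hqφ]
  · intro k x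
    change φ k (Submodule.Quotient.mk (inclusionInDoubleDual 𝕜 X x) : _ ⧸ R) = 0
    have : (Submodule.Quotient.mk (inclusionInDoubleDual 𝕜 X x) : _ ⧸ R) = 0 := by
      rw [Submodule.Quotient.mk_eq_zero]
      exact ⟨x, rfl⟩
    rw [this, map_zero]

/-- one step of the construction -/
theorem array_seq
    (h : ¬ FiniteDimensional 𝕜
      (StrongDual 𝕜 (StrongDual 𝕜 X) ⧸ (LinearMap.range (inclusionInDoubleDual 𝕜 X).toLinearMap)))
    (j : ℕ → ℕ) (hj : ∀ k, j k ≤ k) :
    ∃ (x : ℕ → X) (f : ℕ → StrongDual 𝕜 X), (∀ k, ‖x k‖ ≤ 4) ∧ (∀ k, ‖f k‖ ≤ 4) ∧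
      ∀ i k, f i (x k) = if i ≤ k ∧ j i = j k then 1 else 0 := by
  classical
  obtain ⟨G, Φ, hG, hΦ, hΦG, hΦX⟩ := exists_functionals h
  let α := StrongDual 𝕜 (StrongDual 𝕜 X) × StrongDual 𝕜 X × X
  let Cond : (ℕ → α) → ℕ → Prop := fun a k =>
    (‖(a k).1‖ < 4 ∧ ∀ l, Φ l (a k).1 = if l = k then 1 else 0) ∧
    (∀ i < k, (a k).1 (a i).2.1 = 0) ∧
    (‖(a k).2.1‖ < 4 ∧ ∀ l ≤ k, (a l).1 (a k).2.1 = if l = j k then 1 else 0) ∧
    (∀ m < k, (a k).2.1 (a m).2.2 = 0) ∧
    (‖(a k).2.2‖ < 4 ∧ ∀ i ≤ k, (a i).2.1 (a k).2.2 = (a (j k)).1 (a i).2.1)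
  have hmain : ∃ a, ∀ k, Cond a k := by
    refine exists_seq_of_extend Cond ?_ ?_
    · intro a b k hab hc
      obtain ⟨⟨h1, h2⟩, h3, ⟨h4, h5⟩, h6, h7, h8⟩ := hc
      have hk := hab k le_rfl
      refine ⟨⟨?_, ?_⟩, ?_, ⟨?_, ?_⟩, ?_, ?_, ?_⟩
      · rw [← hk]; exact h1
      · rw [← hk]; exact h2
      · intro i hi; rw [← hk, ← hab i hi.le]; exact h3 i hi
      · rw [← hk]; exact h4
      · intro l hl; rw [← hk, ← hab l hl]; exact h5 l hl
      · intro m hm; rw [← hk, ← hab m hm.le]; exact h6 m hm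
      · rw [← hk]; exact h7
      · intro i hi; rw [← hk, ← hab i hi, ← hab (j k) (hj k)]; exact h8 i hi
    · intro a n hprev
      -- step 1: correct `G n` by an element of `X`
      obtain ⟨y, hy1, hy2⟩ := Helly.helly (fun i : Fin n => (a i).2.1) (G n) (hG n)
      set F : StrongDual 𝕜 (StrongDual 𝕜 X) := G n - inclusionInDoubleDual 𝕜 X y with hF
      have hFn : ‖F‖ < 4 := by
        have h1 : ‖inclusionInDoubleDual 𝕜 X y‖ ≤ ‖y‖ := double_dual_bound 𝕜 X y
        calc ‖F‖ ≤ ‖G n‖ + ‖inclusionInDoubleDual 𝕜 X y‖ := norm_sub_le _ _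
          _ < 4 := by have := hG n; linarith
      have hFf : ∀ i < n, F (a i).2.1 = 0 := by
        intro i hi
        have := hy2 ⟨i, hi⟩
        rw [hF]
        change G n (a i).2.1 - (a i).2.1 y = 0
        rw [← this]; simp
      have hFΦ : ∀ l, Φ l F = if l = n then 1 else 0 := by
        intro l
        rw [hF, map_sub, hΦX, hΦG, sub_zero]
      -- the functionals chosen so far
      let a1 : ℕ → α := Function.update a n (F, 0, 0)
      have ha1 : ∀ i < n, a1 i = a i := fun i hi => Function.update_of_ne hi.ne _ _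
      have ha1n : a1 n = (F, 0, 0) := Function.update_self _ _ _
      have ha1Φ : ∀ i ≤ n, ∀ l, Φ l (a1 i).1 = if l = i then 1 else 0 := by
        intro i hi l
        rcases hi.lt_or_eq with hlt | heq
        · rw [ha1 i hlt]; exact (hprev i hlt).1.2 l
        · subst heq; rw [ha1n]; exact hFΦ l
      have ha1n4 : ∀ i ≤ n, ‖(a1 i).1‖ < 4 := by
        intro i hi
        rcases hi.lt_or_eq with hlt | heq
        · rw [ha1 i hlt]; exact (hprev i hlt).1.1
        · subst heq; rw [ha1n]; exact hFn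
      -- step 2: choose the functional
      let gfam : Fin (n + 1) ⊕ Fin n → StrongDual 𝕜 (StrongDual 𝕜 X) :=
        Sum.elim (fun l => (a1 l).1) (fun m => inclusionInDoubleDual 𝕜 X (a m).2.2)
      obtain ⟨f, hf1, hf2⟩ := Helly.helly gfam (Φ (j n)) (hΦ (j n))
      have hfF : ∀ l ≤ n, (a1 l).1 f = if l = j n then 1 else 0 := by
        intro l hl
        have h1 := hf2 (Sum.inl ⟨l, Nat.lt_succ_of_le hl⟩)
        change (a1 l).1 f = Φ (j n) (a1 l).1 at h1
        rw [h1, ha1Φ l hl]
        simp only [eq_comm]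
      have hfx : ∀ m < n, f (a m).2.2 = 0 := by
        intro m hm
        have h1 := hf2 (Sum.inr ⟨m, hm⟩)
        change f (a m).2.2 = Φ (j n) (inclusionInDoubleDual 𝕜 X (a m).2.2) at h1
        rw [h1, hΦX]
      -- step 3: choose the vector
      let a2 : ℕ → α := Function.update a n (F, f, 0)
      have ha2 : ∀ i < n, a2 i = a i := fun i hi => Function.update_of_ne hi.ne _ _
      have ha2n : a2 n = (F, f, 0) := Function.update_self _ _ _
      obtain ⟨x, hx1, hx2⟩ := Helly.helly (fun i : Fin (n + 1) => (a2 i).2.1)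
        (a1 (j n)).1 (ha1n4 (j n) (hj n))
      refine ⟨(F, f, x), ?_⟩
      set b : ℕ → α := Function.update a n (F, f, x) with hb
      have hbi : ∀ i < n, b i = a i := fun i hi => Function.update_of_ne hi.ne _ _
      have hbn : b n = (F, f, x) := Function.update_self _ _ _
      have hb1 : ∀ i ≤ n, (b i).1 = (a1 i).1 := by
        intro i hi
        rcases hi.lt_or_eq with hlt | heq
        · rw [hbi i hlt, ha1 i hlt]
        · subst heq; rw [hbn, ha1n]
      have hb2 : ∀ i ≤ n, (b i).2.1 = (a2 i).2.1 := by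
        intro i hi
        rcases hi.lt_or_eq with hlt | heq
        · rw [hbi i hlt, ha2 i hlt]
        · subst heq; rw [hbn, ha2n]
      refine ⟨⟨?_, ?_⟩, ?_, ⟨?_, ?_⟩, ?_, ?_, ?_⟩
      · rw [hbn]; exact hFn
      · rw [hbn]; exact hFΦ
      · intro i hi; rw [hbn, hbi i hi]; exact hFf i hi
      · rw [hbn]; exact hf1
      · intro l hl; rw [hb1 l hl, hbn]; exact hfF l hl
      · intro m hm; rw [hbn, hbi m hm]; exact hfx m hm
      · rw [hbn]; exact hx1
      · intro i hi
        rw [hb1 _ (hj n), hb2 i hi, hbn]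
        exact hx2 ⟨i, Nat.lt_succ_of_le hi⟩
  obtain ⟨a, ha⟩ := hmain
  refine ⟨fun k => (a k).2.2, fun k => (a k).2.1, fun k => (ha k).2.2.2.2.1.le,
    fun k => (ha k).2.2.1.1.le, ?_⟩
  intro i k
  have hF : ∀ l i, (a l).1 (a i).2.1 = if l = j i then 1 else 0 := by
    intro l i
    rcases le_or_gt l i with hli | hli
    · exact (ha i).2.2.1.2 l hli
    · rw [(ha l).2.1 i hli]
      have : l ≠ j i := by have := hj i; omega
      rw [if_neg this]
  rcases le_or_gt i k with hik | hik
  · have h1 := (ha k).2.2.2.2.2 i hik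
    change (a i).2.1 (a k).2.2 = _
    rw [h1, hF]
    by_cases hjj : j k = j i
    · rw [if_pos hjj, if_pos ⟨hik, hjj.symm⟩]
    · rw [if_neg hjj, if_neg (fun hc => hjj hc.2.symm)]
  · change (a i).2.1 (a k).2.2 = _
    rw [(ha i).2.2.2.1 k hik, if_neg (fun hc => absurd hc.1 (by omega))]

/-- A bounded two-parameter array of vectors and functionals, in triangular biorthogonal position. -/
theorem exists_array
    (h : ¬ FiniteDimensional 𝕜
      (StrongDual 𝕜 (StrongDual 𝕜 X) ⧸ (LinearMap.range (inclusionInDoubleDual 𝕜 X).toLinearMap))) :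
    ∃ (x : ℕ → ℕ → X) (f : ℕ → ℕ → StrongDual 𝕜 X), (∀ s m, ‖x s m‖ ≤ 4) ∧
      (∀ s n, ‖f s n‖ ≤ 4) ∧
      ∀ s n t m, f s n (x t m) = if s = t ∧ n ≤ m then 1 else 0 := by
  obtain ⟨x, f, hx, hf, hfx⟩ := array_seq h (fun k => (Nat.unpair k).1) Nat.unpair_left_le
  refine ⟨fun s m => x (Nat.pair s m), fun s n => f (Nat.pair s n), fun s m => hx _,
    fun s n => hf _, ?_⟩
  intro s n t m
  rw [hfx]
  simp only [Nat.unpair_pair]
  by_cases hst : s = t
  · subst hst
    have : Nat.pair s n ≤ Nat.pair s m ↔ n ≤ m := by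
      constructor
      · intro hle
        by_contra hcon
        push Not at hcon
        exact absurd (Nat.pair_lt_pair_right s hcon) (by omega)
      · intro hle
        rcases hle.lt_or_eq with h1 | h1
        · exact (Nat.pair_lt_pair_right s h1).le
        · rw [h1]
    simp [this]
  · simp [hst]

end

end Pool.Agent.Helper31.Arr
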