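import Mathlib

open Set Filter Topology MeasureTheory
open scoped Nat

namespace Pool.Agent.Helper31

/-- A chain `F 0, F 1, F 2, …` of nonnegative functions on `(0, ∞)` with `(F n)' = - F (n+1)`:
the function `F 0` is completely monotone on `(0, ∞)`. -/
structure CMChain (F : ℕ → ℝ → ℝ) : Prop where
  nonneg : ∀ n x, 0 < x → 0 ≤ F n x
  hasDeriv : ∀ n x, 0 < x → HasDerivAt (F n) (-(F (n + 1) x)) x

/-- Taylor remainder of `F m` at `l`. -/
noncomputable def rem (F : ℕ → ℝ → ℝ) (l : ℝ) (m n : ℕ) (x : ℝ) : ℝ :=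
  F m x - ∑ k ∈ Finset.range n, F (m + k) l * (l - x) ^ k / k !

lemma rem_zero (F : ℕ → ℝ → ℝ) (l : ℝ) (m : ℕ) (x : ℝ) : rem F l m 0 x = F m x := by
  simp [rem]

lemma rem_self (F : ℕ → ℝ → ℝ) (l : ℝ) (m n : ℕ) : rem F l m (n + 1) l = 0 := by
  unfold rem
  rw [Finset.sum_range_succ']
  simp

lemma hasDerivAt_rem {F : ℕ → ℝ → ℝ} (hF : CMChain F) (l : ℝ) (m n : ℕ) {x : ℝ} (hx : 0 < x) :
    HasDerivAt (rem F l m (n + 1)) (-(rem F l (m + 1) n x)) x := by
  have h1 := hF.hasDeriv m x hx
  have h2 : HasDerivAt (fun y => ∑ k ∈ Finset.range (n + 1), F (m + k) l * (l - y) ^ k / k !)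
      (-(∑ k ∈ Finset.range n, F (m + 1 + k) l * (l - x) ^ k / k !)) x := by
    have h3 : ∀ k ∈ Finset.range (n + 1),
        HasDerivAt (fun y => F (m + k) l * (l - y) ^ k / k !)
          (F (m + k) l * (-(k * (l - x) ^ (k - 1))) / k !) x := by
      intro k _
      have h4 : HasDerivAt (fun y : ℝ => l - y) (-1) x := by
        simpa using (hasDerivAt_id x).const_sub l
      have h5 := (h4.pow k)
      have h6 := (h5.const_mul (F (m + k) l)).div_const (k ! : ℝ)
      refine h6.congr_deriv ?_
      ring
    have h7 := HasDerivAt.fun_sum h3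
    refine h7.congr_deriv ?_
    rw [Finset.sum_range_succ']
    simp only [Nat.cast_zero, zero_mul, neg_zero, mul_zero, zero_div, add_zero]
    rw [← Finset.sum_neg_distrib]
    apply Finset.sum_congr rfl
    intro k _
    have hk : ((k + 1)! : ℝ) = (k + 1) * k ! := by
      rw [Nat.factorial_succ]; push_cast; ring
    have hk0 : (k ! : ℝ) ≠ 0 := by positivity
    have hk1 : ((k : ℝ) + 1) ≠ 0 := by positivity
    rw [hk]
    have e1 : m + 1 + k = m + (k + 1) := by ring
    rw [e1]
    simp only [Nat.add_sub_cancel]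
    push_cast
    field_simp
  have h8 := h1.sub h2
  refine h8.congr_deriv ?_
  unfold rem
  ring

lemma rem_nonneg {F : ℕ → ℝ → ℝ} (hF : CMChain F) {l : ℝ} :
    ∀ (n m : ℕ) {x : ℝ}, 0 < x → x ≤ l → 0 ≤ rem F l m n x := by
  intro n
  induction n with
  | zero => intro m x hx _; rw [rem_zero]; exact hF.nonneg m x hx
  | succ n ih =>
    intro m x hx hxl
    have hanti : AntitoneOn (rem F l m (n + 1)) (Icc x l) := by
      apply antitoneOn_of_deriv_nonpos (convex_Icc x l)
      · intro y hy
        exact (hasDerivAt_rem hF l m n (lt_of_lt_of_le hx hy.1)).continuousAt.continuousWithinAt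
      · intro y hy
        rw [interior_Icc] at hy
        exact (hasDerivAt_rem hF l m n (lt_trans hx hy.1)).differentiableAt.differentiableWithinAt
      · intro y hy
        rw [interior_Icc] at hy
        rw [(hasDerivAt_rem hF l m n (lt_trans hx hy.1)).deriv]
        have := ih (m + 1) (lt_trans hx hy.1) hy.2.le
        linarith
    have := hanti (left_mem_Icc.2 hxl) (right_mem_Icc.2 hxl) hxl
    rw [rem_self] at this
    exact this

lemma rem_ineq {F : ℕ → ℝ → ℝ} (hF : CMChain F) {l : ℝ} :
    ∀ (n m : ℕ) {x : ℝ}, 0 < x → x ≤ l →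
      0 ≤ (l - x) * rem F l (m + 1) n x - (n + 1) * rem F l m (n + 1) x := by
  intro n
  induction n with
  | zero =>
    intro m x hx hxl
    set H : ℝ → ℝ := fun y => (l - y) * rem F l (m + 1) 0 y - ((0 : ℕ) + 1) * rem F l m (0 + 1) y
      with hH
    have hd : ∀ y, 0 < y → HasDerivAt H (-((l - y) * F (m + 2) y)) y := by
      intro y hy
      have h4 : HasDerivAt (fun y : ℝ => l - y) (-1) y := by
        simpa using (hasDerivAt_id y).const_sub l
      have h5 : HasDerivAt (rem F l (m + 1) 0) (-(F (m + 2) y)) y := by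
        have : rem F l (m + 1) 0 = F (m + 1) := by
          funext z; rw [rem_zero]
        rw [this]
        exact hF.hasDeriv (m + 1) y hy
      have h6 := (h4.mul h5).sub ((hasDerivAt_rem hF l m 0 hy).const_mul ((0 : ℕ) + 1 : ℝ))
      refine h6.congr_deriv ?_
      rw [rem_zero]
      push_cast
      ring
    have hanti : AntitoneOn H (Icc x l) := by
      apply antitoneOn_of_deriv_nonpos (convex_Icc x l)
      · intro y hy
        exact (hd y (lt_of_lt_of_le hx hy.1)).continuousAt.continuousWithinAt
      · intro y hy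
        rw [interior_Icc] at hy
        exact (hd y (lt_trans hx hy.1)).differentiableAt.differentiableWithinAt
      · intro y hy
        rw [interior_Icc] at hy
        rw [(hd y (lt_trans hx hy.1)).deriv]
        have h1 := hF.nonneg (m + 2) y (lt_trans hx hy.1)
        have h2 : 0 ≤ l - y := by linarith [hy.2]
        nlinarith [mul_nonneg h2 h1]
    have := hanti (left_mem_Icc.2 hxl) (right_mem_Icc.2 hxl) hxl
    have h0 : H l = 0 := by
      simp only [hH, rem_self]; ring
    rw [h0] at this
    simpa [hH] using this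
  | succ n ih =>
    intro m x hx hxl
    set H : ℝ → ℝ := fun y =>
      (l - y) * rem F l (m + 1) (n + 1) y - ((n + 1 : ℕ) + 1) * rem F l m (n + 1 + 1) y
      with hH
    have hd : ∀ y, 0 < y → HasDerivAt H
        (-((l - y) * rem F l (m + 1 + 1) n y - (n + 1) * rem F l (m + 1) (n + 1) y)) y := by
      intro y hy
      have h4 : HasDerivAt (fun y : ℝ => l - y) (-1) y := by
        simpa using (hasDerivAt_id y).const_sub l
      have h5 := hasDerivAt_rem hF l (m + 1) n hy
      have h6 := (h4.mul h5).sub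
        ((hasDerivAt_rem hF l m (n + 1) hy).const_mul (((n + 1 : ℕ) : ℝ) + 1))
      refine h6.congr_deriv ?_
      push_cast
      ring
    have hanti : AntitoneOn H (Icc x l) := by
      apply antitoneOn_of_deriv_nonpos (convex_Icc x l)
      · intro y hy
        exact (hd y (lt_of_lt_of_le hx hy.1)).continuousAt.continuousWithinAt
      · intro y hy
        rw [interior_Icc] at hy
        exact (hd y (lt_trans hx hy.1)).differentiableAt.differentiableWithinAt
      · intro y hy
        rw [interior_Icc] at hy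
        rw [(hd y (lt_trans hx hy.1)).deriv]
        have := ih (m + 1) (lt_trans hx hy.1) hy.2.le
        linarith
    have := hanti (left_mem_Icc.2 hxl) (right_mem_Icc.2 hxl) hxl
    have h0 : H l = 0 := by
      simp only [hH, rem_self]; ring
    rw [h0] at this
    simpa [hH] using this

lemma rem_antitone {F : ℕ → ℝ → ℝ} (hF : CMChain F) {l : ℝ} (n m : ℕ) {x y : ℝ}
    (hy : 0 < y) (hyx : y ≤ x) (hxl : x < l) :
    rem F l m (n + 1) x / (l - x) ^ (n + 1) ≤ rem F l m (n + 1) y / (l - y) ^ (n + 1) := by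
  set Q : ℝ → ℝ := fun z => rem F l m (n + 1) z / (l - z) ^ (n + 1) with hQ
  have hd : ∀ z, 0 < z → z < l → HasDerivAt Q
      (-(((l - z) * rem F l (m + 1) n z - (n + 1) * rem F l m (n + 1) z) / (l - z) ^ (n + 2))) z := by
    intro z hz hzl
    have h4 : HasDerivAt (fun y : ℝ => l - y) (-1) z := by
      simpa using (hasDerivAt_id z).const_sub l
    have hne : l - z ≠ 0 := by linarith
    have h5 := (hasDerivAt_rem hF l m n hz).div (h4.pow (n + 1)) (pow_ne_zero _ hne)
    refine h5.congr_deriv ?_
    simp only [Nat.add_sub_cancel, Pi.pow_apply]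
    push_cast
    field_simp
    ring
  have hanti : AntitoneOn Q (Icc y x) := by
    apply antitoneOn_of_deriv_nonpos (convex_Icc y x)
    · intro z hz
      exact (hd z (lt_of_lt_of_le hy hz.1)
        (lt_of_le_of_lt hz.2 hxl)).continuousAt.continuousWithinAt
    · intro z hz
      rw [interior_Icc] at hz
      exact (hd z (lt_trans hy hz.1)
        (lt_trans hz.2 hxl)).differentiableAt.differentiableWithinAt
    · intro z hz
      rw [interior_Icc] at hz
      rw [(hd z (lt_trans hy hz.1) (lt_trans hz.2 hxl)).deriv]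
      have h1 := rem_ineq hF n m (lt_trans hy hz.1) (lt_trans hz.2 hxl).le
      have h2 : 0 < l - z := by linarith [lt_trans hz.2 hxl]
      have h3 : 0 ≤ ((l - z) * rem F l (m + 1) n z - (n + 1) * rem F l m (n + 1) z) /
          (l - z) ^ (n + 2) := div_nonneg h1 (pow_pos h2 _).le
      linarith
  exact hanti (left_mem_Icc.2 hyx) (right_mem_Icc.2 hyx) hyx

lemma rem_tendsto {F : ℕ → ℝ → ℝ} (hF : CMChain F) {l x : ℝ} (hx : 0 < x) (hxl : x ≤ l) :
    Tendsto (fun n => rem F l 0 n x) atTop (𝓝 0) := by
  rcases hxl.eq_or_lt with rfl | hxl'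
  · apply tendsto_const_nhds.congr'
    filter_upwards [eventually_ge_atTop 1] with n hn
    obtain ⟨k, rfl⟩ : ∃ k, n = k + 1 := ⟨n - 1, by omega⟩
    rw [rem_self]
  · rw [← tendsto_add_atTop_iff_nat 1]
    set y := x / 2 with hy
    have hy0 : 0 < y := by positivity
    have hyx : y < x := by rw [hy]; linarith
    set q := (l - x) / (l - y) with hq
    have hlx : 0 < l - x := by linarith
    have hly : 0 < l - y := by linarith
    have hq0 : 0 ≤ q := by positivity
    have hq1 : q < 1 := by
      rw [hq, div_lt_one hly]; linarith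
    have hlim : Tendsto (fun n : ℕ => q ^ (n + 1) * F 0 y) atTop (𝓝 0) := by
      have h1 := (tendsto_pow_atTop_nhds_zero_of_lt_one hq0 hq1)
      have h2 := ((tendsto_add_atTop_iff_nat 1).2 h1).mul_const (F 0 y)
      simpa using h2
    apply squeeze_zero _ _ hlim
    · intro n
      exact rem_nonneg hF (n + 1) 0 hx hxl'.le
    · intro n
      have h1 := rem_antitone hF n 0 hy0 hyx.le hxl'
      have h2 : rem F l 0 (n + 1) y ≤ F 0 y := by
        unfold rem
        have : 0 ≤ ∑ k ∈ Finset.range (n + 1), F (0 + k) l * (l - y) ^ k / k ! := by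
          apply Finset.sum_nonneg
          intro k _
          have := hF.nonneg (0 + k) l (by linarith)
          positivity
        linarith
      have h3 : rem F l 0 (n + 1) x ≤ rem F l 0 (n + 1) y * q ^ (n + 1) := by
        rw [div_le_iff₀ (by positivity)] at h1
        calc rem F l 0 (n + 1) x ≤ rem F l 0 (n + 1) y / (l - y) ^ (n + 1) * (l - x) ^ (n + 1) := h1
          _ = rem F l 0 (n + 1) y * q ^ (n + 1) := by
            rw [hq, div_pow]; ring
      calc rem F l 0 (n + 1) x ≤ rem F l 0 (n + 1) y * q ^ (n + 1) := h3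
        _ ≤ F 0 y * q ^ (n + 1) := by gcongr
        _ = q ^ (n + 1) * F 0 y := by ring

lemma cm_hasSum {F : ℕ → ℝ → ℝ} (hF : CMChain F) {l x : ℝ} (hx : 0 < x) (hxl : x ≤ l) :
    HasSum (fun k : ℕ => F k l * (l - x) ^ k / k !) (F 0 x) := by
  rw [hasSum_iff_tendsto_nat_of_nonneg]
  · have h := rem_tendsto hF hx hxl
    have h2 : Tendsto (fun n => F 0 x - rem F l 0 n x) atTop (𝓝 (F 0 x - 0)) :=
      tendsto_const_nhds.sub h
    simp only [sub_zero] at h2
    refine h2.congr ?_
    intro n
    unfold rem
    simp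
  · intro k
    have h1 := hF.nonneg k l (lt_of_lt_of_le hx hxl)
    have h2 : 0 ≤ l - x := by linarith
    positivity

end Pool.Agent.Helper31
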