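import Mathlib
import Pool.Agent.Helper31.CM

open Set Filter Topology MeasureTheory
open scoped Nat unitInterval ENNReal NNReal

namespace Pool.Agent.Helper31

/-- The point `exp (-k/l)` of the unit interval. -/
noncomputable def pt (l : ℝ) (k : ℕ) : I :=
  ⟨Real.exp (-(k / |l|)), (Real.exp_pos _).le, Real.exp_le_one_iff.2 (by
    have : (0:ℝ) ≤ k / |l| := by positivity
    linarith)⟩

/-- The discrete approximating measures. -/
noncomputable def apx (F : ℕ → ℝ → ℝ) (l : ℝ) : Measure I :=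
  Measure.sum (fun k : ℕ => ENNReal.ofReal (F k l * l ^ k / k !) • Measure.dirac (pt l k))

lemma apx_sum_le {F : ℕ → ℝ → ℝ} (hF : CMChain F) {C : ℝ} (hC : ∀ x, 0 < x → F 0 x ≤ C)
    {l : ℝ} (hl : 0 < l) (N : ℕ) : ∑ k ∈ Finset.range N, F k l * l ^ k / k ! ≤ C := by
  have h1 : Tendsto (fun x : ℝ => ∑ k ∈ Finset.range N, F k l * (l - x) ^ k / k !) (𝓝[>] 0)
      (𝓝 (∑ k ∈ Finset.range N, F k l * (l - 0) ^ k / k !)) := by
    apply tendsto_nhdsWithin_of_tendsto_nhds
    apply Continuous.tendsto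
    fun_prop
  simp only [sub_zero] at h1
  refine le_of_tendsto h1 ?_
  have h2 : Ioo (0:ℝ) l ∈ 𝓝[>] (0:ℝ) := Ioo_mem_nhdsGT hl
  filter_upwards [h2] with x hx
  have h3 := rem_nonneg hF N 0 hx.1 hx.2.le
  unfold rem at h3
  simp only [zero_add] at h3
  have h4 := hC x hx.1
  linarith

lemma apx_univ_le {F : ℕ → ℝ → ℝ} (hF : CMChain F) {C : ℝ} (hC : ∀ x, 0 < x → F 0 x ≤ C)
    {l : ℝ} (hl : 0 < l) : apx F l univ ≤ ENNReal.ofReal C := by
  unfold apx
  rw [Measure.sum_apply _ MeasurableSet.univ]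
  simp only [Measure.smul_apply, measure_univ, smul_eq_mul, mul_one]
  apply ENNReal.tsum_le_of_sum_range_le
  intro N
  have hnn : ∀ k ∈ Finset.range N, 0 ≤ F k l * l ^ k / k ! := by
    intro k _
    have := hF.nonneg k l hl
    positivity
  rw [← ENNReal.ofReal_sum_of_nonneg hnn]
  exact ENNReal.ofReal_le_ofReal (apx_sum_le hF hC hl N)

lemma apx_integral {F : ℕ → ℝ → ℝ} (hF : CMChain F) {C : ℝ} (hC : ∀ x, 0 < x → F 0 x ≤ C)
    {l : ℝ} (hl : 0 < l) {v : ℝ} (hv : 0 < v) :
    ∫ a, (a : ℝ) ^ v ∂(apx F l) = F 0 (l - l * Real.exp (-(v / l))) := by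
  have hfin : IsFiniteMeasure (apx F l) :=
    ⟨lt_of_le_of_lt (apx_univ_le hF hC hl) ENNReal.ofReal_lt_top⟩
  have hcont : Continuous (fun a : I => (a : ℝ) ^ v) :=
    (Real.continuous_rpow_const hv.le).comp continuous_subtype_val
  have hint : Integrable (fun a : I => (a : ℝ) ^ v) (apx F l) :=
    Integrable.of_bound hcont.aestronglyMeasurable 1 (Eventually.of_forall (fun a => by
      rw [Real.norm_eq_abs, abs_of_nonneg (Real.rpow_nonneg a.2.1 v)]
      exact Real.rpow_le_one a.2.1 a.2.2 hv.le))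
  have h1 := hasSum_integral_measure (μ := fun k : ℕ =>
    ENNReal.ofReal (F k l * l ^ k / k !) • Measure.dirac (pt l k)) hint
  have hx0 : 0 < l - l * Real.exp (-(v / l)) := by
    have : Real.exp (-(v / l)) < 1 := by
      rw [Real.exp_lt_one_iff]
      have : 0 < v / l := by positivity
      linarith
    nlinarith
  have hxl : l - l * Real.exp (-(v / l)) ≤ l := by
    have : 0 < l * Real.exp (-(v / l)) := by positivity
    linarith
  have h2 := cm_hasSum hF hx0 hxl
  have h3 : (fun k : ℕ => ∫ a, (a : ℝ) ^ v ∂(ENNReal.ofReal (F k l * l ^ k / k !) •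
      Measure.dirac (pt l k))) =
      fun k : ℕ => F k l * (l - (l - l * Real.exp (-(v / l)))) ^ k / k ! := by
    funext k
    rw [integral_smul_measure, integral_dirac]
    have hnn : 0 ≤ F k l * l ^ k / k ! := by
      have := hF.nonneg k l hl
      positivity
    rw [ENNReal.toReal_ofReal hnn]
    simp only [pt, smul_eq_mul, abs_of_pos hl, sub_sub_cancel]
    rw [← Real.exp_mul, mul_pow, ← Real.exp_nat_mul]
    have : -(k / l) * v = k * (-(v / l)) := by ring
    rw [this]
    ring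
  rw [h3] at h1
  exact h1.unique h2

/-- **Bernstein's theorem** for bounded completely monotone functions on `(0, ∞)`, in the
variable `a = exp (-t)`. -/
theorem bernstein {F : ℕ → ℝ → ℝ} (hF : CMChain F) {C : ℝ} (hC : ∀ x, 0 < x → F 0 x ≤ C) :
    ∃ ν : Measure I, IsFiniteMeasure ν ∧ ∀ v, 0 < v → ∫ a, (a : ℝ) ^ v ∂ν = F 0 v := by
  have hpos : ∀ n : ℕ, (0:ℝ) < (n : ℝ) + 1 := fun n => by positivity
  have hfin : ∀ n : ℕ, IsFiniteMeasure (apx F ((n : ℝ) + 1)) := fun n =>
    ⟨lt_of_le_of_lt (apx_univ_le hF hC (hpos n)) ENNReal.ofReal_lt_top⟩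
  let μ : ℕ → FiniteMeasure I := fun n => ⟨apx F ((n : ℝ) + 1), hfin n⟩
  have hmass : ∀ n, (μ n).mass ≤ Real.toNNReal C := by
    intro n
    have h1 := apx_univ_le hF hC (hpos n)
    rw [← ENNReal.coe_le_coe, FiniteMeasure.ennreal_mass]
    exact h1
  have hcomp := isCompact_setOfPred_finiteMeasure_le_of_compactSpace I (Real.toNNReal C)
  let U : Ultrafilter ℕ := Ultrafilter.of atTop
  have hU : (U : Filter ℕ) ≤ atTop := Ultrafilter.of_le atTop
  obtain ⟨ν, -, hν⟩ := isCompact_iff_ultrafilter_le_nhds.1 hcomp (U.map μ) (by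
    rw [le_principal_iff, Ultrafilter.mem_coe, Ultrafilter.mem_map]
    exact Filter.univ_mem' hmass)
  have hν' : Tendsto μ U (𝓝 ν) := hν
  refine ⟨(ν : Measure I), inferInstance, ?_⟩
  intro v hv
  have hcont : Continuous (fun a : I => (a : ℝ) ^ v) :=
    (Real.continuous_rpow_const hv.le).comp continuous_subtype_val
  let g : BoundedContinuousFunction I ℝ := BoundedContinuousFunction.mkOfCompact ⟨_, hcont⟩
  have h1 := (FiniteMeasure.tendsto_iff_forall_integral_tendsto.1 hν') g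
  have h2 : ∀ n, ∫ a, g a ∂(μ n : Measure I) =
      F 0 (((n : ℝ) + 1) - ((n : ℝ) + 1) * Real.exp (-(v / ((n : ℝ) + 1)))) := by
    intro n
    exact apx_integral hF hC (hpos n) hv
  have h3 : Tendsto (fun n : ℕ => ((n : ℝ) + 1) - ((n : ℝ) + 1) *
      Real.exp (-(v / ((n : ℝ) + 1)))) atTop (𝓝 v) := by
    have hd : HasDerivAt (fun t : ℝ => Real.exp (-(v * t))) (-v) 0 := by
      have h4 : HasDerivAt (fun t : ℝ => -(v * t)) (-v) 0 := by
        exact (((hasDerivAt_id (0:ℝ)).const_mul v).neg).congr_deriv (by simp)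
      have h5 := h4.exp
      simpa using h5
    have h6 := hd.tendsto_slope_zero
    have h7 : Tendsto (fun n : ℕ => (1 : ℝ) / ((n : ℝ) + 1)) atTop (𝓝[≠] 0) := by
      rw [tendsto_nhdsWithin_iff]
      refine ⟨tendsto_one_div_add_atTop_nhds_zero_nat, Eventually.of_forall (fun n => ?_)⟩
      have := hpos n
      simp only [mem_compl_iff, mem_singleton_iff]
      positivity
    have h8 := (h6.comp h7).neg
    simp only [neg_neg] at h8
    refine h8.congr ?_
    intro n
    have := (hpos n).ne'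
    simp only [Function.comp_apply, zero_add, mul_zero, neg_zero, Real.exp_zero, smul_eq_mul,
      one_div, inv_inv]
    rw [← div_eq_mul_inv]
    ring
  have h4 : Tendsto (fun n : ℕ => ∫ a, g a ∂(μ n : Measure I)) atTop (𝓝 (F 0 v)) := by
    simp_rw [h2]
    exact ((hF.hasDeriv 0 v hv).continuousAt.tendsto).comp h3
  have h5 := tendsto_nhds_unique h1 (h4.mono_left hU)
  exact h5

end Pool.Agent.Helper31
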