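import Mathlib

open Set Filter Topology MeasureTheory ProbabilityTheory
open scoped Nat unitInterval ENNReal NNReal

namespace Pool.Agent.Helper31

lemma map_sum_gaussian {Ω : Type*} [MeasurableSpace Ω] {P : Measure Ω} [IsProbabilityMeasure P]
    {X : ℕ → Ω → ℝ} (hXm : ∀ i, Measurable (X i)) (hX : ∀ i, P.map (X i) = gaussianReal 0 1)
    (hind : iIndepFun X P) (c : ℕ → ℝ) (s : Finset ℕ) :
    P.map (∑ i ∈ s, fun ω => c i * X i ω) =
      gaussianReal 0 (∑ i ∈ s, Real.toNNReal ((c i) ^ 2)) := by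
  have hY : ∀ i, Measurable (fun ω => c i * X i ω) := fun i => (hXm i).const_mul _
  have hYind : iIndepFun (fun i => fun ω => c i * X i ω) P :=
    hind.comp (fun i x => c i * x) (fun i => by fun_prop)
  induction s using Finset.induction_on with
  | empty =>
    simp only [Finset.sum_empty]
    rw [gaussianReal_zero_var]
    have : (0 : Ω → ℝ) = fun _ => (0:ℝ) := rfl
    rw [this, Measure.map_const]
    simp
  | insert i s hi ih =>
    rw [Finset.sum_insert hi, Finset.sum_insert hi]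
    have h1 : IndepFun (fun ω => c i * X i ω) (∑ i ∈ s, fun ω => c i * X i ω) P :=
      (hYind.indepFun_finsetSum_of_notMem hY hi).symm
    have h2 : P.map (fun ω => c i * X i ω) = gaussianReal 0 (Real.toNNReal ((c i) ^ 2)) := by
      have h3 := gaussianReal_map_const_mul (μ := 0) (v := 1) (c i)
      rw [← hX i, Measure.map_map (by fun_prop) (hXm i)] at h3
      have h5 : (fun x => c i * x) ∘ X i = fun ω => c i * X i ω := rfl
      rw [h5] at h3
      rw [h3]
      congr 1
      · simp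
      · rw [mul_one, Real.toNNReal_of_nonneg (sq_nonneg _)]
    have h4 := gaussianReal_add_gaussianReal_of_indepFun h1 h2 ih
    simpa using h4

/-- The law of an i.i.d. sequence of standard Gaussian variables. -/
noncomputable def gam : Measure (ℕ → ℝ) := Measure.infinitePi (fun _ => gaussianReal 0 1)

instance : IsProbabilityMeasure gam := by
  unfold gam; infer_instance

/-- Law of a finite linear combination. -/
lemma gam_map (c : ℕ → ℝ) (s : Finset ℕ) {t : ℝ} (ht : t ^ 2 = ∑ i ∈ s, (c i) ^ 2) :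
    gam.map (fun ω => ∑ i ∈ s, c i * ω i) = (gaussianReal 0 1).map (fun x => t * x) := by
  have h1 : ∀ i : ℕ, gam.map (fun ω : ℕ → ℝ => ω i) = gaussianReal 0 1 := by
    intro i
    unfold gam
    exact Measure.infinitePi_map_eval _ i
  have h2 : iIndepFun (fun (i : ℕ) (ω : ℕ → ℝ) => ω i) gam := by
    unfold gam
    exact iIndepFun_infinitePi (X := fun _ x => x) (fun _ => measurable_id)
  have h3 := map_sum_gaussian (X := fun (i : ℕ) (ω : ℕ → ℝ) => ω i)
    (fun i => measurable_pi_apply i) h1 h2 c s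
  have h4 := gaussianReal_map_const_mul (μ := 0) (v := 1) t
  have e1 : (∑ i ∈ s, fun ω : ℕ → ℝ => c i * ω i) = fun ω => ∑ i ∈ s, c i * ω i := by
    funext ω
    simp
  rw [← e1, h3, h4]
  congr 1
  · simp
  · ext
    rw [mul_one, NNReal.coe_sum, NNReal.coe_mk, ht]
    apply Finset.sum_congr rfl
    intro i _
    exact Real.coe_toNNReal _ (sq_nonneg _)

/-- Random scale times isonormal coordinates: `(ρ, ω) ↦ ρ ω_i`. -/
def coordFn (i : ℕ) (p : ℝ × (ℕ → ℝ)) : ℝ := p.1 * p.2 i

variable {κ : Measure ℝ}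

/-- Main computation: expectation of a function of `s - ρ ∑ c_i ω_i`. -/
lemma lintegral_comb (c : ℕ → ℝ) (s : Finset ℕ) {t : ℝ} (ht : t ^ 2 = ∑ i ∈ s, (c i) ^ 2)
    (g : ℝ → ℝ≥0∞) (hg : Measurable g) :
    ∫⁻ p : ℝ × (ℕ → ℝ), g (p.1 * ∑ i ∈ s, c i * p.2 i) ∂(κ.prod gam) =
      ∫⁻ ρ, ∫⁻ x, g (t * (ρ * x)) ∂(gaussianReal 0 1) ∂κ := by
  rw [lintegral_prod]
  · apply lintegral_congr
    intro ρ
    have h1 : Measurable (fun ω : ℕ → ℝ => ∑ i ∈ s, c i * ω i) := by fun_prop
    have h2 : ∫⁻ ω, g (ρ * ∑ i ∈ s, c i * ω i) ∂gam =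
        ∫⁻ y, g (ρ * y) ∂(gam.map (fun ω => ∑ i ∈ s, c i * ω i)) := by
      rw [lintegral_map (by fun_prop) h1]
    rw [h2, gam_map c s ht, lintegral_map (by fun_prop) (by fun_prop)]
    apply lintegral_congr
    intro x
    congr 1
    ring
  · apply Measurable.aemeasurable
    fun_prop

end Pool.Agent.Helper31
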