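import Mathlib
import Pool.Agent.Helper31.Isonormal

open Set Filter Topology MeasureTheory ProbabilityTheory
open scoped Nat unitInterval ENNReal NNReal

namespace Pool.Agent.Helper31

/-- The functional `∫∫ |s - t ρ x| dγ(x) dκ(ρ)`. -/
noncomputable def mixNorm (κ : Measure ℝ) (s t : ℝ) : ℝ≥0∞ :=
  ∫⁻ ρ, ∫⁻ x, ‖s - t * (ρ * x)‖ₑ ∂(gaussianReal 0 1) ∂κ

lemma integrable_id_gauss : Integrable (fun x : ℝ => x) (gaussianReal 0 1) := by
  have h := memLp_id_gaussianReal (μ := 0) (v := 1) 1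
  rw [ENNReal.coe_one, memLp_one_iff_integrable] at h
  exact h

lemma integrable_coord {κ : Measure ℝ} [IsProbabilityMeasure κ] (hκ : ∫⁻ ρ, ‖ρ‖ₑ ∂κ < ∞) (i : ℕ) :
    Integrable (coordFn i) (κ.prod gam) := by
  have h1 : Integrable (fun ρ : ℝ => ρ) κ := ⟨by fun_prop, hκ⟩
  have h2 : Integrable (fun ω : ℕ → ℝ => ω i) gam := by
    have h3 : gam.map (fun ω : ℕ → ℝ => ω i) = gaussianReal 0 1 := by
      unfold gam
      exact Measure.infinitePi_map_eval _ i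
    have h4 : Integrable (fun x : ℝ => x) (gam.map (fun ω : ℕ → ℝ => ω i)) := by
      rw [h3]
      exact integrable_id_gauss
    exact h4.comp_measurable (by fun_prop)
  exact h1.mul_prod h2

noncomputable def coordL (κ : Measure ℝ) [IsProbabilityMeasure κ] (hκ : ∫⁻ ρ, ‖ρ‖ₑ ∂κ < ∞)
    (i : ℕ) : Lp ℝ 1 (κ.prod gam) :=
  (memLp_one_iff_integrable.2 (integrable_coord hκ i)).toLp (coordFn i)

noncomputable def oneL (κ : Measure ℝ) [IsProbabilityMeasure κ] : Lp ℝ 1 (κ.prod gam) :=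
  (memLp_const (1:ℝ)).toLp (fun _ => (1:ℝ))

noncomputable def finMap (κ : Measure ℝ) [IsProbabilityMeasure κ] (hκ : ∫⁻ ρ, ‖ρ‖ₑ ∂κ < ∞) :
    (ℕ →₀ ℝ) →ₗ[ℝ] Lp ℝ 1 (κ.prod gam) :=
  Finsupp.linearCombination ℝ (coordL κ hκ)

lemma sum_coe {κ : Measure ℝ} [IsProbabilityMeasure κ] (hκ : ∫⁻ ρ, ‖ρ‖ₑ ∂κ < ∞) (c : ℕ → ℝ)
    (s : Finset ℕ) :
    ⇑(∑ i ∈ s, c i • coordL κ hκ i) =ᵐ[κ.prod gam] fun p => p.1 * ∑ i ∈ s, c i * p.2 i := by
  induction s using Finset.induction_on with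
  | empty =>
    simp only [Finset.sum_empty, mul_zero]
    exact Lp.coeFn_zero ℝ 1 _
  | insert i s hi ih =>
    rw [Finset.sum_insert hi]
    have h1 := Lp.coeFn_add (c i • coordL κ hκ i) (∑ i ∈ s, c i • coordL κ hκ i)
    have h2 := Lp.coeFn_smul (c i) (coordL κ hκ i)
    have h3 : ⇑(coordL κ hκ i) =ᵐ[κ.prod gam] coordFn i := MemLp.coeFn_toLp _
    filter_upwards [h1, h2, h3, ih] with p e1 e2 e3 e4
    rw [e1, Pi.add_apply, e2, Pi.smul_apply, e3, e4, Finset.sum_insert hi, coordFn, smul_eq_mul]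
    ring

lemma enorm_fin {κ : Measure ℝ} [IsProbabilityMeasure κ] (hκ : ∫⁻ ρ, ‖ρ‖ₑ ∂κ < ∞) (s : ℝ)
    (c : ℕ →₀ ℝ) {t : ℝ} (ht : t ^ 2 = ∑ i ∈ c.support, (c i) ^ 2) :
    ‖s • oneL κ - finMap κ hκ c‖ₑ = mixNorm κ s t := by
  have h0 : finMap κ hκ c = ∑ i ∈ c.support, c i • coordL κ hκ i := by
    simp [finMap, Finsupp.linearCombination_apply, Finsupp.sum]
  rw [Lp.enorm_def, eLpNorm_one_eq_lintegral_enorm]
  have h1 := lintegral_comb (κ := κ) c c.support ht (fun y => ‖s - y‖ₑ) (by fun_prop)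
  unfold mixNorm
  rw [← h1]
  apply lintegral_congr_ae
  have h2 := Lp.coeFn_sub (s • oneL κ) (finMap κ hκ c)
  have h3 := Lp.coeFn_smul s (oneL κ)
  have h4 : ⇑(oneL κ) =ᵐ[κ.prod gam] fun _ => (1:ℝ) := MemLp.coeFn_toLp _
  have h5 := sum_coe hκ c c.support
  rw [← h0] at h5
  filter_upwards [h2, h3, h4, h5] with p e2 e3 e4 e5
  rw [e2, Pi.sub_apply, e3, Pi.smul_apply, e4, e5]
  simp

lemma mixNorm_zero (κ : Measure ℝ) (t : ℝ) :
    mixNorm κ 0 t = ‖t‖ₑ * ((∫⁻ ρ, ‖ρ‖ₑ ∂κ) * ∫⁻ x, ‖x‖ₑ ∂(gaussianReal 0 1)) := by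
  unfold mixNorm
  have h1 : ∀ ρ : ℝ, ∫⁻ x, ‖(0:ℝ) - t * (ρ * x)‖ₑ ∂(gaussianReal 0 1) =
      ‖t‖ₑ * (∫⁻ x, ‖x‖ₑ ∂(gaussianReal 0 1)) * ‖ρ‖ₑ := by
    intro ρ
    have h2 : ∀ x : ℝ, ‖(0:ℝ) - t * (ρ * x)‖ₑ = ‖t‖ₑ * ‖ρ‖ₑ * ‖x‖ₑ := by
      intro x
      rw [zero_sub, enorm_neg, enorm_mul, enorm_mul, mul_assoc]
    simp_rw [h2]
    rw [lintegral_const_mul _ (by fun_prop)]
    ring
  simp_rw [h1]
  rw [lintegral_const_mul _ (by fun_prop)]
  ring

section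

variable {H : Type*} [NormedAddCommGroup H] [InnerProductSpace ℝ H] (b : HilbertBasis ℕ ℝ H)

noncomputable def basisMap : (ℕ →₀ ℝ) →ₗ[ℝ] H :=
  Finsupp.linearCombination ℝ (fun i => b i)

lemma norm_basisMap_sq (c : ℕ →₀ ℝ) : ‖basisMap b c‖ ^ 2 = ∑ i ∈ c.support, (c i) ^ 2 := by
  rw [← real_inner_self_eq_norm_sq]
  unfold basisMap
  rw [b.orthonormal.inner_finsupp_eq_sum_left]
  simp only [Finsupp.sum, conj_trivial]
  apply Finset.sum_congr rfl
  intro i _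
  ring

lemma denseRange_basisMap : DenseRange (basisMap b) := by
  have h1 := b.dense_span
  have h2 : Dense ((Submodule.span ℝ (range fun i => b i) : Submodule ℝ H) : Set H) := by
    rw [Submodule.dense_iff_topologicalClosure_eq_top]
    exact h1
  have h3 : range (basisMap b) = ((Submodule.span ℝ (range fun i => b i) : Submodule ℝ H) : Set H)
      := by
    rw [← LinearMap.coe_range]
    unfold basisMap
    rw [Finsupp.range_linearCombination]
  unfold DenseRange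
  rw [h3]
  exact h2

include b in
theorem exists_embed (κ : Measure ℝ) [IsProbabilityMeasure κ] (hκ : ∫⁻ ρ, ‖ρ‖ₑ ∂κ < ∞) :
    ∃ J : ℝ × H →L[ℝ] Lp ℝ 1 (κ.prod gam), ∀ s h, ‖J (s, h)‖ₑ = mixNorm κ s ‖h‖ := by
  set f := finMap κ hκ with hf
  set e := basisMap b with he
  have hdense : DenseRange e := denseRange_basisMap b
  set m : ℝ≥0∞ := (∫⁻ ρ, ‖ρ‖ₑ ∂κ) * ∫⁻ x, ‖x‖ₑ ∂(gaussianReal 0 1) with hm
  have hmfin : m ≠ ∞ := by
    apply ENNReal.mul_ne_top hκ.ne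
    exact integrable_id_gauss.2.ne
  have hbound : ∀ c, ‖f c‖ ≤ m.toReal * ‖e c‖ := by
    intro c
    have h1 := enorm_fin hκ 0 c (norm_basisMap_sq b c)
    rw [zero_smul, zero_sub, enorm_neg, mixNorm_zero] at h1
    have h2 := congrArg ENNReal.toReal h1
    rw [toReal_enorm, ENNReal.toReal_mul, toReal_enorm, norm_norm] at h2
    rw [hf, h2, mul_comm]
  set Fx : H →L[ℝ] Lp ℝ 1 (κ.prod gam) := f.extendOfNorm e with hFx
  have hFxe : ∀ c, Fx (e c) = f c := fun c =>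
    LinearMap.extendOfNorm_eq hdense ⟨_, hbound⟩ c
  let J : ℝ × H →L[ℝ] Lp ℝ 1 (κ.prod gam) :=
    (ContinuousLinearMap.fst ℝ ℝ H).smulRight (oneL κ) - Fx.comp (ContinuousLinearMap.snd ℝ ℝ H)
  have hJ : ∀ s h, J (s, h) = s • oneL κ - Fx h := by
    intro s h
    simp [J]
  have hJe : ∀ s c, ‖J (s, e c)‖ₑ = mixNorm κ s ‖e c‖ := by
    intro s c
    rw [hJ, hFxe]
    exact enorm_fin hκ s c (norm_basisMap_sq b c)
  have hb0 : ∀ t : ℝ, t • b 0 = e (Finsupp.single 0 t) := by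
    intro t
    simp [he, basisMap]
  have hbn : ∀ t : ℝ, 0 ≤ t → ‖t • b 0‖ = t := by
    intro t ht
    rw [norm_smul, b.orthonormal.1 0, mul_one, Real.norm_of_nonneg ht]
  have hJt : ∀ s t : ℝ, 0 ≤ t → ‖J (s, t • b 0)‖ₑ = mixNorm κ s t := by
    intro s t ht
    have h1 := hJe s (Finsupp.single 0 t)
    rw [← hb0, hbn t ht] at h1
    exact h1
  refine ⟨J, ?_⟩
  intro s h
  rw [← hJt s ‖h‖ (norm_nonneg h)]
  have hall : ∀ h : H, ‖J (s, h)‖ = ‖J (s, ‖h‖ • b 0)‖ := by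
    intro h
    refine hdense.induction_on (p := fun h => ‖J (s, h)‖ = ‖J (s, ‖h‖ • b 0)‖) h ?_ ?_
    · exact isClosed_eq (by fun_prop) (by fun_prop)
    · intro c
      have h1 := hJe s c
      rw [← hJt s ‖e c‖ (norm_nonneg _)] at h1
      have h2 := congrArg ENNReal.toReal h1
      rw [toReal_enorm, toReal_enorm] at h2
      exact h2
  rw [enorm_eq_iff_norm_eq]
  exact hall h

end

/-- Any `L₁` over a probability measure on a standard Borel space embeds isometrically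
into `L₁[0,1]`. -/
theorem exists_transfer {Y : Type*} [MeasurableSpace Y] [StandardBorelSpace Y] (μ : Measure Y)
    [IsProbabilityMeasure μ] :
    Nonempty (Lp ℝ 1 μ →ₗᵢ[ℝ] Lp ℝ 1 ((volume : Measure ℝ).restrict (Icc (0:ℝ) 1))) := by
  have : Nonempty Y := by
    by_contra hne
    rw [not_nonempty_iff] at hne
    have : μ univ = 0 := by
      rw [Set.eq_empty_of_isEmpty (univ : Set Y)]; simp
    simp at this
  obtain ⟨f, hf, hfμ⟩ := MeasureTheory.Measure.exists_measurable_map_eq μ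
  have h1 : MeasurePreserving f (volume : Measure I) μ := ⟨hf, hfμ⟩
  have h2 : MeasurePreserving (projIcc (0:ℝ) 1 zero_le_one)
      ((volume : Measure ℝ).restrict (Icc (0:ℝ) 1)) (volume : Measure I) := by
    refine ⟨?_, ?_⟩
    · exact continuous_projIcc.measurable
    · have h3 : MeasurePreserving ((↑) : I → ℝ) (volume : Measure I)
          ((volume : Measure ℝ).restrict (Icc (0:ℝ) 1)) :=
        measurePreserving_subtype_coe measurableSet_Icc
      rw [← h3.map_eq, Measure.map_map continuous_projIcc.measurable measurable_subtype_coe]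
      have : (projIcc (0:ℝ) 1 zero_le_one ∘ ((↑) : I → ℝ)) = id := by
        funext x
        exact projIcc_val zero_le_one x
      rw [this, Measure.map_id]
  exact ⟨Lp.compMeasurePreservingₗᵢ ℝ _ (h1.comp h2)⟩

end Pool.Agent.Helper31
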