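import Pool.Agent.Helper31.Renorm

set_option autoImplicit false
set_option maxSynthPendingDepth 3

open Filter Topology

namespace Pool.Agent.Helper31.Renorm

variable {𝕜 : Type*} [RCLike 𝕜]
variable {X : Type*} [NormedAddCommGroup X] [NormedSpace 𝕜 X]

section

variable {x : ℕ → ℕ → X} {f : ℕ → ℕ → StrongDual 𝕜 X}

/-- the test functional along a branch -/
noncomputable def AA (f : ℕ → ℕ → StrongDual 𝕜 X) (D : ℕ) (k : ℕ → ℕ) (ε : ℕ → 𝕜) :
    StrongDual 𝕜 X := ∑ j ∈ Finset.range D, ε j • f (node k j) (k j)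

theorem AA_apply (D : ℕ) (k : ℕ → ℕ) (ε : ℕ → 𝕜) (y : X) :
    AA f D k ε y = ∑ j ∈ Finset.range D, ε j * f (node k j) (k j) y := by
  unfold AA
  rw [sum_apply]
  rfl

theorem AA_x (hfx : ∀ s n t m, f s n (x t m) = if s = t ∧ n ≤ m then 1 else 0)
    (D : ℕ) (k k' : ℕ → ℕ) (ε : ℕ → 𝕜) {i : ℕ} (hi : i < D) (m : ℕ) :
    AA f D k ε (x (node k' i) m) = if node k i = node k' i ∧ k i ≤ m then ε i else 0 := by
  rw [AA_apply]
  simp_rw [hfx]
  rw [Finset.sum_eq_single i]
  · split_ifs <;> simp
  · intro j _ hji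
    have h1 : node k j ≠ node k' i := fun h => hji (node_inj h).1
    rw [if_neg (fun hc => h1 hc.1), mul_zero]
  · intro h
    exact absurd (Finset.mem_range.2 hi) h

theorem AA_mem (hf : ∀ s n, ‖f s n‖ ≤ 8)
    (hfx : ∀ s n t m, f s n (x t m) = if s = t ∧ n ≤ m then 1 else 0)
    (D : ℕ) (k : ℕ → ℕ) {ε : ℕ → 𝕜} (hε : ∀ j, ‖ε j‖ ≤ 1) {K : ℝ} (hK : 8 * (D : ℝ) ≤ K) :
    AA f D k ε ∈ GG x D K := by
  refine ⟨?_, fun k' m hm => ?_⟩
  · unfold AA
    calc _ ≤ ∑ j ∈ Finset.range D, ‖ε j • f (node k j) (k j)‖ := norm_sum_le _ _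
      _ ≤ ∑ j ∈ Finset.range D, (8 : ℝ) := by
        refine Finset.sum_le_sum fun j _ => ?_
        rw [norm_smul]
        calc ‖ε j‖ * ‖f (node k j) (k j)‖ ≤ 1 * 8 := by
              gcongr
              · exact hε j
              · exact hf _ _
          _ = 8 := by norm_num
      _ = 8 * (D : ℝ) := by rw [Finset.sum_const, Finset.card_range, nsmul_eq_mul]; ring
      _ ≤ K := hK
  · have h1 : ∀ i ∈ Finset.range D,
        ‖AA f D k ε (x (node k' i) m - x (node k' i) (k' i))‖ ≤
          if (node k i = node k' i ∧ k' i < k i) then 1 else 0 := by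
      intro i hi
      have hiD := Finset.mem_range.1 hi
      rw [map_sub, AA_x hfx D k k' ε hiD m, AA_x hfx D k k' ε hiD (k' i)]
      by_cases hn : node k i = node k' i
      · by_cases h2 : k' i < k i
        · rw [if_pos (⟨hn, h2⟩ : node k i = node k' i ∧ k' i < k i),
            if_neg (fun hc => absurd hc.2 (by omega) : ¬ (node k i = node k' i ∧ k i ≤ k' i)),
            sub_zero]
          split_ifs
          · exact hε i
          · simp
        · have h3 : k i ≤ k' i := by omega
          have h4 : k i ≤ m := h3.trans (hm i hiD)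
          rw [if_pos (⟨hn, h3⟩ : node k i = node k' i ∧ k i ≤ k' i),
            if_pos (⟨hn, h4⟩ : node k i = node k' i ∧ k i ≤ m), sub_self, norm_zero]
          split_ifs <;> norm_num
      · rw [if_neg (fun hc => hn hc.1), if_neg (fun hc => hn hc.1), sub_self, norm_zero]
        split_ifs <;> norm_num
    calc _ ≤ ∑ i ∈ Finset.range D,
          (if (node k i = node k' i ∧ k' i < k i) then (1 : ℝ) else 0) := Finset.sum_le_sum h1
      _ = (((Finset.range D).filter (fun i => node k i = node k' i ∧ k' i < k i)).card : ℝ) := by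
        rw [Finset.sum_boole]
      _ ≤ 1 := by
        have : ((Finset.range D).filter (fun i => node k i = node k' i ∧ k' i < k i)).card ≤ 1 := by
          rw [Finset.card_le_one]
          intro a ha b hb
          obtain ⟨_, ha2, ha3⟩ := Finset.mem_filter.1 ha
          obtain ⟨_, hb2, hb3⟩ := Finset.mem_filter.1 hb
          rcases lt_trichotomy a b with h | h | h
          · have := (node_inj hb2).2 a h; omega
          · exact h
          · have := (node_inj ha2).2 b h; omega
        exact_mod_cast this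

/-- choice of a branch along which the functionals do not see the given vectors -/
theorem exists_branch (hnull : ∀ s y, Tendsto (fun n => f s n y) UU (𝓝 0)) (y : ℕ → X) {η : ℝ}
    (hη : 0 < η) :
    ∃ k : ℕ → ℕ, ∀ j, ∀ i ≤ j, ‖f (node k j) (k j) (y (node k i))‖ ≤ η := by
  refine Arr.exists_seq_of_extend
    (fun (k : ℕ → ℕ) j => ∀ i ≤ j, ‖f (node k j) (k j) (y (node k i))‖ ≤ η) ?_ ?_
  · intro a b j hab hc i hi
    have h1 : node a j = node b j := node_congr fun l hl => hab l hl.le
    have h2 : node a i = node b i := node_congr fun l hl => hab l (by omega)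
    rw [← h1, ← h2, ← hab j le_rfl]
    exact hc i hi
  · intro a n _
    have hev : ∀ᶠ v in (UU : Filter ℕ), ∀ i ∈ Finset.range (n + 1),
        ‖f (node a n) v (y (node a i))‖ ≤ η := by
      rw [Filter.eventually_all_finset]
      intro i _
      have h1 := (hnull (node a n) (y (node a i))).norm
      rw [norm_zero] at h1
      exact (h1.eventually (gt_mem_nhds hη)).mono fun _ h => h.le
    obtain ⟨v, hv⟩ := hev.exists
    refine ⟨v, fun i hi => ?_⟩
    have h1 : node (Function.update a n v) n = node a n :=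
      node_congr fun l hl => Function.update_of_ne hl.ne _ _
    have h2 : node (Function.update a n v) i = node a i :=
      node_congr fun l hl => Function.update_of_ne (by omega) _ _
    change ‖f (node (Function.update a n v) n) (Function.update a n v n)
      (y (node (Function.update a n v) i))‖ ≤ η
    rw [h1, h2, Function.update_self]
    exact hv i (Finset.mem_range.2 (by omega))

/-- The main estimate. -/
theorem main_estimate (hx : ∀ s m, ‖x s m‖ ≤ 4) (hf : ∀ s n, ‖f s n‖ ≤ 8)
    (hfx : ∀ s n t m, f s n (x t m) = if s = t ∧ n ≤ m then 1 else 0)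
    (hnull : ∀ s y, Tendsto (fun n => f s n y) UU (𝓝 0))
    (D : ℕ) {K : ℝ} (hK : 8 * (D : ℝ) + 1 ≤ K)
    {W : Type*} [NormedAddCommGroup W] [NormedSpace 𝕜 W]
    (T : X ≃ₗ[𝕜] StrongDual 𝕜 W) {α β : ℝ} (hα : 0 ≤ α) (hβ : 0 ≤ β)
    (h1 : ∀ y, ‖T y‖ ≤ α * newNorm (𝕜 := 𝕜) x D K y)
    (h2 : ∀ y, newNorm (𝕜 := 𝕜) x D K y ≤ β * ‖T y‖) :
    (D : ℝ) ≤ α * β := by
  have hD0 : (0 : ℝ) ≤ D := Nat.cast_nonneg D
  have hK0 : 0 ≤ K := by linarith
  -- weak star limits
  have hz : ∀ s, ∃ z : StrongDual 𝕜 W, ‖z‖ ≤ α * (K * 4) ∧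
      ∀ w, Tendsto (fun m => T (x s m) w) UU (𝓝 (z w)) := by
    intro s
    refine exists_wlim (fun m => T (x s m)) fun m => ?_
    calc ‖T (x s m)‖ ≤ α * newNorm (𝕜 := 𝕜) x D K (x s m) := h1 _
      _ ≤ α * (K * 4) := by
        gcongr
        exact (newNorm_le_mul x D hK0 _).trans (by gcongr; exact hx s m)
  choose z _ hz using hz
  -- reduction to an estimate with an error
  suffices hη : ∀ η : ℝ, 0 < η → (D : ℝ) * (1 - D * η) ≤ α * β by
    by_contra hcon
    push Not at hcon
    set δ := (D : ℝ) - α * β with hδ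
    have hδ0 : 0 < δ := by linarith
    have hDpos : (0 : ℝ) < (D : ℝ) ^ 2 + 1 := by positivity
    have h3 := hη (δ / (2 * ((D : ℝ) ^ 2 + 1))) (by positivity)
    have h4 : (D : ℝ) ^ 2 * (δ / (2 * ((D : ℝ) ^ 2 + 1))) ≤ δ / 2 := by
      rw [mul_div_assoc', div_le_div_iff₀ (by positivity) (by norm_num)]
      nlinarith
    nlinarith
  intro η hη
  obtain ⟨k, hk⟩ := exists_branch (f := f) hnull (fun s => T.symm (z s)) hη
  obtain ⟨b, hb⟩ := exists_signs (𝕜 := 𝕜) D
    (fun j i => f (node k j) (k j) (T.symm (z (node k i))))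
  set v : StrongDual 𝕜 W :=
    ∑ i ∈ Finset.range D, b i • (z (node k i) - T (x (node k i) (k i))) with hv
  -- norm of `v`
  have hvn : ‖v‖ ≤ α := by
    refine ContinuousLinearMap.opNorm_le_bound _ hα fun w => ?_
    have hlim : Tendsto (fun m => T (∑ i ∈ Finset.range D,
        b i • (x (node k i) m - x (node k i) (k i))) w) UU (𝓝 (v w)) := by
      have he : ∀ m, T (∑ i ∈ Finset.range D, b i • (x (node k i) m - x (node k i) (k i))) w =
          ∑ i ∈ Finset.range D, b i * (T (x (node k i) m) w - T (x (node k i) (k i)) w) := by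
        intro m
        rw [map_sum, sum_apply]
        refine Finset.sum_congr rfl fun i _ => ?_
        rw [map_smul, map_sub]
        rfl
      have hv2 : v w = ∑ i ∈ Finset.range D,
          b i * (z (node k i) w - T (x (node k i) (k i)) w) := by
        rw [hv, sum_apply]
        rfl
      simp_rw [he]
      rw [hv2]
      refine tendsto_finset_sum _ fun i _ => ?_
      exact ((hz (node k i) w).sub_const _).const_mul _
    refine le_of_tendsto hlim.norm ?_
    filter_upwards [eventually_ge (∑ i ∈ Finset.range D, k i)] with m hm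
    have hkm : ∀ i < D, k i ≤ m := fun i hi =>
      (Finset.single_le_sum (f := k) (fun _ _ => Nat.zero_le _) (Finset.mem_range.2 hi)).trans hm
    have hN : newNorm (𝕜 := 𝕜) x D K
        (∑ i ∈ Finset.range D, b i • (x (node k i) m - x (node k i) (k i))) ≤ 1 := by
      refine newNorm_le hK0 fun g hg => ?_
      rw [map_sum]
      calc _ ≤ ∑ i ∈ Finset.range D, ‖g (b i • (x (node k i) m - x (node k i) (k i)))‖ :=
            norm_sum_le _ _
        _ = ∑ i ∈ Finset.range D, ‖g (x (node k i) m - x (node k i) (k i))‖ := by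
          refine Finset.sum_congr rfl fun i hi => ?_
          rw [map_smul, norm_smul, (hb i (Finset.mem_range.1 hi)).1, one_mul]
        _ ≤ 1 := hg.2 k m hkm
    calc _ ≤ ‖T (∑ i ∈ Finset.range D, b i • (x (node k i) m - x (node k i) (k i)))‖ * ‖w‖ :=
          ContinuousLinearMap.le_opNorm _ _
      _ ≤ (α * newNorm (𝕜 := 𝕜) x D K
        (∑ i ∈ Finset.range D, b i • (x (node k i) m - x (node k i) (k i)))) * ‖w‖ := by
          gcongr
          exact h1 _
      _ ≤ (α * 1) * ‖w‖ := by gcongr
      _ = α * ‖w‖ := by rw [mul_one]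
  -- the vector `e`
  set e : X := T.symm v with he
  have heN : newNorm (𝕜 := 𝕜) x D K e ≤ α * β := by
    calc _ ≤ β * ‖T e‖ := h2 e
      _ = β * ‖v‖ := by rw [he, LinearEquiv.apply_symm_apply]
      _ ≤ β * α := by gcongr
      _ = α * β := mul_comm _ _
  have he2 : e = ∑ i ∈ Finset.range D,
      b i • (T.symm (z (node k i)) - x (node k i) (k i)) := by
    rw [he, hv, map_sum]
    refine Finset.sum_congr rfl fun i _ => ?_
    rw [map_smul, map_sub, LinearEquiv.symm_apply_apply]
  -- the individual functionals are large at `e`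
  have hτ : ∀ j < D, 1 - D * η ≤ ‖f (node k j) (k j) e‖ := by
    intro j hj
    have hterm : ∀ i ∈ Finset.range D, f (node k j) (k j)
        (b i • (T.symm (z (node k i)) - x (node k i) (k i))) =
        b i * f (node k j) (k j) (T.symm (z (node k i))) - (if i = j then b j else 0) := by
      intro i _
      rw [map_smul, map_sub, hfx, smul_eq_mul, mul_sub]
      congr 1
      by_cases hij : i = j
      · subst hij; simp
      · have : node k j ≠ node k i := fun h => hij (node_inj h).1.symm
        rw [if_neg (fun hc => this hc.1), if_neg hij, mul_zero]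
    have hsum : f (node k j) (k j) e =
        (-b j + ∑ i ∈ Finset.Ioo j D, b i * f (node k j) (k j) (T.symm (z (node k i)))) +
        ∑ i ∈ Finset.range (j + 1), b i * f (node k j) (k j) (T.symm (z (node k i))) := by
      rw [he2, map_sum, Finset.sum_congr rfl hterm, Finset.sum_sub_distrib,
        Finset.sum_ite_eq' (Finset.range D) j, if_pos (Finset.mem_range.2 hj)]
      have hsplit : ∑ i ∈ Finset.range D, b i * f (node k j) (k j) (T.symm (z (node k i))) =
          ∑ i ∈ Finset.range (j + 1), b i * f (node k j) (k j) (T.symm (z (node k i))) +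
          ∑ i ∈ Finset.Ioo j D, b i * f (node k j) (k j) (T.symm (z (node k i))) := by
        rw [← Finset.sum_range_add_sum_Ico _ (show j + 1 ≤ D by omega)]
        congr 1
      rw [hsplit]; ring
    rw [hsum]
    have hsmall : ‖∑ i ∈ Finset.range (j + 1),
        b i * f (node k j) (k j) (T.symm (z (node k i)))‖ ≤ D * η := by
      calc _ ≤ ∑ i ∈ Finset.range (j + 1),
            ‖b i * f (node k j) (k j) (T.symm (z (node k i)))‖ := norm_sum_le _ _
        _ ≤ ∑ i ∈ Finset.range (j + 1), η := by
          refine Finset.sum_le_sum fun i hi => ?_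
          have hij : i ≤ j := by have := Finset.mem_range.1 hi; omega
          rw [norm_mul, (hb i (by omega)).1, one_mul]
          exact hk j i hij
        _ = (j + 1 : ℕ) * η := by rw [Finset.sum_const, Finset.card_range, nsmul_eq_mul]
        _ ≤ D * η := by
          gcongr
          omega
    have hbig := (hb j hj).2
    have h3 := norm_sub_le_norm_add
      (-b j + ∑ i ∈ Finset.Ioo j D, b i * f (node k j) (k j) (T.symm (z (node k i))))
      (∑ i ∈ Finset.range (j + 1), b i * f (node k j) (k j) (T.symm (z (node k i))))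
    linarith
  -- phases
  have hphase : ∀ c : 𝕜, ∃ ε : 𝕜, ‖ε‖ ≤ 1 ∧ ε * c = (‖c‖ : 𝕜) := by
    intro c
    rcases eq_or_ne c 0 with h0 | h0
    · exact ⟨0, by simp, by simp [h0]⟩
    · have hn : (‖c‖ : ℝ) ≠ 0 := norm_ne_zero_iff.2 h0
      refine ⟨(‖c‖ : 𝕜) / c, ?_, div_mul_cancel₀ _ h0⟩
      rw [norm_div, RCLike.norm_ofReal, abs_of_nonneg (norm_nonneg c), div_self hn]
  choose ph hph1 hph2 using hphase
  have hmem : AA f D k (fun j => ph (f (node k j) (k j) e)) ∈ GG x D K :=
    AA_mem hf hfx D k (fun j => hph1 _) (by linarith)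
  have h3 := le_newNorm hmem e
  have h4 : AA f D k (fun j => ph (f (node k j) (k j) e)) e =
      ((∑ j ∈ Finset.range D, ‖f (node k j) (k j) e‖ : ℝ) : 𝕜) := by
    rw [AA_apply]
    push_cast
    exact Finset.sum_congr rfl fun j _ => hph2 _
  rw [h4, RCLike.norm_ofReal, abs_of_nonneg (Finset.sum_nonneg fun _ _ => norm_nonneg _)] at h3
  calc (D : ℝ) * (1 - D * η) = ∑ j ∈ Finset.range D, (1 - D * η) := by
        rw [Finset.sum_const, Finset.card_range, nsmul_eq_mul]
    _ ≤ ∑ j ∈ Finset.range D, ‖f (node k j) (k j) e‖ :=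
      Finset.sum_le_sum fun j hj => hτ j (Finset.mem_range.1 hj)
    _ ≤ newNorm (𝕜 := 𝕜) x D K e := h3
    _ ≤ α * β := heN

end

end Pool.Agent.Helper31.Renorm
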