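import Mathlib

set_option autoImplicit false

open Filter Topology

namespace Pool.Agent.Helper31.Helly

variable {𝕜 : Type*} [RCLike 𝕜]

/-- Interpolation without norm control. -/
theorem interp {E : Type*} [NormedAddCommGroup E] [NormedSpace 𝕜 E]
    {ι : Type*} [Fintype ι] (g : ι → StrongDual 𝕜 E)
    (Ψ : StrongDual 𝕜 (StrongDual 𝕜 E)) :
    ∃ e : E, ∀ i, g i e = Ψ (g i) := by
  classical
  set R : E →ₗ[𝕜] (ι → 𝕜) := LinearMap.pi (fun i => (g i : E →ₗ[𝕜] 𝕜)) with hR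
  have key : (fun i => Ψ (g i)) ∈ LinearMap.range R := by
    by_contra hcon
    obtain ⟨f, hf1, hf2⟩ := Submodule.exists_le_ker_of_notMem hcon
    have hsum : ∀ v : ι → 𝕜, f v = ∑ i, v i * f (Pi.single i 1) := by
      intro v
      have h1 : v = ∑ i, v i • (Pi.single i (1 : 𝕜) : ι → 𝕜) := by
        ext j
        simp [Finset.sum_apply, Pi.single_apply]
      conv_lhs => rw [h1]
      rw [map_sum]
      refine Finset.sum_congr rfl fun i _ => ?_
      rw [map_smul, smul_eq_mul]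
    have h0 : (∑ i, f (Pi.single i 1) • g i : StrongDual 𝕜 E) = 0 := by
      ext e
      have h2 : f (R e) = 0 := hf2 ⟨e, rfl⟩
      rw [hsum] at h2
      rw [ContinuousLinearMap.sum_apply]
      simp only [ContinuousLinearMap.smul_apply, smul_eq_mul, ContinuousLinearMap.zero_apply]
      rw [← h2]
      refine Finset.sum_congr rfl fun i _ => ?_
      rw [hR, LinearMap.pi_apply, mul_comm]
      rfl
    apply hf1
    rw [hsum]
    have h3 : Ψ (∑ i, f (Pi.single i 1) • g i : StrongDual 𝕜 E) = 0 := by rw [h0, map_zero]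
    rw [map_sum] at h3
    rw [← h3]
    refine Finset.sum_congr rfl fun i _ => ?_
    rw [map_smul, smul_eq_mul, mul_comm]
  obtain ⟨e, he⟩ := key
  exact ⟨e, fun i => congrFun he i⟩

/-- Helly's theorem: an element of the bidual is matched on finitely many functionals by an element
of the space, with almost the same norm. -/
theorem helly {E : Type*} [NormedAddCommGroup E] [NormedSpace 𝕜 E]
    {ι : Type*} [Fintype ι] (g : ι → StrongDual 𝕜 E)
    (Ψ : StrongDual 𝕜 (StrongDual 𝕜 E)) {r : ℝ} (hr : ‖Ψ‖ < r) :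
    ∃ e : E, ‖e‖ < r ∧ ∀ i, g i e = Ψ (g i) := by
  classical
  obtain ⟨e₀, he₀⟩ := interp g Ψ
  set K : Submodule 𝕜 E := ⨅ i, LinearMap.ker (g i : E →ₗ[𝕜] 𝕜) with hK
  obtain ⟨h, hh1, hh2⟩ := exists_dual_vector'' 𝕜 (Submodule.Quotient.mk e₀ : E ⧸ K)
  set φ : StrongDual 𝕜 E := h.comp K.mkQL with hφ
  have hφn : ‖φ‖ ≤ 1 := by
    refine ContinuousLinearMap.opNorm_le_bound _ zero_le_one fun x => ?_
    calc ‖φ x‖ = ‖h (Submodule.Quotient.mk x : E ⧸ K)‖ := rfl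
      _ ≤ ‖h‖ * ‖(Submodule.Quotient.mk x : E ⧸ K)‖ := h.le_opNorm _
      _ ≤ 1 * ‖x‖ := by
        gcongr
        exact Submodule.Quotient.norm_mk_le K x
  have hmem : (φ : E →ₗ[𝕜] 𝕜) ∈ Submodule.span 𝕜 (Set.range fun i => (g i : E →ₗ[𝕜] 𝕜)) := by
    apply mem_span_of_iInf_ker_le_ker
    intro x hx
    have hx' : x ∈ K := hx
    change φ x = 0
    have : (Submodule.Quotient.mk x : E ⧸ K) = 0 := (Submodule.Quotient.mk_eq_zero K).2 hx'
    change h (Submodule.Quotient.mk x : E ⧸ K) = 0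
    rw [this, map_zero]
  obtain ⟨c, hc⟩ := (Submodule.mem_span_range_iff_exists_fun 𝕜).1 hmem
  have hφ2 : φ = ∑ i, c i • g i := by
    ext x
    have := congrArg (fun T : E →ₗ[𝕜] 𝕜 => T x) hc
    simp only [LinearMap.sum_apply, LinearMap.smul_apply] at this
    rw [ContinuousLinearMap.sum_apply]
    simp only [ContinuousLinearMap.smul_apply]
    exact this.symm
  have hval : Ψ φ = φ e₀ := by
    rw [hφ2, map_sum, ContinuousLinearMap.sum_apply]
    refine Finset.sum_congr rfl fun i _ => ?_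
    rw [map_smul, ContinuousLinearMap.smul_apply, he₀]
  have hφe : φ e₀ = (‖(Submodule.Quotient.mk e₀ : E ⧸ K)‖ : 𝕜) := hh2
  have hle : ‖(Submodule.Quotient.mk e₀ : E ⧸ K)‖ ≤ ‖Ψ‖ := by
    have h1 : ‖Ψ φ‖ ≤ ‖Ψ‖ * ‖φ‖ := Ψ.le_opNorm φ
    rw [hval, hφe] at h1
    rw [RCLike.norm_ofReal, abs_of_nonneg (norm_nonneg _)] at h1
    calc _ ≤ ‖Ψ‖ * ‖φ‖ := h1
      _ ≤ ‖Ψ‖ * 1 := by gcongr
      _ = ‖Ψ‖ := mul_one _
  obtain ⟨m, hm1, hm2⟩ := Submodule.Quotient.norm_mk_lt (Submodule.Quotient.mk e₀ : E ⧸ K)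
    (ε := r - ‖Ψ‖) (by linarith)
  refine ⟨m, by linarith, fun i => ?_⟩
  have h5 : m - e₀ ∈ K := (Submodule.Quotient.eq K).1 hm1
  have h6 : m - e₀ ∈ LinearMap.ker (g i : E →ₗ[𝕜] 𝕜) := (Submodule.mem_iInf _).1 h5 i
  have h7 : g i (m - e₀) = 0 := h6
  rw [map_sub, sub_eq_zero] at h7
  rw [h7, he₀]

end Pool.Agent.Helper31.Helly
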