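import Mathlib
import Pool.Agent.Helper31.Bernstein

open Set Filter Topology MeasureTheory ProbabilityTheory
open scoped Nat unitInterval ENNReal NNReal

namespace Pool.Agent.Helper31

noncomputable def wt (a : I) : ℝ := √(Real.pi / (-Real.log a))

noncomputable def sc (a : I) : ℝ := √(1 / (2 * (-Real.log a)))

lemma measurable_wt : Measurable wt := by
  unfold wt
  fun_prop

lemma measurable_sc : Measurable sc := by
  unfold sc
  fun_prop

lemma inner_eq {a : I} (ha1 : (a : ℝ) ≠ 1) {g : ℝ → ℝ≥0∞} (hg : Measurable g) :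
    ∫⁻ y, g y * ENNReal.ofReal ((a : ℝ) ^ (y ^ 2)) =
      ENNReal.ofReal (wt a) * ∫⁻ x, g (sc a * x) ∂(gaussianReal 0 1) := by
  rcases eq_or_lt_of_le a.2.1 with h0 | h0
  · have h1 : (a : ℝ) = 0 := h0.symm
    have h2 : wt a = 0 := by simp [wt, h1]
    rw [h2]
    simp only [ENNReal.ofReal_zero, zero_mul]
    rw [lintegral_eq_zero_iff (by fun_prop)]
    have h3 : ∀ᵐ y : ℝ, y ≠ 0 := by
      simp [ae_iff]
    filter_upwards [h3] with y hy
    have : (y ^ 2 : ℝ) ≠ 0 := pow_ne_zero 2 hy
    simp [h1, Real.zero_rpow this]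
  · have ha : (a : ℝ) < 1 := lt_of_le_of_ne a.2.2 ha1
    set T : ℝ := -Real.log a with hT
    have hT0 : 0 < T := by
      have := Real.log_neg h0 ha
      linarith
    obtain ⟨v, hv⟩ : ∃ v : ℝ≥0, (v : ℝ) = 1 / (2 * T) := ⟨⟨1 / (2 * T), by positivity⟩, rfl⟩
    have hv0 : v ≠ 0 := by
      have : (v : ℝ) ≠ 0 := by
        rw [hv]
        positivity
      exact_mod_cast this
    have hsc : sc a = √(v : ℝ) := by
      rw [hv, sc, hT]
    have hmap : gaussianReal 0 v = (gaussianReal 0 1).map (fun x => sc a * x) := by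
      rw [gaussianReal_map_const_mul]
      congr 1
      · simp
      · ext
        simp only [hsc, NNReal.coe_mk, mul_one]
        exact (Real.sq_sqrt v.2).symm
    have hpdf : ∀ y : ℝ, ENNReal.ofReal ((a : ℝ) ^ (y ^ 2)) =
        ENNReal.ofReal (wt a) * gaussianPDF 0 v y := by
      intro y
      have hw0 : 0 ≤ wt a := Real.sqrt_nonneg _
      rw [gaussianPDF, ← ENNReal.ofReal_mul hw0]
      congr 1
      rw [gaussianPDFReal, Real.rpow_def_of_pos h0]
      simp only [wt, sub_zero]
      have e1 : (2 * Real.pi * (v : ℝ)) = Real.pi / T := by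
        rw [hv]
        field_simp
      have e2 : -y ^ 2 / (2 * (v : ℝ)) = Real.log a * y ^ 2 := by
        rw [hv]
        have : Real.log a = -T := by rw [hT]; ring
        rw [this]
        field_simp
      rw [e1, e2]
      have h9 : √(Real.pi / T) ≠ 0 := by
        have := Real.pi_pos
        positivity
      rw [← hT, ← mul_assoc, mul_inv_cancel₀ h9, one_mul]
    calc ∫⁻ y, g y * ENNReal.ofReal ((a : ℝ) ^ (y ^ 2))
        = ∫⁻ y, ENNReal.ofReal (wt a) * (gaussianPDF 0 v y * g y) := by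
          apply lintegral_congr
          intro y
          rw [hpdf y]
          ring
      _ = ENNReal.ofReal (wt a) * ∫⁻ y, gaussianPDF 0 v y * g y := by
          rw [lintegral_const_mul]
          exact (measurable_gaussianPDF 0 v).mul hg
      _ = ENNReal.ofReal (wt a) * ∫⁻ y, g y ∂(gaussianReal 0 v) := by
          rw [gaussianReal_of_var_ne_zero 0 hv0,
            lintegral_withDensity_eq_lintegral_mul _ (measurable_gaussianPDF 0 v) hg]
          rfl
      _ = ENNReal.ofReal (wt a) * ∫⁻ x, g (sc a * x) ∂(gaussianReal 0 1) := by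
          rw [hmap, lintegral_map hg (by fun_prop)]

/-- A density `y ↦ F (y²)` with `F` completely monotone is a scale mixture of centred
Gaussian laws. -/
theorem gaussian_mixture {F : ℕ → ℝ → ℝ} (hF : CMChain F) {C : ℝ} (hC : ∀ x, 0 < x → F 0 x ≤ C)
    (hq : ∫⁻ y, ENNReal.ofReal (F 0 (y ^ 2)) = 1) :
    ∃ κ : Measure ℝ, IsProbabilityMeasure κ ∧ ∀ g : ℝ → ℝ≥0∞, Measurable g →
      ∫⁻ y, g y * ENNReal.ofReal (F 0 (y ^ 2)) =
        ∫⁻ ρ, ∫⁻ x, g (ρ * x) ∂(gaussianReal 0 1) ∂κ := by
  obtain ⟨ν, hνfin, hν⟩ := bernstein hF hC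
  have hae : ∀ᵐ y : ℝ, y ≠ 0 := by simp [ae_iff]
  -- the swap
  have hswap : ∀ g : ℝ → ℝ≥0∞, Measurable g →
      ∫⁻ y, g y * ENNReal.ofReal (F 0 (y ^ 2)) =
        ∫⁻ a, ∫⁻ y, g y * ENNReal.ofReal ((a : ℝ) ^ (y ^ 2)) ∂volume ∂ν := by
    intro g hg
    rw [lintegral_lintegral_swap]
    · apply lintegral_congr_ae
      filter_upwards [hae] with y hy
      have hy2 : 0 < y ^ 2 := by positivity
      rw [lintegral_const_mul]
      · congr 1
        rw [← hν (y ^ 2) hy2, ofReal_integral_eq_lintegral_ofReal]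
        · have hcont : Continuous (fun a : I => (a : ℝ) ^ (y ^ 2)) :=
            (Real.continuous_rpow_const hy2.le).comp continuous_subtype_val
          exact Integrable.of_bound hcont.aestronglyMeasurable 1 (Eventually.of_forall (fun a => by
            rw [Real.norm_eq_abs, abs_of_nonneg (Real.rpow_nonneg a.2.1 _)]
            exact Real.rpow_le_one a.2.1 a.2.2 hy2.le))
        · exact Eventually.of_forall (fun a => Real.rpow_nonneg a.2.1 _)
      · fun_prop
    · apply Measurable.aemeasurable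
      fun_prop
  -- no mass at one
  have hone : ∀ᵐ a : I ∂ν, (a : ℝ) ≠ 1 := by
    have h1 := hswap (fun _ => 1) measurable_const
    simp only [one_mul] at h1
    rw [hq] at h1
    have h2 : ∫⁻ a, ∫⁻ y : ℝ, ENNReal.ofReal ((a : ℝ) ^ (y ^ 2)) ∂volume ∂ν ≠ ∞ := by
      rw [← h1]; exact ENNReal.one_ne_top
    have h3 := ae_lt_top' (by
      apply Measurable.aemeasurable
      apply Measurable.lintegral_prod_right'
        (f := fun p : I × ℝ => ENNReal.ofReal ((p.1 : ℝ) ^ (p.2 ^ 2)))
      fun_prop) h2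
    filter_upwards [h3] with a ha h
    rw [h] at ha
    simp at ha
  have hmain : ∀ g : ℝ → ℝ≥0∞, Measurable g →
      ∫⁻ y, g y * ENNReal.ofReal (F 0 (y ^ 2)) =
        ∫⁻ ρ, ∫⁻ x, g (ρ * x) ∂(gaussianReal 0 1)
          ∂((ν.withDensity (fun a => ENNReal.ofReal (wt a))).map sc) := by
    intro g hg
    have hm : Measurable (fun ρ : ℝ => ∫⁻ x, g (ρ * x) ∂(gaussianReal 0 1)) := by
      apply Measurable.lintegral_prod_right' (f := fun p : ℝ × ℝ => g (p.1 * p.2))
      fun_prop
    have hwm : Measurable (fun a : I => ENNReal.ofReal (wt a)) := measurable_wt.ennreal_ofReal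
    have h5 := lintegral_withDensity_eq_lintegral_mul ν hwm (hm.comp measurable_sc)
    rw [hswap g hg, lintegral_map hm measurable_sc]
    refine Eq.trans ?_ h5.symm
    apply lintegral_congr_ae
    filter_upwards [hone] with a ha
    rw [inner_eq ha hg]
    rfl
  refine ⟨_, ?_, hmain⟩
  constructor
  have h1 := hmain (fun _ => 1) measurable_const
  simp only [one_mul, hq, lintegral_const, measure_univ, mul_one] at h1
  exact h1.symm

end Pool.Agent.Helper31
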