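import Mathlib
import Pool.Agent.Helper31.Mixture
import Pool.Agent.Helper31.Embed

open Set Filter Topology MeasureTheory ProbabilityTheory
open scoped Nat unitInterval ENNReal NNReal

namespace Pool.Agent.Helper31

/-- `f'' = 2 q`, `f' = f1`, `q` even and nonnegative, with the right behaviour at infinity. -/
structure Profile (q f f1 : ℝ → ℝ) : Prop where
  q_meas : Measurable q
  q_nonneg : ∀ y, 0 ≤ q y
  q_even : ∀ y, q (-y) = q y
  f_even : ∀ y, f (-y) = f y
  hf : ∀ y, HasDerivAt f (f1 y) y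
  hf1 : ∀ y, HasDerivAt f1 (2 * q y) y
  f1_zero : f1 0 = 0
  f1_lim : Tendsto f1 atTop (𝓝 1)
  h_lim : Tendsto (fun y => f y - y * f1 y) atTop (𝓝 0)

variable {q f f1 : ℝ → ℝ}

lemma Profile.part (hp : Profile q f f1) (a : ℝ) :
    ∫⁻ y, ENNReal.ofReal (max (y - a) 0 * q y) = ENNReal.ofReal ((f a - a) / 2) := by
  have h1 : ∫⁻ y, ENNReal.ofReal (max (y - a) 0 * q y) =
      ∫⁻ y in Ioi a, ENNReal.ofReal ((y - a) * q y) := by
    rw [← lintegral_indicator measurableSet_Ioi]
    apply lintegral_congr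
    intro y
    by_cases hy : y ∈ Ioi a
    · rw [indicator_of_mem hy, max_eq_left (by have := mem_Ioi.1 hy; linarith)]
    · rw [indicator_of_notMem hy, max_eq_right (by simp at hy; linarith)]
      simp
  rw [h1]
  set G : ℝ → ℝ := fun y => ((y - a) * f1 y - f y) / 2 with hG
  have hd : ∀ y, HasDerivAt G ((y - a) * q y) y := by
    intro y
    have h2 : HasDerivAt (fun y => (y - a) * f1 y) (1 * f1 y + (y - a) * (2 * q y)) y :=
      ((hasDerivAt_id y).sub_const a).mul (hp.hf1 y)
    have h3 := (h2.sub (hp.hf y)).div_const 2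
    refine h3.congr_deriv ?_
    ring
  have hlim : Tendsto G atTop (𝓝 (-a / 2)) := by
    have h2 := ((hp.h_lim.neg).sub ((hp.f1_lim).const_mul a)).div_const 2
    have e1 : (-0 - a * 1) / 2 = -a / 2 := by ring
    rw [e1] at h2
    refine h2.congr ?_
    intro y
    simp only [hG]
    ring
  have hnn : ∀ y ∈ Ioi a, 0 ≤ (y - a) * q y := by
    intro y hy
    exact mul_nonneg (by have := mem_Ioi.1 hy; linarith) (hp.q_nonneg y)
  have hint := integrableOn_Ioi_deriv_of_nonneg' (fun y _ => hd y) hnn hlim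
  have hval := integral_Ioi_of_hasDerivAt_of_nonneg' (fun y _ => hd y) hnn hlim
  rw [← ofReal_integral_eq_lintegral_ofReal hint, hval]
  · congr 1
    simp only [hG]
    ring
  · filter_upwards [ae_restrict_mem measurableSet_Ioi] with y hy
    exact hnn y hy

lemma Profile.part_nonneg (hp : Profile q f f1) (a : ℝ) : 0 ≤ (f a - a) / 2 := by
  set G : ℝ → ℝ := fun y => ((y - a) * f1 y - f y) / 2 with hG
  have hd : ∀ y, HasDerivAt G ((y - a) * q y) y := by
    intro y
    have h2 : HasDerivAt (fun y => (y - a) * f1 y) (1 * f1 y + (y - a) * (2 * q y)) y :=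
      ((hasDerivAt_id y).sub_const a).mul (hp.hf1 y)
    have h3 := (h2.sub (hp.hf y)).div_const 2
    refine h3.congr_deriv ?_
    ring
  have hlim : Tendsto G atTop (𝓝 (-a / 2)) := by
    have h2 := ((hp.h_lim.neg).sub ((hp.f1_lim).const_mul a)).div_const 2
    have e1 : (-0 - a * 1) / 2 = -a / 2 := by ring
    rw [e1] at h2
    refine h2.congr ?_
    intro y
    simp only [hG]
    ring
  have hnn : ∀ y ∈ Ioi a, 0 ≤ (y - a) * q y := by
    intro y hy
    exact mul_nonneg (by have := mem_Ioi.1 hy; linarith) (hp.q_nonneg y)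
  have hval := integral_Ioi_of_hasDerivAt_of_nonneg' (fun y _ => hd y) hnn hlim
  have h4 : 0 ≤ ∫ y in Ioi a, (y - a) * q y := by
    apply setIntegral_nonneg measurableSet_Ioi hnn
  rw [hval] at h4
  simp only [hG] at h4
  linarith

lemma Profile.total (hp : Profile q f f1) : ∫⁻ y, ENNReal.ofReal (q y) = 1 := by
  have hpos : ∫⁻ y in Ioi (0:ℝ), ENNReal.ofReal (q y) = ENNReal.ofReal (1 / 2) := by
    have hd : ∀ y, HasDerivAt (fun y => f1 y / 2) (q y) y := by
      intro y
      refine ((hp.hf1 y).div_const 2).congr_deriv ?_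
      ring
    have hlim : Tendsto (fun y => f1 y / 2) atTop (𝓝 (1 / 2)) := hp.f1_lim.div_const 2
    have hint := integrableOn_Ioi_deriv_of_nonneg' (a := 0) (fun y _ => hd y)
      (fun y _ => hp.q_nonneg y) hlim
    have hval := integral_Ioi_of_hasDerivAt_of_nonneg' (a := 0) (fun y _ => hd y)
      (fun y _ => hp.q_nonneg y) hlim
    rw [← ofReal_integral_eq_lintegral_ofReal hint (Eventually.of_forall hp.q_nonneg), hval,
      hp.f1_zero]
    simp
  have hneg : ∫⁻ y in Iio (0:ℝ), ENNReal.ofReal (q y) = ENNReal.ofReal (1 / 2) := by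
    rw [← hpos, ← lintegral_indicator measurableSet_Iio, ← lintegral_indicator measurableSet_Ioi,
      ← lintegral_neg_eq_self]
    apply lintegral_congr
    intro y
    by_cases hy : 0 < y
    · rw [indicator_of_mem (by simpa using hy), indicator_of_mem (by simpa using hy), hp.q_even]
    · rw [indicator_of_notMem (by simpa using hy), indicator_of_notMem (by simpa using hy)]
  have hsplit : ∫⁻ y, ENNReal.ofReal (q y) =
      (∫⁻ y in Iio (0:ℝ), ENNReal.ofReal (q y)) + ∫⁻ y in Ioi (0:ℝ), ENNReal.ofReal (q y) := by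
    rw [← lintegral_add_compl _ (measurableSet_Iio (a := (0:ℝ))), compl_Iio,
      setLIntegral_congr Ioi_ae_eq_Ici]
  rw [hsplit, hpos, hneg, ← ENNReal.ofReal_add (by norm_num) (by norm_num)]
  norm_num

lemma Profile.abs_moment (hp : Profile q f f1) (a : ℝ) :
    ∫⁻ y, ‖a - y‖ₑ * ENNReal.ofReal (q y) = ENNReal.ofReal (f a) := by
  have h1 : ∀ y, ‖a - y‖ₑ * ENNReal.ofReal (q y) =
      ENNReal.ofReal (max (y - a) 0 * q y) + ENNReal.ofReal (max (a - y) 0 * q y) := by
    intro y
    rw [Real.enorm_eq_ofReal_abs, ← ENNReal.ofReal_mul (abs_nonneg _), ← ENNReal.ofReal_add]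
    · congr 1
      rw [← add_mul]
      congr 1
      rcases le_total y a with h | h
      · rw [abs_of_nonneg (by linarith), max_eq_right (by linarith), max_eq_left (by linarith)]
        ring
      · rw [abs_of_nonpos (by linarith), max_eq_left (by linarith), max_eq_right (by linarith)]
        ring
    · exact mul_nonneg (le_max_right _ _) (hp.q_nonneg y)
    · exact mul_nonneg (le_max_right _ _) (hp.q_nonneg y)
  have hqm := hp.q_meas
  simp_rw [h1]
  rw [lintegral_add_left (by fun_prop), hp.part a]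
  have h2 : ∫⁻ y, ENNReal.ofReal (max (a - y) 0 * q y) =
      ENNReal.ofReal ((f (-a) - (-a)) / 2) := by
    rw [← hp.part (-a), ← lintegral_neg_eq_self]
    apply lintegral_congr
    intro y
    rw [hp.q_even]
    congr 3
    ring
  rw [h2, ← ENNReal.ofReal_add (hp.part_nonneg a) (hp.part_nonneg (-a)), hp.f_even]
  congr 1
  ring

/-- The norm on the half plane `t ≥ 0` attached to a profile `f`. -/
noncomputable def prof (f : ℝ → ℝ) (s t : ℝ) : ℝ := if t = 0 then |s| else t * f (s / t)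

lemma Profile.moment (hp : Profile q f f1) (s : ℝ) {t : ℝ} (ht : 0 ≤ t) :
    ∫⁻ y, ‖s - t * y‖ₑ * ENNReal.ofReal (q y) = ENNReal.ofReal (prof f s t) := by
  unfold prof
  split_ifs with h0
  · simp_rw [h0, zero_mul, sub_zero]
    rw [lintegral_const_mul _ (hp.q_meas.ennreal_ofReal), hp.total, mul_one,
      Real.enorm_eq_ofReal_abs]
  · have h1 : ∀ y, ‖s - t * y‖ₑ * ENNReal.ofReal (q y) =
        ENNReal.ofReal t * (‖s / t - y‖ₑ * ENNReal.ofReal (q y)) := by
      intro y
      have h2 : s - t * y = t * (s / t - y) := by field_simp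
      rw [h2, enorm_mul, ← mul_assoc, Real.enorm_eq_ofReal ht]
    simp_rw [h1]
    have hqm := hp.q_meas
    rw [lintegral_const_mul _ (by fun_prop), hp.abs_moment, ENNReal.ofReal_mul ht]

/-- A profile whose density is a completely monotone function of `y²` gives an isometric
embedding of `ℝ × H`, with norm `prof f s ‖h‖`, into `L₁[0,1]`. -/
theorem Profile.embed (hp : Profile q f f1) {F : ℕ → ℝ → ℝ} (hF : CMChain F) {C : ℝ}
    (hC : ∀ x, 0 < x → F 0 x ≤ C) (hqF : ∀ y, q y = F 0 (y ^ 2))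
    {H : Type*} [NormedAddCommGroup H] [InnerProductSpace ℝ H] (b : HilbertBasis ℕ ℝ H) :
    ∃ J : ℝ × H →L[ℝ] Lp ℝ 1 ((volume : Measure ℝ).restrict (Icc (0:ℝ) 1)),
      ∀ s h, ‖J (s, h)‖ = prof f s ‖h‖ := by
  have htot := hp.total
  simp_rw [hqF] at htot
  obtain ⟨κ, hκ, hmix⟩ := gaussian_mixture hF hC htot
  have hmom : ∀ s t : ℝ, 0 ≤ t → mixNorm κ s t = ENNReal.ofReal (prof f s t) := by
    intro s t ht
    have h1 := hmix (fun y => ‖s - t * y‖ₑ) (by fun_prop)
    simp_rw [← hqF] at h1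
    rw [hp.moment s ht] at h1
    unfold mixNorm
    rw [h1]
  have hfin : ∫⁻ ρ, ‖ρ‖ₑ ∂κ < ∞ := by
    have h1 := hmom 0 1 zero_le_one
    rw [mixNorm_zero] at h1
    have h2 : ‖(1:ℝ)‖ₑ * ((∫⁻ ρ, ‖ρ‖ₑ ∂κ) * ∫⁻ x, ‖x‖ₑ ∂(gaussianReal 0 1)) ≠ ∞ := by
      rw [h1]; exact ENNReal.ofReal_ne_top
    by_contra hne
    rw [not_lt, top_le_iff] at hne
    rw [hne] at h2
    apply h2
    have h3 : ∫⁻ x, ‖x‖ₑ ∂(gaussianReal 0 1) ≠ 0 := by
      intro h4
      rw [lintegral_eq_zero_iff (by fun_prop)] at h4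
      have h5 : ∀ᵐ x ∂(gaussianReal 0 1), x = 0 := by
        filter_upwards [h4] with x hx
        simpa using hx
      have h6 : (gaussianReal 0 1) {(0:ℝ)}ᶜ = 0 := h5
      have h7 : (gaussianReal 0 1) {(0:ℝ)} = 0 := by
        have := nullSingletonClass_gaussianReal (μ := 0) (v := 1) one_ne_zero
        exact measure_singleton 0
      have h8 : (gaussianReal 0 1) (univ : Set ℝ) = 0 := by
        rw [← union_compl_self {(0:ℝ)}]
        exact measure_union_null h7 h6
      simp at h8
    rw [ENNReal.top_mul h3]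
    simp
  obtain ⟨J, hJ⟩ := exists_embed b κ hfin
  obtain ⟨T⟩ := exists_transfer (κ.prod gam)
  refine ⟨T.toContinuousLinearMap.comp J, ?_⟩
  intro s h
  have h1 : ‖J (s, h)‖ = prof f s ‖h‖ := by
    have h2 := hJ s h
    rw [hmom s ‖h‖ (norm_nonneg h)] at h2
    have h3 := congrArg ENNReal.toReal h2
    rw [toReal_enorm, ENNReal.toReal_ofReal] at h3
    · exact h3
    · unfold prof
      split_ifs with h0
      · exact abs_nonneg _
      · apply mul_nonneg (norm_nonneg h)
        have h4 := hp.part_nonneg (s / ‖h‖)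
        have h5 := hp.part_nonneg (-(s / ‖h‖))
        rw [hp.f_even] at h5
        linarith
  rw [← h1]
  simp

end Pool.Agent.Helper31
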