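import Mathlib
import Pool.Agent.Helper31.Profile

open Set Filter Topology MeasureTheory ProbabilityTheory
open scoped Nat unitInterval ENNReal NNReal

namespace Pool.Agent.Helper31

/-! ### The first profile -/

noncomputable def wX (y : ℝ) : ℝ := √(1 + y ^ 2)

lemma wX_pos (y : ℝ) : 0 < wX y := by unfold wX; positivity

lemma wX_sq (y : ℝ) : wX y ^ 2 = 1 + y ^ 2 := by
  unfold wX; rw [Real.sq_sqrt (by positivity)]

lemma hasDerivAt_wX (y : ℝ) : HasDerivAt wX (y / wX y) y := by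
  have h1 : HasDerivAt (fun y : ℝ => 1 + y ^ 2) (2 * y) y := by
    refine ((hasDerivAt_pow 2 y).const_add 1).congr_deriv ?_
    norm_num
  have h2 := h1.sqrt (by positivity)
  refine h2.congr_deriv ?_
  have := wX_pos y
  unfold wX at *
  field_simp

noncomputable def qX (y : ℝ) : ℝ := 3 / 4 / wX y ^ 5
noncomputable def fX (y : ℝ) : ℝ := (2 * y ^ 2 + 1) / (2 * wX y)
noncomputable def f1X (y : ℝ) : ℝ := y * (2 * y ^ 2 + 3) / (2 * wX y ^ 3)

lemma tendsto_wX : Tendsto wX atTop atTop := by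
  apply tendsto_atTop_mono (f := fun y : ℝ => y) _ tendsto_id
  intro y
  unfold wX
  apply Real.le_sqrt_of_sq_le
  linarith

lemma f1X_eq {y : ℝ} (hy : 0 < y) :
    f1X y = √(1 - 3 / 4 * ((wX y)⁻¹) ^ 4 - 1 / 4 * ((wX y)⁻¹) ^ 6) := by
  have hw := wX_pos y
  have hw2 := wX_sq y
  symm
  rw [Real.sqrt_eq_iff_mul_self_eq_of_pos (by unfold f1X; positivity)]
  unfold f1X
  have e1 : y * (2 * y ^ 2 + 3) / (2 * wX y ^ 3) * (y * (2 * y ^ 2 + 3) / (2 * wX y ^ 3)) =
      (wX y ^ 2 - 1) * (2 * wX y ^ 2 + 1) ^ 2 / (4 * wX y ^ 6) := by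
    rw [hw2]
    have : y ^ 2 = 1 + y ^ 2 - 1 := by ring
    field_simp
    ring
  rw [e1]
  field_simp
  ring

lemma profX : Profile qX fX f1X where
  q_meas := by unfold qX wX; fun_prop
  q_nonneg y := by have := wX_pos y; unfold qX; positivity
  q_even y := by simp [qX, wX]
  f_even y := by simp [fX, wX]
  hf y := by
    have hw := wX_pos y
    have hw2 := wX_sq y
    have h1 : HasDerivAt (fun y : ℝ => 2 * y ^ 2 + 1) (4 * y) y := by
      refine (((hasDerivAt_pow 2 y).const_mul 2).add_const 1).congr_deriv ?_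
      norm_num
      ring
    have h2 := h1.div ((hasDerivAt_wX y).const_mul 2) (by positivity)
    refine h2.congr_deriv ?_
    unfold f1X
    field_simp
    rw [hw2]
    ring
  hf1 y := by
    have hw := wX_pos y
    have hw2 := wX_sq y
    have h1 : HasDerivAt (fun y : ℝ => y * (2 * y ^ 2 + 3)) (6 * y ^ 2 + 3) y := by
      have h0 : HasDerivAt (fun y : ℝ => 2 * y ^ 2 + 3) (4 * y) y := by
        refine (((hasDerivAt_pow 2 y).const_mul 2).add_const 3).congr_deriv ?_
        norm_num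
        ring
      refine ((hasDerivAt_id y).mul h0).congr_deriv ?_
      simp
      ring
    have h2 := h1.div (((hasDerivAt_wX y).pow 3).const_mul 2) (by
      simp only [Pi.pow_apply]; positivity)
    refine h2.congr_deriv ?_
    unfold qX
    simp only [Pi.pow_apply]
    field_simp
    push_cast
    have e4 : wX y ^ 4 = (1 + y ^ 2) ^ 2 := by rw [← hw2]; ring
    ring_nf
    ring_nf at hw2
    rw [hw2]
    linear_combination (24 * y ^ 2 + 12) * e4
  f1_zero := by simp [f1X]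
  f1_lim := by
    have h0 : Tendsto (fun y => (wX y)⁻¹) atTop (𝓝 0) := tendsto_inv_atTop_zero.comp tendsto_wX
    have h1 : Tendsto (fun y => √(1 - 3 / 4 * ((wX y)⁻¹) ^ 4 - 1 / 4 * ((wX y)⁻¹) ^ 6)) atTop
        (𝓝 (√(1 - 3 / 4 * 0 ^ 4 - 1 / 4 * 0 ^ 6))) := by
      apply Filter.Tendsto.sqrt
      exact (tendsto_const_nhds.sub ((h0.pow 4).const_mul _)).sub ((h0.pow 6).const_mul _)
    have e1 : √(1 - 3 / 4 * 0 ^ 4 - 1 / 4 * 0 ^ 6 : ℝ) = 1 := by norm_num
    rw [e1] at h1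
    refine h1.congr' ?_
    filter_upwards [eventually_gt_atTop 0] with y hy
    exact (f1X_eq hy).symm
  h_lim := by
    have h0 : Tendsto (fun y => (wX y)⁻¹) atTop (𝓝 0) := tendsto_inv_atTop_zero.comp tendsto_wX
    have h1 : Tendsto (fun y => 1 / 2 * (wX y)⁻¹ ^ 3) atTop (𝓝 (1 / 2 * 0 ^ 3)) :=
      (h0.pow 3).const_mul _
    have e1 : (1 / 2 * 0 ^ 3 : ℝ) = 0 := by norm_num
    rw [e1] at h1
    refine h1.congr ?_
    intro y
    have hw := wX_pos y
    have hw2 := wX_sq y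
    unfold fX f1X
    field_simp
    rw [hw2]
    ring

/-! ### Completely monotone chains from a closed family -/

lemma chain_of_closed (S : Set (ℝ → ℝ))
    (hS : ∀ G ∈ S, (∀ x, 0 < x → 0 ≤ G x) ∧ ∃ G' ∈ S, ∀ x, 0 < x → HasDerivAt G (-(G' x)) x)
    {F : ℝ → ℝ} (hF : F ∈ S) : ∃ Fc : ℕ → ℝ → ℝ, CMChain Fc ∧ Fc 0 = F := by
  have h1 : ∀ G : S, ∃ G' : S, ∀ x, 0 < x → HasDerivAt (G : ℝ → ℝ) (-((G' : ℝ → ℝ) x)) x := by
    intro G
    obtain ⟨-, G', hG', h⟩ := hS G G.2
    exact ⟨⟨G', hG'⟩, h⟩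
  choose D hD using h1
  let Fc : ℕ → S := fun n => D^[n] ⟨F, hF⟩
  refine ⟨fun n => (Fc n : ℝ → ℝ), ⟨?_, ?_⟩, rfl⟩
  · intro n x hx
    exact (hS _ (Fc n).2).1 x hx
  · intro n x hx
    have h2 : Fc (n + 1) = D (Fc n) := Function.iterate_succ_apply' D n _
    rw [h2]
    exact hD _ x hx

lemma chainX : ∃ Fc : ℕ → ℝ → ℝ, CMChain Fc ∧ Fc 0 = fun v => 3 / 4 / (√(1 + v)) ^ 5 := by
  apply chain_of_closed {G | ∃ (c : ℝ) (k : ℕ), 0 ≤ c ∧ G = fun v => c / (√(1 + v)) ^ k}
  · rintro G ⟨c, k, hc, rfl⟩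
    refine ⟨fun x hx => by positivity, fun v => (c * k / 2) / (√(1 + v)) ^ (k + 2),
      ⟨c * k / 2, k + 2, by positivity, rfl⟩, ?_⟩
    intro x hx
    have h1 : HasDerivAt (fun v : ℝ => 1 + v) 1 x := (hasDerivAt_id x).const_add 1
    have h2 := h1.sqrt (by positivity)
    have hpos : 0 < √(1 + x) := by positivity
    have h3 := (hasDerivAt_const x c).div (h2.pow k) (by
      simp only [Pi.pow_apply]; positivity)
    refine h3.congr_deriv ?_
    simp only [Pi.pow_apply]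
    rcases k with _ | k
    · simp
    · simp only [Nat.add_sub_cancel]
      push_cast
      field_simp
      ring
  · exact ⟨3 / 4, 5, by norm_num, rfl⟩

/-! ### The dual profile -/

noncomputable def sv (y : ℝ) : ℝ := √2 * Real.sinh (Real.arsinh (y / √2) / 3)

lemma sv_cubic (y : ℝ) : 2 * sv y ^ 3 + 3 * sv y = y := by
  unfold sv
  set θ := Real.arsinh (y / √2) / 3 with hθ
  have h1 : Real.sinh (3 * θ) = y / √2 := by
    rw [hθ, mul_div_cancel₀ _ (by norm_num : (3:ℝ) ≠ 0), Real.sinh_arsinh]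
  rw [Real.sinh_three_mul] at h1
  have h2 : (√2 : ℝ) ^ 2 = 2 := Real.sq_sqrt (by norm_num)
  have h3 : (√2 : ℝ) ≠ 0 := by positivity
  have h4 : 4 * Real.sinh θ ^ 3 + 3 * Real.sinh θ = y / √2 := h1
  have h5 : y = √2 * (4 * Real.sinh θ ^ 3 + 3 * Real.sinh θ) := by
    rw [h4]; field_simp
  have h6 : (√2 : ℝ) ^ 3 = 2 * √2 := by
    calc (√2 : ℝ) ^ 3 = (√2) ^ 2 * √2 := by ring
      _ = 2 * √2 := by rw [h2]
  rw [h5]
  rw [mul_pow, h6]
  ring

lemma sv_neg (y : ℝ) : sv (-y) = -sv y := by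
  unfold sv
  rw [neg_div, Real.arsinh_neg, neg_div, Real.sinh_neg]
  ring

lemma hasDerivAt_sv (y : ℝ) : HasDerivAt sv (1 / (6 * sv y ^ 2 + 3)) y := by
  have h1 : DifferentiableAt ℝ sv y := by
    unfold sv
    have : DifferentiableAt ℝ (fun y : ℝ => Real.arsinh (y / √2) / 3) y := by
      apply DifferentiableAt.div_const
      apply Real.differentiable_arsinh.differentiableAt.comp
      exact differentiableAt_id.div_const _
    exact (Real.differentiable_sinh.differentiableAt.comp y this).const_mul _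
  have h2 := h1.hasDerivAt
  set d := deriv sv y with hd
  have h3 : HasDerivAt (fun y => 2 * sv y ^ 3 + 3 * sv y) (2 * (3 * sv y ^ 2 * d) + 3 * d) y := by
    refine (((h2.pow 3).const_mul 2).add (h2.const_mul 3)).congr_deriv ?_
    norm_num
  have h4 : (fun y => 2 * sv y ^ 3 + 3 * sv y) = fun y => y := funext sv_cubic
  rw [h4] at h3
  have h5 := h3.unique (hasDerivAt_id y)
  have h6 : d = 1 / (6 * sv y ^ 2 + 3) := by
    rw [eq_div_iff (by positivity)]
    linarith
  rw [← h6]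
  exact h2

lemma sv_pos {y : ℝ} (hy : 0 < y) : 0 < sv y := by
  unfold sv
  have : 0 < Real.arsinh (y / √2) := by
    rw [Real.arsinh_pos_iff]; positivity
  have h2 : 0 < Real.sinh (Real.arsinh (y / √2) / 3) := by
    rw [Real.sinh_pos_iff]; positivity
  positivity

lemma tendsto_sv : Tendsto sv atTop atTop := by
  rw [tendsto_atTop]
  intro b
  filter_upwards [eventually_ge_atTop (2 * |b| ^ 3 + 3 * |b|), eventually_gt_atTop 0] with y hy hy0
  by_contra hlt
  push Not at hlt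
  have h1 := sv_cubic y
  have h2 := sv_pos hy0
  have h3 : sv y < |b| := lt_of_lt_of_le hlt (le_abs_self b)
  have h4 : sv y ^ 3 < |b| ^ 3 := by gcongr
  linarith

noncomputable def wS (y : ℝ) : ℝ := √(1 + sv y ^ 2)

lemma wS_pos (y : ℝ) : 0 < wS y := by unfold wS; positivity

lemma wS_sq (y : ℝ) : wS y ^ 2 = 1 + sv y ^ 2 := by
  unfold wS; rw [Real.sq_sqrt (by positivity)]

lemma hasDerivAt_wS (y : ℝ) : HasDerivAt wS (sv y / (wS y * (6 * sv y ^ 2 + 3))) y := by
  have h1 : HasDerivAt (fun y : ℝ => 1 + sv y ^ 2) (2 * sv y * (1 / (6 * sv y ^ 2 + 3))) y := by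
    refine (((hasDerivAt_sv y).pow 2).const_add 1).congr_deriv ?_
    norm_num
  have h2 := h1.sqrt (by positivity)
  refine h2.congr_deriv ?_
  have := wS_pos y
  unfold wS at *
  field_simp

noncomputable def qS (y : ℝ) : ℝ := 1 / 3 / (wS y * (1 + 2 * sv y ^ 2) ^ 3)
noncomputable def fS (y : ℝ) : ℝ := 2 * wS y ^ 3
noncomputable def f1S (y : ℝ) : ℝ := 2 * sv y * wS y / (1 + 2 * sv y ^ 2)

lemma f1S_eq {y : ℝ} (hy : 0 < y) : f1S y = √(1 - ((1 + 2 * sv y ^ 2)⁻¹) ^ 2) := by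
  have hw := wS_pos y
  have hs := sv_pos hy
  have hw2 := wS_sq y
  symm
  rw [Real.sqrt_eq_iff_mul_self_eq_of_pos (by unfold f1S; positivity)]
  unfold f1S
  have e1 : 2 * sv y * wS y / (1 + 2 * sv y ^ 2) * (2 * sv y * wS y / (1 + 2 * sv y ^ 2)) =
      4 * sv y ^ 2 * wS y ^ 2 / (1 + 2 * sv y ^ 2) ^ 2 := by
    field_simp
    ring
  rw [e1, hw2]
  field_simp
  ring

lemma tendsto_sv2 : Tendsto (fun y => (1 + 2 * sv y ^ 2)⁻¹) atTop (𝓝 0) := by
  apply tendsto_inv_atTop_zero.comp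
  apply tendsto_atTop_mono (f := fun y => sv y) _ tendsto_sv
  intro y
  nlinarith [sq_nonneg (sv y - 1)]

lemma measurable_sv : Measurable sv := by
  have : Continuous sv := continuous_iff_continuousAt.2 fun y => (hasDerivAt_sv y).continuousAt
  exact this.measurable

lemma profS : Profile qS fS f1S where
  q_meas := by
    have := measurable_sv
    unfold qS wS; fun_prop
  q_nonneg y := by have := wS_pos y; unfold qS; positivity
  q_even y := by simp [qS, wS, sv_neg]
  f_even y := by simp [fS, wS, sv_neg]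
  hf y := by
    have hw := wS_pos y
    have hw2 := wS_sq y
    have h2 := ((hasDerivAt_wS y).pow 3).const_mul 2
    refine h2.congr_deriv ?_
    unfold f1S
    push_cast
    field_simp
    ring
  hf1 y := by
    have hw := wS_pos y
    have hw2 := wS_sq y
    have h1 : HasDerivAt (fun y : ℝ => 2 * sv y * wS y)
        (2 * (1 / (6 * sv y ^ 2 + 3)) * wS y + 2 * sv y * (sv y / (wS y * (6 * sv y ^ 2 + 3)))) y :=
      ((hasDerivAt_sv y).const_mul 2).mul (hasDerivAt_wS y)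
    have h3 : HasDerivAt (fun y : ℝ => 1 + 2 * sv y ^ 2) (4 * sv y * (1 / (6 * sv y ^ 2 + 3))) y := by
      refine ((((hasDerivAt_sv y).pow 2).const_mul 2).const_add 1).congr_deriv ?_
      push_cast
      ring
    have h2 := h1.div h3 (by positivity)
    refine h2.congr_deriv ?_
    unfold qS
    field_simp
    rw [hw2]
    ring
  f1_zero := by
    have : sv 0 = 0 := by
      have := sv_neg 0
      rw [neg_zero] at this
      linarith
    simp [f1S, this]
  f1_lim := by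
    have h1 : Tendsto (fun y => √(1 - ((1 + 2 * sv y ^ 2)⁻¹) ^ 2)) atTop (𝓝 (√(1 - 0 ^ 2))) := by
      apply Filter.Tendsto.sqrt
      exact tendsto_const_nhds.sub (tendsto_sv2.pow 2)
    have e1 : √(1 - 0 ^ 2 : ℝ) = 1 := by norm_num
    rw [e1] at h1
    refine h1.congr' ?_
    filter_upwards [eventually_gt_atTop 0] with y hy
    exact (f1S_eq hy).symm
  h_lim := by
    have h0 : Tendsto wS atTop atTop := by
      apply tendsto_atTop_mono (f := fun y => sv y) _ tendsto_sv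
      intro y
      unfold wS
      apply Real.le_sqrt_of_sq_le
      linarith
    have h1 : Tendsto (fun y => 2 * (wS y)⁻¹) atTop (𝓝 (2 * 0)) :=
      (tendsto_inv_atTop_zero.comp h0).const_mul 2
    rw [mul_zero] at h1
    have e1 : ∀ y, fS y - y * f1S y = 2 * wS y / (1 + 2 * sv y ^ 2) := by
      intro y
      have hw2 := wS_sq y
      have h3 := sv_cubic y
      unfold fS f1S
      have e2 : 2 * wS y ^ 3 - y * (2 * sv y * wS y / (1 + 2 * sv y ^ 2)) =
          2 * wS y * (wS y ^ 2 - y * sv y / (1 + 2 * sv y ^ 2)) := by ring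
      rw [e2, hw2]
      nth_rw 3 [← h3]
      field_simp
      ring
    apply squeeze_zero _ _ h1
    · intro y
      rw [e1]
      have := wS_pos y
      positivity
    · intro y
      rw [e1]
      have hw := wS_pos y
      have hw2 := wS_sq y
      rw [div_le_iff₀ (by positivity)]
      have e3 : 2 * wS y = 2 * (wS y)⁻¹ * wS y ^ 2 := by field_simp
      rw [e3, hw2]
      gcongr
      nlinarith [sq_nonneg (sv y)]

/-! ### Complete monotonicity of the dual profile -/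

/-- `U v` solves `U (2 U + 3)² = v`. -/
noncomputable def Uv (v : ℝ) : ℝ := sv (√v) ^ 2

lemma Uv_nonneg (v : ℝ) : 0 ≤ Uv v := sq_nonneg _

lemma hasDerivAt_Uv {v : ℝ} (hv : 0 < v) :
    HasDerivAt Uv (1 / (3 * (1 + 2 * Uv v) * (3 + 2 * Uv v))) v := by
  have h1 := Real.hasDerivAt_sqrt hv.ne'
  have h2 := ((hasDerivAt_sv (√v)).comp v h1).pow 2
  refine h2.congr_deriv ?_
  have hs : 0 < √v := Real.sqrt_pos.2 hv
  have hsv := sv_pos hs
  have h3 := sv_cubic (√v)
  unfold Uv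
  simp only [Function.comp_apply]
  rw [← h3]
  rw [h3]
  have h4 : √v = sv (√v) * (2 * sv (√v) ^ 2 + 3) := by
    rw [mul_add]; linarith
  push_cast
  rw [show (2 : ℝ) * √v = 2 * (sv (√v) * (2 * sv (√v) ^ 2 + 3)) by rw [← h4]]
  field_simp
  ring

noncomputable def mono (c : ℝ) (a b d : ℕ) (v : ℝ) : ℝ :=
  c / ((√(1 + Uv v)) ^ a * (1 + 2 * Uv v) ^ b * (3 + 2 * Uv v) ^ d)

lemma hasDerivAt_mono (c : ℝ) (a b d : ℕ) {v : ℝ} (hv : 0 < v) :
    HasDerivAt (mono c a b d)
      (-(mono (c * a / 6) (a + 2) (b + 1) (d + 1) v + mono (2 * c * b / 3) a (b + 2) (d + 1) v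
        + mono (2 * c * d / 3) a (b + 1) (d + 2) v)) v := by
  have hU := Uv_nonneg v
  have hdU := hasDerivAt_Uv hv
  set u' := 1 / (3 * (1 + 2 * Uv v) * (3 + 2 * Uv v)) with hu'
  have h1 : HasDerivAt (fun v => √(1 + Uv v)) (u' / (2 * √(1 + Uv v))) v :=
    (hdU.const_add 1).sqrt (by positivity)
  have h2 : HasDerivAt (fun v => 1 + 2 * Uv v) (2 * u') v := (hdU.const_mul 2).const_add 1
  have h3 : HasDerivAt (fun v => 3 + 2 * Uv v) (2 * u') v := (hdU.const_mul 2).const_add 3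
  have hp : 0 < √(1 + Uv v) := by positivity
  have h4 := ((h1.pow a).mul (h2.pow b)).mul (h3.pow d)
  have h5 := (hasDerivAt_const v c).div h4 (by
    simp only [Pi.pow_apply, Pi.mul_apply]; positivity)
  refine h5.congr_deriv ?_
  simp only [Pi.pow_apply, Pi.mul_apply]
  unfold mono
  have hp2 : √(1 + Uv v) ^ 2 = 1 + Uv v := Real.sq_sqrt (by positivity)
  generalize √(1 + Uv v) = p at *
  have hA : 0 < 1 + 2 * Uv v := by positivity
  have hB : 0 < 3 + 2 * Uv v := by positivity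
  rw [hu']
  generalize 1 + 2 * Uv v = A at *
  generalize 3 + 2 * Uv v = B at *
  rcases a with _ | a <;> rcases b with _ | b <;> rcases d with _ | d <;>
    simp only [Nat.add_sub_cancel, Nat.cast_zero, zero_add, pow_zero] <;> push_cast <;>
    field_simp <;> ring

lemma chainS : ∃ Fc : ℕ → ℝ → ℝ, CMChain Fc ∧ Fc 0 = mono (1 / 3) 1 3 0 := by
  apply chain_of_closed (AddSubmonoid.closure
    {G | ∃ (c : ℝ) (a b d : ℕ), 0 ≤ c ∧ G = mono c a b d} : Set (ℝ → ℝ))
  · intro G hG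
    induction hG using AddSubmonoid.closure_induction with
    | mem G hG =>
      obtain ⟨c, a, b, d, hc, rfl⟩ := hG
      refine ⟨fun x _ => ?_, mono (c * a / 6) (a + 2) (b + 1) (d + 1) +
        mono (2 * c * b / 3) a (b + 2) (d + 1) + mono (2 * c * d / 3) a (b + 1) (d + 2), ?_, ?_⟩
      · have := Uv_nonneg x
        unfold mono
        positivity
      · apply AddSubmonoid.add_mem
        · apply AddSubmonoid.add_mem
          · exact AddSubmonoid.subset_closure ⟨_, _, _, _, by positivity, rfl⟩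
          · exact AddSubmonoid.subset_closure ⟨_, _, _, _, by positivity, rfl⟩
        · exact AddSubmonoid.subset_closure ⟨_, _, _, _, by positivity, rfl⟩
      · intro x hx
        exact hasDerivAt_mono c a b d hx
    | zero =>
      refine ⟨fun x _ => le_refl _, 0, AddSubmonoid.zero_mem _, fun x _ => ?_⟩
      have : HasDerivAt (fun _ : ℝ => (0:ℝ)) 0 x := hasDerivAt_const x 0
      exact this.congr_deriv (by simp)
    | add G₁ G₂ _ _ h₁ h₂ =>
      obtain ⟨n₁, D₁, hD₁, hd₁⟩ := h₁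
      obtain ⟨n₂, D₂, hD₂, hd₂⟩ := h₂
      refine ⟨fun x hx => add_nonneg (n₁ x hx) (n₂ x hx), D₁ + D₂,
        AddSubmonoid.add_mem _ hD₁ hD₂, fun x hx => ?_⟩
      refine ((hd₁ x hx).add (hd₂ x hx)).congr_deriv ?_
      simp only [Pi.add_apply]
      ring
  · exact AddSubmonoid.subset_closure ⟨_, _, _, _, by norm_num, rfl⟩

lemma qX_eq (y : ℝ) : qX y = 3 / 4 / (√(1 + y ^ 2)) ^ 5 := rfl

lemma qS_eq (y : ℝ) : qS y = mono (1 / 3) 1 3 0 (y ^ 2) := by
  have h1 : Uv (y ^ 2) = sv y ^ 2 := by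
    unfold Uv
    rw [Real.sqrt_sq_eq_abs]
    rcases le_total 0 y with h | h
    · rw [abs_of_nonneg h]
    · rw [abs_of_nonpos h, sv_neg]; ring
  unfold qS mono wS
  rw [h1]
  simp

lemma boundX (x : ℝ) (hx : 0 < x) : 3 / 4 / (√(1 + x)) ^ 5 ≤ 3 / 4 := by
  apply div_le_self (by norm_num)
  apply one_le_pow₀
  rw [Real.one_le_sqrt]
  linarith

lemma boundS (x : ℝ) : mono (1 / 3) 1 3 0 x ≤ 1 / 3 := by
  have hU := Uv_nonneg x
  unfold mono
  apply div_le_self (by norm_num)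
  have h1 : 1 ≤ √(1 + Uv x) := by
    rw [Real.one_le_sqrt]; linarith
  have h2 : 1 ≤ 1 + 2 * Uv x := by linarith
  have h3 : 1 ≤ (1 + 2 * Uv x) ^ 3 := one_le_pow₀ h2
  simp only [pow_one, pow_zero, mul_one]
  nlinarith

/-! ### The two embeddings -/

section

variable {H : Type*} [NormedAddCommGroup H] [InnerProductSpace ℝ H] (b : HilbertBasis ℕ ℝ H)

include b in
theorem embedX : ∃ J : ℝ × H →L[ℝ] Lp ℝ 1 ((volume : Measure ℝ).restrict (Icc (0:ℝ) 1)),
    ∀ s h, ‖J (s, h)‖ = prof fX s ‖h‖ := by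
  obtain ⟨Fc, hFc, h0⟩ := chainX
  refine profX.embed hFc (C := 3 / 4) ?_ ?_ b
  · intro x hx; rw [h0]; exact boundX x hx
  · intro y; rw [h0]; exact qX_eq y

include b in
theorem embedS : ∃ J : ℝ × H →L[ℝ] Lp ℝ 1 ((volume : Measure ℝ).restrict (Icc (0:ℝ) 1)),
    ∀ s h, ‖J (s, h)‖ = prof fS s ‖h‖ := by
  obtain ⟨Fc, hFc, h0⟩ := chainS
  refine profS.embed hFc (C := 1 / 3) ?_ ?_ b
  · intro x _; rw [h0]; exact boundS x
  · intro y; rw [h0]; exact qS_eq y

end

end Pool.Agent.Helper31
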