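import Pool.Agent.Helper31.Arr

set_option autoImplicit false
set_option maxSynthPendingDepth 3

open Filter Topology

namespace Pool.Agent.Helper31.Renorm

variable {𝕜 : Type*} [RCLike 𝕜]

/-- a fixed free ultrafilter on `ℕ` -/
noncomputable abbrev UU : Ultrafilter ℕ := hyperfilter ℕ

theorem eventually_ge (m : ℕ) : ∀ᶠ n in (UU : Filter ℕ), m ≤ n := by
  have h : (UU : Filter ℕ) ≤ atTop := by
    have := hyperfilter_le_cofinite (α := ℕ)
    rwa [Nat.cofinite_eq_atTop] at this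
  exact h (eventually_ge_atTop m)

/-- Bounded sequences in a dual space converge weak-star along the ultrafilter. -/
theorem exists_wlim {E : Type*} [NormedAddCommGroup E] [NormedSpace 𝕜 E]
    (g : ℕ → StrongDual 𝕜 E) {C : ℝ} (hg : ∀ n, ‖g n‖ ≤ C) :
    ∃ h : StrongDual 𝕜 E, ‖h‖ ≤ C ∧ ∀ e, Tendsto (fun n => g n e) UU (𝓝 (h e)) := by
  have hcomp := WeakDual.isCompact_closedBall (𝕜 := 𝕜) (0 : StrongDual 𝕜 E) C
  have hmem : ∀ᶠ n in (UU : Filter ℕ), (StrongDual.toWeakDual (g n)) ∈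
      WeakDual.toStrongDual ⁻¹' Metric.closedBall (0 : StrongDual 𝕜 E) C := by
    refine Eventually.of_forall fun n => ?_
    change g n ∈ Metric.closedBall (0 : StrongDual 𝕜 E) C
    rw [mem_closedBall_zero_iff]
    exact hg n
  obtain ⟨h, hh, hlim⟩ := (isCompact_iff_ultrafilter_le_nhds.1 hcomp)
    (UU.map (fun n => StrongDual.toWeakDual (g n))) (by
      rw [le_principal_iff]
      exact hmem)
  refine ⟨WeakDual.toStrongDual h, ?_, fun e => ?_⟩
  · have : WeakDual.toStrongDual h ∈ Metric.closedBall (0 : StrongDual 𝕜 E) C := hh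
    rwa [mem_closedBall_zero_iff] at this
  · have h1 : Tendsto (fun n => StrongDual.toWeakDual (g n)) (UU : Filter ℕ) (𝓝 h) := hlim
    have h2 := (WeakDual.eval_continuous (𝕜 := 𝕜) (E := E) e).tendsto h
    exact h2.comp h1

section

variable {X : Type*} [NormedAddCommGroup X] [NormedSpace 𝕜 X]

/-- the array with weak-star null functionals -/
theorem exists_array_null [CompleteSpace X]
    (h : ¬ FiniteDimensional 𝕜
      (StrongDual 𝕜 (StrongDual 𝕜 X) ⧸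
        (LinearMap.range (NormedSpace.inclusionInDoubleDual 𝕜 X).toLinearMap))) :
    ∃ (x : ℕ → ℕ → X) (f : ℕ → ℕ → StrongDual 𝕜 X), (∀ s m, ‖x s m‖ ≤ 4) ∧
      (∀ s n, ‖f s n‖ ≤ 8) ∧
      (∀ s n t m, f s n (x t m) = if s = t ∧ n ≤ m then 1 else 0) ∧
      ∀ s y, Tendsto (fun n => f s n y) UU (𝓝 0) := by
  obtain ⟨x, f, hx, hf, hfx⟩ := Arr.exists_array h
  have hex : ∀ s, ∃ g : StrongDual 𝕜 X, ‖g‖ ≤ 4 ∧ ∀ e, Tendsto (fun n => f s n e) UU (𝓝 (g e)) :=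
    fun s => exists_wlim (f s) (hf s)
  choose g hg1 hg2 using hex
  have hgx : ∀ s t m, g s (x t m) = 0 := by
    intro s t m
    refine tendsto_nhds_unique (hg2 s (x t m)) ?_
    refine tendsto_const_nhds.congr' ?_
    filter_upwards [eventually_ge (m + 1)] with n hn
    rw [hfx, if_neg (fun hc => absurd hc.2 (by omega))]
  refine ⟨x, fun s n => f s n - g s, hx, ?_, ?_, ?_⟩
  · intro s n
    calc ‖f s n - g s‖ ≤ ‖f s n‖ + ‖g s‖ := norm_sub_le _ _
      _ ≤ 8 := by linarith [hf s n, hg1 s]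
  · intro s n t m
    change f s n (x t m) - g s (x t m) = _
    rw [hgx, sub_zero, hfx]
  · intro s y
    have h1 := (hg2 s y).sub_const (g s y)
    rw [sub_self] at h1
    exact h1

/-- the node at height `i` on the branch `k`, coded as a natural number -/
def node (k : ℕ → ℕ) (i : ℕ) : ℕ := Encodable.encode ((List.range i).map k)

theorem node_inj {k k' : ℕ → ℕ} {i i' : ℕ} (h : node k i = node k' i') :
    i = i' ∧ ∀ j < i, k j = k' j := by
  have h1 : (List.range i).map k = (List.range i').map k' := Encodable.encode_injective h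
  have h2 : i = i' := by
    have := congrArg List.length h1
    simpa using this
  subst h2
  refine ⟨rfl, fun j hj => ?_⟩
  have h3 := List.map_inj_left.1 h1
  exact h3 j (List.mem_range.2 hj)

theorem node_congr {k k' : ℕ → ℕ} {i : ℕ} (h : ∀ j < i, k j = k' j) : node k i = node k' i := by
  unfold node
  congr 1
  exact List.map_congr_left fun j hj => h j (List.mem_range.1 hj)

/-- the unit ball of the new dual norm -/
def GG (x : ℕ → ℕ → X) (D : ℕ) (K : ℝ) : Set (StrongDual 𝕜 X) :=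
  {g | ‖g‖ ≤ K ∧ ∀ (k : ℕ → ℕ) (m : ℕ), (∀ i < D, k i ≤ m) →
    ∑ i ∈ Finset.range D, ‖g (x (node k i) m - x (node k i) (k i))‖ ≤ 1}

theorem zero_mem_GG (x : ℕ → ℕ → X) (D : ℕ) {K : ℝ} (hK : 0 ≤ K) :
    (0 : StrongDual 𝕜 X) ∈ GG x D K := by
  refine ⟨by simpa using hK, fun k m _ => ?_⟩
  simp

/-- the new norm -/
noncomputable def newNorm (x : ℕ → ℕ → X) (D : ℕ) (K : ℝ) (y : X) : ℝ :=
  ⨆ g : (GG (𝕜 := 𝕜) x D K), ‖g.1 y‖

theorem bdd (x : ℕ → ℕ → X) (D : ℕ) (K : ℝ) (y : X) :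
    BddAbove (Set.range fun g : (GG (𝕜 := 𝕜) x D K) => ‖g.1 y‖) := by
  refine ⟨K * ‖y‖, ?_⟩
  rintro _ ⟨g, rfl⟩
  calc ‖g.1 y‖ ≤ ‖g.1‖ * ‖y‖ := g.1.le_opNorm y
    _ ≤ K * ‖y‖ := by gcongr; exact g.2.1

theorem le_newNorm {x : ℕ → ℕ → X} {D : ℕ} {K : ℝ} {g : StrongDual 𝕜 X} (hg : g ∈ GG x D K)
    (y : X) : ‖g y‖ ≤ newNorm (𝕜 := 𝕜) x D K y :=
  le_ciSup (bdd (𝕜 := 𝕜) x D K y) ⟨g, hg⟩

theorem newNorm_le {x : ℕ → ℕ → X} {D : ℕ} {K : ℝ} (hK : 0 ≤ K) {y : X} {r : ℝ}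
    (h : ∀ g ∈ GG (𝕜 := 𝕜) x D K, ‖g y‖ ≤ r) : newNorm (𝕜 := 𝕜) x D K y ≤ r := by
  have : Nonempty (GG (𝕜 := 𝕜) x D K) := ⟨⟨0, zero_mem_GG x D hK⟩⟩
  exact ciSup_le fun g => h g.1 g.2

/-- the new norm as a seminorm -/
noncomputable def newSeminorm (x : ℕ → ℕ → X) (D : ℕ) {K : ℝ} (hK : 0 ≤ K) : Seminorm 𝕜 X :=
  Seminorm.of (newNorm (𝕜 := 𝕜) x D K)
    (by
      intro a b
      refine newNorm_le hK fun g hg => ?_
      rw [map_add]
      exact (norm_add_le _ _).trans (add_le_add (le_newNorm hg a) (le_newNorm hg b)))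
    (by
      intro c a
      have h1 : ∀ g : (GG (𝕜 := 𝕜) x D K), ‖g.1 (c • a)‖ = ‖c‖ * ‖g.1 a‖ := by
        intro g
        rw [map_smul, norm_smul]
      unfold newNorm
      simp_rw [h1]
      exact (Real.mul_iSup_of_nonneg (norm_nonneg c) _).symm)

theorem newSeminorm_apply (x : ℕ → ℕ → X) (D : ℕ) {K : ℝ} (hK : 0 ≤ K) (y : X) :
    newSeminorm (𝕜 := 𝕜) x D hK y = newNorm (𝕜 := 𝕜) x D K y := rfl

theorem newNorm_le_mul (x : ℕ → ℕ → X) (D : ℕ) {K : ℝ} (hK : 0 ≤ K) (y : X) :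
    newNorm (𝕜 := 𝕜) x D K y ≤ K * ‖y‖ := by
  refine newNorm_le hK fun g hg => ?_
  calc ‖g y‖ ≤ ‖g‖ * ‖y‖ := g.le_opNorm y
    _ ≤ K * ‖y‖ := by gcongr; exact hg.1

theorem mul_le_newNorm {x : ℕ → ℕ → X} (hx : ∀ s m, ‖x s m‖ ≤ 4) (D : ℕ) {K : ℝ} (hK : 1 ≤ K)
    (y : X) : (8 * (D : ℝ) + 1)⁻¹ * ‖y‖ ≤ newNorm (𝕜 := 𝕜) x D K y := by
  obtain ⟨g, hg1, hg2⟩ := exists_dual_vector'' 𝕜 y
  have hc : (0 : ℝ) < 8 * (D : ℝ) + 1 := by positivity
  set c : 𝕜 := (((8 * (D : ℝ) + 1)⁻¹ : ℝ) : 𝕜) with hcdef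
  have hcn : ‖c‖ = (8 * (D : ℝ) + 1)⁻¹ := by
    rw [hcdef, RCLike.norm_ofReal, abs_of_pos (inv_pos.2 hc)]
  have hc1 : (8 * (D : ℝ) + 1)⁻¹ ≤ 1 := by
    rw [inv_le_comm₀ hc one_pos, inv_one]
    have : (0 : ℝ) ≤ D := Nat.cast_nonneg D
    linarith
  have hmem : c • g ∈ GG x D K := by
    refine ⟨?_, fun k m _ => ?_⟩
    · rw [norm_smul, hcn]
      calc (8 * (D : ℝ) + 1)⁻¹ * ‖g‖ ≤ 1 * 1 := by gcongr
        _ ≤ K := by linarith
    · have h1 : ∀ i ∈ Finset.range D,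
          ‖(c • g) (x (node k i) m - x (node k i) (k i))‖ ≤ (8 * (D : ℝ) + 1)⁻¹ * 8 := by
        intro i _
        change ‖c • g (x (node k i) m - x (node k i) (k i))‖ ≤ _
        rw [norm_smul, hcn]
        gcongr
        calc ‖g (x (node k i) m - x (node k i) (k i))‖
            ≤ ‖g‖ * ‖x (node k i) m - x (node k i) (k i)‖ := g.le_opNorm _
          _ ≤ 1 * 8 := by
            gcongr
            calc _ ≤ ‖x (node k i) m‖ + ‖x (node k i) (k i)‖ := norm_sub_le _ _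
              _ ≤ 8 := by linarith [hx (node k i) m, hx (node k i) (k i)]
          _ = 8 := by ring
      calc _ ≤ ∑ i ∈ Finset.range D, (8 * (D : ℝ) + 1)⁻¹ * 8 := Finset.sum_le_sum h1
        _ = (8 * (D : ℝ)) * (8 * (D : ℝ) + 1)⁻¹ := by
          rw [Finset.sum_const, Finset.card_range, nsmul_eq_mul]; ring
        _ ≤ (8 * (D : ℝ) + 1) * (8 * (D : ℝ) + 1)⁻¹ := by gcongr; linarith
        _ = 1 := mul_inv_cancel₀ hc.ne'
  have h2 := le_newNorm hmem y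
  have h3 : (c • g) y = c * (‖y‖ : 𝕜) := by
    change c • g y = _
    rw [hg2, smul_eq_mul]
  rw [h3, norm_mul, hcn, RCLike.norm_ofReal, abs_of_nonneg (norm_nonneg y)] at h2
  exact h2

/-- choice of signs by backward recursion -/
theorem exists_signs (D : ℕ) (F : ℕ → ℕ → 𝕜) :
    ∃ b : ℕ → 𝕜, ∀ j < D, ‖b j‖ = 1 ∧ 1 ≤ ‖-b j + ∑ i ∈ Finset.Ioo j D, b i * F j i‖ := by
  have key : ∀ d, d ≤ D → ∃ b : ℕ → 𝕜, ∀ j < D, D - d ≤ j → ‖b j‖ = 1 ∧
      1 ≤ ‖-b j + ∑ i ∈ Finset.Ioo j D, b i * F j i‖ := by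
    intro d
    induction d with
    | zero =>
      intro _
      exact ⟨fun _ => 1, fun j hj hj2 => by omega⟩
    | succ d ih =>
      intro hd
      obtain ⟨b, hb⟩ := ih (by omega)
      set j₀ := D - (d + 1) with hj₀
      set c : 𝕜 := ∑ i ∈ Finset.Ioo j₀ D, b i * F j₀ i with hc
      have hβ : ∃ β : 𝕜, ‖β‖ = 1 ∧ 1 ≤ ‖-β + c‖ := by
        rcases eq_or_ne c 0 with h0 | h0
        · exact ⟨1, by simp, by simp [h0]⟩
        · have hn : (‖c‖ : ℝ) ≠ 0 := norm_ne_zero_iff.2 h0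
          have hn' : 0 < ‖c‖ := norm_pos_iff.2 h0
          refine ⟨-(((‖c‖⁻¹ : ℝ) : 𝕜) * c), ?_, ?_⟩
          · rw [norm_neg, norm_mul, RCLike.norm_ofReal, abs_of_pos (inv_pos.2 hn'),
              inv_mul_cancel₀ hn]
          · have h1 : -(-(((‖c‖⁻¹ : ℝ) : 𝕜) * c)) + c = ((‖c‖⁻¹ + 1 : ℝ) : 𝕜) * c := by
              push_cast; ring
            rw [h1, norm_mul, RCLike.norm_ofReal, abs_of_pos (by positivity), add_mul,
              inv_mul_cancel₀ hn]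
            linarith
      obtain ⟨β, hβ1, hβ2⟩ := hβ
      refine ⟨Function.update b j₀ β, ?_⟩
      intro j hj hj2
      have hsum : ∑ i ∈ Finset.Ioo j D, Function.update b j₀ β i * F j i =
          ∑ i ∈ Finset.Ioo j D, b i * F j i := by
        refine Finset.sum_congr rfl fun i hi => ?_
        have : i ≠ j₀ := by
          have := (Finset.mem_Ioo.1 hi).1
          omega
        rw [Function.update_of_ne this]
      rw [hsum]
      rcases Nat.eq_or_lt_of_le hj2 with h | h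
      · have hjj : j = j₀ := by omega
        subst hjj
        rw [Function.update_self]
        exact ⟨hβ1, hβ2⟩
      · have hjj : j ≠ j₀ := by omega
        rw [Function.update_of_ne hjj]
        exact hb j hj (by omega)
  obtain ⟨b, hb⟩ := key D le_rfl
  exact ⟨b, fun j hj => hb j hj (by omega)⟩

end

end Pool.Agent.Helper31.Renorm
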