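import Mathlib

set_option autoImplicit false

namespace Pool.Agent.Helper31.Tree

open Filter Topology

/-- second difference of a function -/
def D2 {Y : Type*} [AddCommGroup Y] (φ : Y → ℝ) (x h : Y) : ℝ := φ (x + h) + φ (x - h) - 2 * φ x

/-- sign attached to a Boolean -/
def sg : Bool → ℝ
  | true => 1
  | false => -1

/-- symmetrised functional -/
def pp {Y : Type*} [AddCommGroup Y] (P : List Bool → Y → ℝ) (s : List Bool) (y : Y) : ℝ :=
  max (P s y) (P s (-y))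

/-- signed version of the functional -/
def QQ {Y : Type*} [AddCommGroup Y] [Module ℝ Y] (P : List Bool → Y → ℝ) (s : List Bool)
    (e : Bool) (y : Y) : ℝ := P s (sg e • y)

/-- sum of the squares of the symmetrised functionals at depth `n` below a node -/
def RR {Y : Type*} [AddCommGroup Y] (P : List Bool → Y → ℝ) : ℕ → List Bool → Y → ℝ
  | 0, s, y => (pp P s y) ^ 2
  | n + 1, s, y => RR P n (false :: s) y + RR P n (true :: s) y

/-- the abstract tree norm structure -/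
structure TreeNorm (Y : Type*) [NormedAddCommGroup Y] [NormedSpace ℝ Y] where
  κ : List Bool → Y →ₗ[ℝ] ℝ
  P : List Bool → Y → ℝ
  P_add : ∀ s x y, P s (x + y) ≤ P s x + P s y
  P_smul : ∀ s (a : ℝ) x, 0 ≤ a → P s (a • x) = a * P s x
  P_rec : ∀ s x, P s x = κ s x + max (max (P (false :: s) x) (P (true :: s) x))
    (2 / 3 * (pp P (false :: s) x + pp P (true :: s) x))
  R_le : ∀ n x, RR P n [] x ≤ ‖x‖ ^ 2
  R_zero : ∀ x, ∀ ε : ℝ, 0 < ε → ∃ N, ∀ n, N ≤ n → RR P n [] x ≤ ε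
  R_att : ∀ x, ∃ n, ‖x‖ ^ 2 ≤ RR P n [] x

variable {Y : Type*} [NormedAddCommGroup Y] [NormedSpace ℝ Y]

namespace TreeNorm

variable (T : TreeNorm Y)

lemma P_zero (s : List Bool) : T.P s 0 = 0 := by
  have := T.P_smul s 0 0 le_rfl
  simpa using this

lemma P_neg_add (s : List Bool) (x : Y) : 0 ≤ T.P s x + T.P s (-x) := by
  have := T.P_add s x (-x)
  rw [add_neg_cancel, T.P_zero] at this
  exact this

lemma P_le_pp (s : List Bool) (x : Y) : T.P s x ≤ pp T.P s x := le_max_left _ _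

lemma P_neg_le_pp (s : List Bool) (x : Y) : T.P s (-x) ≤ pp T.P s x := le_max_right _ _

lemma pp_nonneg (s : List Bool) (x : Y) : 0 ≤ pp T.P s x := by
  have h := T.P_neg_add s x
  have h1 := T.P_le_pp s x
  have h2 := T.P_neg_le_pp s x
  linarith

lemma pp_neg (s : List Bool) (x : Y) : pp T.P s (-x) = pp T.P s x := by
  unfold pp
  rw [neg_neg, max_comm]

lemma neg_pp_le (s : List Bool) (x : Y) : -pp T.P s x ≤ T.P s x := by
  have h := T.P_neg_add s x
  have h2 := T.P_neg_le_pp s x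
  linarith

lemma pp_add (s : List Bool) (x y : Y) : pp T.P s (x + y) ≤ pp T.P s x + pp T.P s y := by
  unfold pp
  apply max_le
  · exact (T.P_add s x y).trans (add_le_add (le_max_left _ _) (le_max_left _ _))
  · rw [neg_add]
    exact (T.P_add s (-x) (-y)).trans (add_le_add (le_max_right _ _) (le_max_right _ _))

lemma P_sub_le (s : List Bool) (x y : Y) : T.P s x - T.P s y ≤ pp T.P s (x - y) := by
  have h := T.P_add s y (x - y)
  rw [add_sub_cancel] at h
  have := T.P_le_pp s (x - y)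
  linarith

lemma pp_smul_nonneg (s : List Bool) (a : ℝ) (ha : 0 ≤ a) (x : Y) :
    pp T.P s (a • x) = a * pp T.P s x := by
  unfold pp
  rw [← smul_neg, T.P_smul s a x ha, T.P_smul s a (-x) ha, mul_max_of_nonneg _ _ ha]

lemma sg_cases (e : Bool) (x : Y) : sg e • x = x ∨ sg e • x = -x := by
  cases e
  · right; simp [sg]
  · left; simp [sg]

lemma pp_sg (s : List Bool) (e : Bool) (x : Y) : pp T.P s (sg e • x) = pp T.P s x := by
  rcases sg_cases e x with h | h
  · rw [h]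
  · rw [h, T.pp_neg]

lemma QQ_le_pp (s : List Bool) (e : Bool) (x : Y) : QQ T.P s e x ≤ pp T.P s x := by
  unfold QQ
  rw [← T.pp_sg s e x]
  exact T.P_le_pp s _

lemma neg_pp_le_QQ (s : List Bool) (e : Bool) (x : Y) : -pp T.P s x ≤ QQ T.P s e x := by
  unfold QQ
  rw [← T.pp_sg s e x]
  exact T.neg_pp_le s _

lemma pp_eq_QQ (s : List Bool) (x : Y) :
    pp T.P s x = max (QQ T.P s true x) (QQ T.P s false x) := by
  unfold pp QQ
  simp [sg]

lemma RR_nonneg (n : ℕ) (s : List Bool) (x : Y) : 0 ≤ RR T.P n s x := by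
  induction n generalizing s with
  | zero => exact sq_nonneg _
  | succ n ih => exact add_nonneg (ih _) (ih _)

lemma RR_child (n : ℕ) (b : Bool) (s : List Bool) (x : Y) :
    RR T.P n (b :: s) x ≤ RR T.P (n + 1) s x := by
  have h0 := T.RR_nonneg n (false :: s) x
  have h1 := T.RR_nonneg n (true :: s) x
  show _ ≤ RR T.P n (false :: s) x + RR T.P n (true :: s) x
  cases b <;> linarith

lemma RR_root (n : ℕ) (s : List Bool) (x : Y) :
    RR T.P n s x ≤ RR T.P (n + s.length) [] x := by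
  induction s generalizing n with
  | nil => simp
  | cons b s ih =>
    refine (T.RR_child n b s x).trans ((ih (n + 1)).trans ?_)
    rw [List.length_cons]
    have : n + 1 + s.length = n + (s.length + 1) := by ring
    rw [this]

lemma RR_le_norm (n : ℕ) (s : List Bool) (x : Y) : RR T.P n s x ≤ ‖x‖ ^ 2 :=
  (T.RR_root n s x).trans (T.R_le _ x)

lemma sqrt_RR_le_norm (n : ℕ) (s : List Bool) (x : Y) : √(RR T.P n s x) ≤ ‖x‖ := by
  rw [Real.sqrt_le_left (norm_nonneg x)]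
  exact T.RR_le_norm n s x

lemma pp_le_norm (s : List Bool) (x : Y) : pp T.P s x ≤ ‖x‖ := by
  have := T.RR_le_norm 0 s x
  exact abs_le_of_sq_le_sq' this (norm_nonneg x) |>.2

lemma P_lip (s : List Bool) (x y : Y) : |T.P s x - T.P s y| ≤ ‖x - y‖ := by
  rw [abs_le]
  constructor
  · have h := T.P_sub_le s y x
    have h2 := T.pp_le_norm s (y - x)
    rw [norm_sub_rev] at h2
    linarith
  · exact (T.P_sub_le s x y).trans (T.pp_le_norm s _)

lemma P_cont (s : List Bool) : Continuous (T.P s) := by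
  have : LipschitzWith 1 (T.P s) := by
    apply LipschitzWith.of_dist_le_mul
    intro x y
    rw [Real.dist_eq, dist_eq_norm]
    simpa using T.P_lip s x y
  exact this.continuous

lemma pp_cont (s : List Bool) : Continuous (pp T.P s) :=
  (T.P_cont s).max ((T.P_cont s).comp continuous_neg)

lemma QQ_cont (s : List Bool) (e : Bool) : Continuous (QQ T.P s e) :=
  (T.P_cont s).comp (continuous_const_smul _)

lemma RR_cont (n : ℕ) (s : List Bool) : Continuous (RR T.P n s) := by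
  induction n generalizing s with
  | zero => exact (T.pp_cont s).pow 2
  | succ n ih => exact (ih _).add (ih _)

lemma κ_cont (s : List Bool) : Continuous (fun y => T.κ s y) := by
  have : (fun y => T.κ s y) = fun y => T.P s y - max (max (T.P (false :: s) y) (T.P (true :: s) y))
    (2 / 3 * (pp T.P (false :: s) y + pp T.P (true :: s) y)) := by
    funext y
    rw [T.P_rec s y]; ring
  rw [this]
  exact (T.P_cont s).sub (((T.P_cont _).max (T.P_cont _)).max
    (continuous_const.mul ((T.pp_cont _).add (T.pp_cont _))))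

lemma QQ_rec (s : List Bool) (e : Bool) (x : Y) :
    QQ T.P s e x = sg e * T.κ s x + max (max (QQ T.P (false :: s) e x) (QQ T.P (true :: s) e x))
      (2 / 3 * (pp T.P (false :: s) x + pp T.P (true :: s) x)) := by
  unfold QQ
  rw [T.P_rec s, map_smul, smul_eq_mul, T.pp_sg, T.pp_sg]

/-! ### square root of `RR` is a seminorm -/

lemma minkowski2 (a b c d : ℝ) :
    √((a + c) ^ 2 + (b + d) ^ 2) ≤ √(a ^ 2 + b ^ 2) + √(c ^ 2 + d ^ 2) := by
  have h1 : 0 ≤ √(a ^ 2 + b ^ 2) := Real.sqrt_nonneg _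
  have h2 : 0 ≤ √(c ^ 2 + d ^ 2) := Real.sqrt_nonneg _
  rw [Real.sqrt_le_left (by positivity)]
  have e1 : √(a ^ 2 + b ^ 2) ^ 2 = a ^ 2 + b ^ 2 := Real.sq_sqrt (by positivity)
  have e2 : √(c ^ 2 + d ^ 2) ^ 2 = c ^ 2 + d ^ 2 := Real.sq_sqrt (by positivity)
  have h3 : a * c + b * d ≤ √(a ^ 2 + b ^ 2) * √(c ^ 2 + d ^ 2) := by
    rw [← Real.sqrt_mul (by positivity)]
    apply Real.le_sqrt_of_sq_le
    nlinarith [sq_nonneg (a * d - b * c)]
  nlinarith

lemma sqrt_mono2 {a b c d : ℝ} (ha : 0 ≤ a) (hb : 0 ≤ b) (hc : a ≤ c) (hd : b ≤ d) :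
    √(a ^ 2 + b ^ 2) ≤ √(c ^ 2 + d ^ 2) := by
  apply Real.sqrt_le_sqrt
  nlinarith

lemma sqrt_RR_succ (n : ℕ) (s : List Bool) (x : Y) :
    √(RR T.P (n + 1) s x) = √((√(RR T.P n (false :: s) x)) ^ 2 + (√(RR T.P n (true :: s) x)) ^ 2) := by
  rw [Real.sq_sqrt (T.RR_nonneg _ _ _), Real.sq_sqrt (T.RR_nonneg _ _ _)]
  rfl

lemma sqrt_RR_add (n : ℕ) (s : List Bool) (x y : Y) :
    √(RR T.P n s (x + y)) ≤ √(RR T.P n s x) + √(RR T.P n s y) := by
  induction n generalizing s with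
  | zero =>
    show √((pp T.P s (x + y)) ^ 2) ≤ √((pp T.P s x) ^ 2) + √((pp T.P s y) ^ 2)
    rw [Real.sqrt_sq (T.pp_nonneg _ _), Real.sqrt_sq (T.pp_nonneg _ _),
      Real.sqrt_sq (T.pp_nonneg _ _)]
    exact T.pp_add s x y
  | succ n ih =>
    rw [T.sqrt_RR_succ, T.sqrt_RR_succ, T.sqrt_RR_succ]
    refine le_trans (sqrt_mono2 (Real.sqrt_nonneg _) (Real.sqrt_nonneg _)
      (ih (false :: s)) (ih (true :: s))) (minkowski2 _ _ _ _)

lemma RR_neg (n : ℕ) (s : List Bool) (x : Y) : RR T.P n s (-x) = RR T.P n s x := by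
  induction n generalizing s with
  | zero => show (pp T.P s (-x)) ^ 2 = (pp T.P s x) ^ 2; rw [T.pp_neg]
  | succ n ih =>
    show RR T.P n _ (-x) + RR T.P n _ (-x) = RR T.P n _ x + RR T.P n _ x
    rw [ih, ih]

lemma sqrt_RR_sub_le (n : ℕ) (s : List Bool) (x y : Y) :
    √(RR T.P n s x) - √(RR T.P n s y) ≤ ‖x - y‖ := by
  have h := T.sqrt_RR_add n s y (x - y)
  rw [add_sub_cancel] at h
  have := T.sqrt_RR_le_norm n s (x - y)
  linarith


/-! ### subgradients and unsplit values -/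

lemma exists_subgrad (s : List Bool) (z : Y) :
    ∃ g : Y →ₗ[ℝ] ℝ, (∀ x, g x ≤ T.P s x) ∧ g z = T.P s z := by
  have H : ∀ c : ℝ, c • z = 0 → (RingHom.id ℝ) c • T.P s z = 0 := by
    intro c hc
    rcases smul_eq_zero.mp hc with h | h
    · simp [h]
    · rw [h, T.P_zero]; simp
  obtain ⟨g, hg1, hg2⟩ := exists_extension_of_le_sublinear
    (LinearPMap.mkSpanSingleton' z (T.P s z) H) (T.P s)
    (fun c hc x => T.P_smul s c x hc.le) (T.P_add s) (by
      rintro ⟨x, hx⟩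
      have hx' : x ∈ Submodule.span ℝ {z} := hx
      obtain ⟨c, rfl⟩ := Submodule.mem_span_singleton.mp hx'
      rw [LinearPMap.mkSpanSingleton'_apply]
      simp only [RingHom.id_apply, smul_eq_mul]
      rcases le_or_gt 0 c with hc | hc
      · rw [T.P_smul s c z hc]
      · have h1 : T.P s (c • z) = (-c) * T.P s (-z) := by
          rw [← T.P_smul s (-c) (-z) (by linarith)]
          simp
        rw [h1]
        have := T.P_neg_add s z
        nlinarith)
  refine ⟨g, hg2, ?_⟩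
  have := hg1 ⟨z, Submodule.mem_span_singleton_self z⟩
  rw [this]
  have h2 := LinearPMap.mkSpanSingleton'_apply z (T.P s z) H 1
    (by simp)
  simpa using h2

/-- the value of the functional when the first `n` steps are unsplit -/
def V (T : TreeNorm Y) : ℕ → List Bool → Y → ℝ
  | 0, s, z => T.P s z
  | n + 1, s, z => T.κ s z + max (V T n (false :: s) z) (V T n (true :: s) z)

lemma P_ge_child (s : List Bool) (b : Bool) (z : Y) : T.κ s z + T.P (b :: s) z ≤ T.P s z := by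
  rw [T.P_rec s z]
  have : T.P (b :: s) z ≤ max (T.P (false :: s) z) (T.P (true :: s) z) := by
    cases b
    · exact le_max_left _ _
    · exact le_max_right _ _
  linarith [le_max_left (max (T.P (false :: s) z) (T.P (true :: s) z))
    (2 / 3 * (pp T.P (false :: s) z + pp T.P (true :: s) z))]

lemma P_ge_split (s : List Bool) (z : Y) :
    T.κ s z + 2 / 3 * (pp T.P (false :: s) z + pp T.P (true :: s) z) ≤ T.P s z := by
  rw [T.P_rec s z]
  linarith [le_max_right (max (T.P (false :: s) z) (T.P (true :: s) z))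
    (2 / 3 * (pp T.P (false :: s) z + pp T.P (true :: s) z))]

lemma P_ge_κ (s : List Bool) (z : Y) : T.κ s z ≤ T.P s z := by
  have h := T.P_ge_split s z
  have h0 := T.pp_nonneg (false :: s) z
  have h1 := T.pp_nonneg (true :: s) z
  linarith

lemma V_le (n : ℕ) (s : List Bool) (z : Y) : T.V n s z ≤ T.P s z := by
  induction n generalizing s with
  | zero => exact le_rfl
  | succ n ih =>
    show T.κ s z + max (T.V n (false :: s) z) (T.V n (true :: s) z) ≤ T.P s z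
    rcases max_choice (T.V n (false :: s) z) (T.V n (true :: s) z) with h | h
    · rw [h]; linarith [ih (false :: s), T.P_ge_child s false z]
    · rw [h]; linarith [ih (true :: s), T.P_ge_child s true z]

lemma V_cont (n : ℕ) (s : List Bool) : Continuous (T.V n s) := by
  induction n generalizing s with
  | zero => exact T.P_cont s
  | succ n ih => exact (T.κ_cont s).add ((ih _).max (ih _))

lemma D2_le_pp (s : List Bool) (z k : Y) : D2 (T.P s) z k ≤ 2 * pp T.P s k := by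
  unfold D2
  have h1 := T.P_sub_le s (z + k) z
  have h2 := T.P_sub_le s (z - k) z
  have e1 : z + k - z = k := by abel
  have e2 : z - k - z = -k := by abel
  rw [e1] at h1
  rw [e2, T.pp_neg] at h2
  linarith

lemma D2_double (s : List Bool) (z k : Y) :
    2 * D2 (T.P s) z k ≤ D2 (T.P s) z ((2 : ℝ) • k) := by
  unfold D2
  have h1 : T.P s (z + k) ≤ 1 / 2 * T.P s z + 1 / 2 * T.P s (z + (2 : ℝ) • k) := by
    have e : z + k = (1 / 2 : ℝ) • z + (1 / 2 : ℝ) • (z + (2 : ℝ) • k) := by module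
    rw [e]
    refine (T.P_add s _ _).trans ?_
    rw [T.P_smul s _ _ (by norm_num), T.P_smul s _ _ (by norm_num)]
  have h2 : T.P s (z - k) ≤ 1 / 2 * T.P s z + 1 / 2 * T.P s (z - (2 : ℝ) • k) := by
    have e : z - k = (1 / 2 : ℝ) • z + (1 / 2 : ℝ) • (z - (2 : ℝ) • k) := by module
    rw [e]
    refine (T.P_add s _ _).trans ?_
    rw [T.P_smul s _ _ (by norm_num), T.P_smul s _ _ (by norm_num)]
  linarith

/-- the case where the two unsplit branches part at the node `s` -/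
lemma parting (s : List Bool) (b : Bool) (z k : Y)
    (h1 : T.P s (z + k) = T.κ s (z + k) + T.P (b :: s) (z + k))
    (h2 : T.P s (z - k) = T.κ s (z - k) + T.P ((!b) :: s) (z - k)) :
    D2 (T.P s) z k ≤ 18 * (D2 (T.P s) z ((2 : ℝ) • k) / 2 - D2 (T.P s) z k) := by
  obtain ⟨f, hf, hfz⟩ := T.exists_subgrad (b :: s) (z + k)
  obtain ⟨g, hg, hgz⟩ := T.exists_subgrad ((!b) :: s) (z - k)
  -- bounds for pp
  have ppf : ∀ x, |f x| ≤ pp T.P (b :: s) x := by
    intro x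
    rw [abs_le]
    constructor
    · have := hf (-x); rw [map_neg] at this; linarith [T.P_neg_le_pp (b :: s) x]
    · exact (hf x).trans (T.P_le_pp _ x)
  have ppg : ∀ x, |g x| ≤ pp T.P ((!b) :: s) x := by
    intro x
    rw [abs_le]
    constructor
    · have := hg (-x); rw [map_neg] at this; linarith [T.P_neg_le_pp ((!b) :: s) x]
    · exact (hg x).trans (T.P_le_pp _ x)
  have split : ∀ x, T.κ s x + 2 / 3 * (|f x| + |g x|) ≤ T.P s x := by
    intro x
    have := T.P_ge_split s x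
    have a1 := ppf x
    have a2 := ppg x
    cases b
    · simp only [Bool.not_false] at a2
      linarith
    · simp only [Bool.not_true] at a2
      linarith
  have child1 : ∀ x, T.κ s x + f x ≤ T.P s x := fun x => by
    linarith [T.P_ge_child s b x, hf x]
  have child2 : ∀ x, T.κ s x + g x ≤ T.P s x := fun x => by
    linarith [T.P_ge_child s (!b) x, hg x]
  have c1 := child1 (z + (2 : ℝ) • k)
  have c2 := child2 (z - (2 : ℝ) • k)
  have s0 := split z
  have s1 := split (z + k)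
  have s2 := split (z - k)
  have k0 := T.P_ge_κ s z
  rw [← hfz] at h1
  rw [← hgz] at h2
  simp only [map_add, map_sub, map_smul, smul_eq_mul] at c1 c2 s0 s1 s2 k0 h1 h2
  unfold D2
  set a := T.κ s z
  set κk := T.κ s k
  set X1 := f z
  set X2 := g z
  set K1 := f k
  set K2 := g k
  set q := T.P s z
  set A := T.P s (z + k)
  set B := T.P s (z - k)
  set A2 := T.P s (z + (2 : ℝ) • k)
  set B2 := T.P s (z - (2 : ℝ) • k)
  have u0 : X1 + X2 ≤ |X1| + |X2| := add_le_add (le_abs_self _) (le_abs_self _)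
  have u1 : (X1 + K1) - (X2 + K2) ≤ |X1 + K1| + |X2 + K2| := by
    have := le_abs_self (X1 + K1); have := neg_abs_le (X2 + K2); linarith
  have u2 : -(X1 - K1) + (X2 - K2) ≤ |X1 - K1| + |X2 - K2| := by
    have := neg_abs_le (X1 - K1); have := le_abs_self (X2 - K2); linarith
  rcases le_or_gt 0 (X1 + X2) with hX | hX <;> nlinarith


lemma V_succ_eq (n : ℕ) (s : List Bool) (z : Y) (h : T.V (n + 1) s z = T.P s z) :
    ∃ b, T.P s z = T.κ s z + T.P (b :: s) z ∧ T.V n (b :: s) z = T.P (b :: s) z := by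
  have h' : T.κ s z + max (T.V n (false :: s) z) (T.V n (true :: s) z) = T.P s z := h
  rcases max_choice (T.V n (false :: s) z) (T.V n (true :: s) z) with hm | hm
  · refine ⟨false, ?_, ?_⟩
    · rw [hm] at h'
      linarith [T.V_le n (false :: s) z, T.P_ge_child s false z]
    · rw [hm] at h'
      linarith [T.V_le n (false :: s) z, T.P_ge_child s false z]
  · refine ⟨true, ?_, ?_⟩
    · rw [hm] at h'
      linarith [T.V_le n (true :: s) z, T.P_ge_child s true z]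
    · rw [hm] at h'
      linarith [T.V_le n (true :: s) z, T.P_ge_child s true z]

lemma descend (n : ℕ) (s : List Bool) (z k : Y) (h1 : T.V n s (z + k) = T.P s (z + k))
    (h2 : T.V n s (z - k) = T.P s (z - k)) :
    (D2 (T.P s) z k ≤ 18 * (D2 (T.P s) z ((2 : ℝ) • k) / 2 - D2 (T.P s) z k)) ∨
    (∃ t : List Bool, t.length = s.length + n ∧ D2 (T.P s) z k ≤ D2 (T.P t) z k) := by
  induction n generalizing s with
  | zero => right; exact ⟨s, by simp, le_rfl⟩
  | succ n ih =>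
    obtain ⟨b, hb1, hb2⟩ := T.V_succ_eq n s _ h1
    obtain ⟨b', hb1', hb2'⟩ := T.V_succ_eq n s _ h2
    by_cases hbb : b' = b
    · subst hbb
      have g0 := T.P_ge_child s b' z
      have g1 := T.P_ge_child s b' (z + (2 : ℝ) • k)
      have g2 := T.P_ge_child s b' (z - (2 : ℝ) • k)
      simp only [map_add, map_sub, map_smul, smul_eq_mul] at hb1 hb1' g1 g2
      rcases ih (b' :: s) hb2 hb2' with h | ⟨t, ht, h⟩
      · left
        unfold D2 at h ⊢
        linarith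
      · right
        refine ⟨t, ?_, ?_⟩
        · rw [ht, List.length_cons]; ring
        · refine le_trans ?_ h
          unfold D2
          linarith
    · left
      have e : b' = !b := by
        cases b <;> cases b' <;> simp_all
      subst e
      exact T.parting s b z k hb1 hb1'

lemma dec_P (s : List Bool) (z k : Y) (h1 : ∀ n, T.V n s (z + k) = T.P s (z + k))
    (h2 : ∀ n, T.V n s (z - k) = T.P s (z - k)) :
    D2 (T.P s) z k ≤ 18 * (D2 (T.P s) z ((2 : ℝ) • k) / 2 - D2 (T.P s) z k) := by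
  by_contra hcon
  have hall : ∀ n, ∃ t : List Bool, t.length = s.length + n ∧ D2 (T.P s) z k ≤ D2 (T.P t) z k := by
    intro n
    rcases T.descend n s z k (h1 n) (h2 n) with h | h
    · exact absurd h hcon
    · exact h
  have hdd := T.D2_double s z k
  have hpos : 0 < D2 (T.P s) z k := by
    by_contra hle
    push Not at hle
    apply hcon
    linarith
  obtain ⟨N, hN⟩ := T.R_zero k ((D2 (T.P s) z k) ^ 2 / 16) (by positivity)
  obtain ⟨t, ht, htD⟩ := hall N
  have h3 := T.D2_le_pp t z k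
  have h4 : (pp T.P t k) ^ 2 ≤ (D2 (T.P s) z k) ^ 2 / 16 := by
    have h5 := T.RR_root 0 t k
    have h6 := hN (0 + t.length) (by rw [ht]; omega)
    exact h5.trans h6
  have h5 : pp T.P t k ≤ D2 (T.P s) z k / 4 := by
    apply le_of_sq_le_sq _ (by positivity)
    · calc (pp T.P t k) ^ 2 ≤ (D2 (T.P s) z k) ^ 2 / 16 := h4
        _ = (D2 (T.P s) z k / 4) ^ 2 := by ring
  linarith

lemma D2_QQ (s : List Bool) (e : Bool) (x h : Y) :
    D2 (QQ T.P s e) x h = D2 (T.P s) (sg e • x) (sg e • h) := by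
  unfold D2 QQ
  rw [smul_add, smul_sub]

lemma D2_QQ_le (s : List Bool) (e : Bool) (x h : Y) :
    D2 (QQ T.P s e) x h ≤ 2 * pp T.P s h := by
  rw [T.D2_QQ, ← T.pp_sg s e h]
  exact T.D2_le_pp s _ _

/-- unsplit everywhere at a point -/
def Uns (s : List Bool) (e : Bool) (x : Y) : Prop := ∀ n, T.V n s (sg e • x) = T.P s (sg e • x)

lemma dec_Q (s : List Bool) (e : Bool) (x h : Y) (h1 : T.Uns s e (x + h)) (h2 : T.Uns s e (x - h)) :
    D2 (QQ T.P s e) x h ≤ (18 / 19) / 2 * D2 (QQ T.P s e) x ((2 : ℝ) • h) := by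
  have e1 : sg e • (x + h) = sg e • x + sg e • h := smul_add _ _ _
  have e2 : sg e • (x - h) = sg e • x - sg e • h := smul_sub _ _ _
  have := T.dec_P s (sg e • x) (sg e • h) (fun n => by rw [← e1]; exact h1 n)
    (fun n => by rw [← e2]; exact h2 n)
  rw [T.D2_QQ, T.D2_QQ, smul_comm (sg e) (2 : ℝ) h]
  linarith

lemma dec_iter (s : List Bool) (e : Bool) (U : Set Y) (hU : ∀ x ∈ U, T.Uns s e x) (x0 : Y) (ρ : ℝ)
    (hρ : 0 < ρ) (hball : Metric.ball x0 (2 * ρ) ⊆ U) (j : ℕ) (x h : Y) (hx : x ∈ Metric.ball x0 ρ)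
    (hh : ‖h‖ ≤ ρ / 2 ^ j) : D2 (QQ T.P s e) x h ≤ 2 * (18 / 19) ^ j * ‖h‖ := by
  induction j generalizing h with
  | zero =>
    have := T.D2_QQ_le s e x h
    have h2 := T.pp_le_norm s h
    simp only [pow_zero, mul_one]
    linarith
  | succ j ih =>
    have hle : ρ / 2 ^ (j + 1) < ρ := by
      rw [div_lt_iff₀ (by positivity)]
      have : (1 : ℝ) < 2 ^ (j + 1) := one_lt_pow₀ (by norm_num) (by omega)
      nlinarith
    have hn : ‖h‖ < ρ := lt_of_le_of_lt hh hle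
    rw [Metric.mem_ball] at hx
    have m1 : x + h ∈ U := by
      apply hball
      rw [Metric.mem_ball]
      calc dist (x + h) x0 ≤ dist (x + h) x + dist x x0 := dist_triangle _ _ _
        _ < 2 * ρ := by rw [dist_eq_norm]; simp only [add_sub_cancel_left]; linarith
    have m2 : x - h ∈ U := by
      apply hball
      rw [Metric.mem_ball]
      calc dist (x - h) x0 ≤ dist (x - h) x + dist x x0 := dist_triangle _ _ _
        _ < 2 * ρ := by
          rw [dist_eq_norm]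
          have : x - h - x = -h := by abel
          rw [this, norm_neg]; linarith
    have hd := T.dec_Q s e x h (hU _ m1) (hU _ m2)
    have hn2 : ‖(2 : ℝ) • h‖ = 2 * ‖h‖ := by rw [norm_smul]; norm_num
    have hi := ih ((2 : ℝ) • h) (by
      rw [hn2]
      calc 2 * ‖h‖ ≤ 2 * (ρ / 2 ^ (j + 1)) := by linarith
        _ = ρ / 2 ^ j := by rw [pow_succ]; field_simp)
    rw [hn2] at hi
    calc D2 (QQ T.P s e) x h ≤ (18 / 19) / 2 * D2 (QQ T.P s e) x ((2 : ℝ) • h) := hd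
      _ ≤ (18 / 19) / 2 * (2 * (18 / 19) ^ j * (2 * ‖h‖)) := by
          apply mul_le_mul_of_nonneg_left hi (by norm_num)
      _ = 2 * (18 / 19) ^ (j + 1) * ‖h‖ := by ring


/-! ### flatness on open sets -/

/-- second differences bounded by `F h` for small `h` inside `U` -/
def Flat (U : Set Y) (φ : Y → ℝ) (F : Y → ℝ) : Prop :=
  ∃ r : ℝ, 0 < r ∧ ∀ x h, x ∈ U → x + h ∈ U → x - h ∈ U → ‖h‖ ≤ r → D2 φ x h ≤ F h

/-- nonempty open -/
def NO (U : Set Y) : Prop := IsOpen U ∧ U.Nonempty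

omit [NormedSpace ℝ Y] in
lemma Flat.mono {U U' : Set Y} {φ F F' : Y → ℝ} (h : Flat U φ F) (hU : U' ⊆ U)
    (hF : ∀ y, F y ≤ F' y) : Flat U' φ F' := by
  obtain ⟨r, hr, hh⟩ := h
  exact ⟨r, hr, fun x h hx h1 h2 hn => (hh x h (hU hx) (hU h1) (hU h2) hn).trans (hF h)⟩

omit [NormedSpace ℝ Y] in
lemma split_open {U : Set Y} (hU : NO U) {f g : Y → ℝ} (hf : Continuous f) (hg : Continuous g) :
    (∀ y ∈ U, g y ≤ f y) ∨ ∃ U' ⊆ U, NO U' ∧ ∀ y ∈ U', f y < g y := by
  by_cases h : ∀ y ∈ U, g y ≤ f y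
  · exact Or.inl h
  · right
    push Not at h
    obtain ⟨y, hy, hlt⟩ := h
    refine ⟨U ∩ {y | f y < g y}, Set.inter_subset_left, ⟨hU.1.inter (isOpen_lt hf hg), ⟨y, hy, hlt⟩⟩, ?_⟩
    exact fun y hy => hy.2

lemma choose_pp (s : List Bool) {U : Set Y} (hU : NO U) :
    ∃ U' ⊆ U, NO U' ∧ ∃ e, ∀ y ∈ U', pp T.P s y = QQ T.P s e y := by
  rcases split_open hU (T.QQ_cont s true) (T.QQ_cont s false) with h | ⟨U', hs, hN, h⟩
  · exact ⟨U, subset_rfl, hU, true, fun y hy => by rw [T.pp_eq_QQ, max_eq_left (h y hy)]⟩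
  · exact ⟨U', hs, hN, false, fun y hy => by rw [T.pp_eq_QQ, max_eq_right (h y hy).le]⟩

lemma options (s : List Bool) (e : Bool) {U : Set Y} (hU : NO U) :
    ∃ U' ⊆ U, NO U' ∧
      ((∃ b, ∀ y ∈ U', QQ T.P s e y = sg e * T.κ s y + QQ T.P (b :: s) e y) ∨
       (∃ e0 e1, ∀ y ∈ U', QQ T.P s e y = sg e * T.κ s y +
          2 / 3 * (QQ T.P (false :: s) e0 y + QQ T.P (true :: s) e1 y))) := by
  have hC : Continuous fun y : Y => 2 / 3 * (pp T.P (false :: s) y + pp T.P (true :: s) y) :=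
    continuous_const.mul ((T.pp_cont (false :: s)).add (T.pp_cont (true :: s)))
  have hM : Continuous fun y : Y => max (QQ T.P (false :: s) e y) (QQ T.P (true :: s) e y) :=
    (T.QQ_cont (false :: s) e).max (T.QQ_cont (true :: s) e)
  rcases split_open hU hM hC with h | ⟨U', hs, hN, h⟩
  · rcases split_open hU (T.QQ_cont (false :: s) e) (T.QQ_cont (true :: s) e) with h' | ⟨U', hs, hN, h'⟩
    · refine ⟨U, subset_rfl, hU, Or.inl ⟨false, fun y hy => ?_⟩⟩
      rw [T.QQ_rec, max_eq_left (h y hy), max_eq_left (h' y hy)]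
    · refine ⟨U', hs, hN, Or.inl ⟨true, fun y hy => ?_⟩⟩
      rw [T.QQ_rec, max_eq_left (h y (hs hy)), max_eq_right (h' y hy).le]
  · obtain ⟨U1, hs1, hN1, e0, he0⟩ := T.choose_pp (false :: s) hN
    obtain ⟨U2, hs2, hN2, e1, he1⟩ := T.choose_pp (true :: s) hN1
    refine ⟨U2, hs2.trans (hs1.trans hs), hN2, Or.inr ⟨e0, e1, fun y hy => ?_⟩⟩
    rw [T.QQ_rec, max_eq_right (h y (hs1 (hs2 hy))).le, he0 y (hs2 hy), he1 y hy]

omit [NormedSpace ℝ Y] in
lemma D2_congr {U : Set Y} {φ ψ : Y → ℝ} (h : ∀ y ∈ U, φ y = ψ y) {x k : Y} (h0 : x ∈ U)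
    (h1 : x + k ∈ U) (h2 : x - k ∈ U) : D2 φ x k = D2 ψ x k := by
  unfold D2
  rw [h _ h0, h _ h1, h _ h2]

lemma D2_cont_case (s t : List Bool) (e : Bool) (x k : Y) :
    D2 (fun y => sg e * T.κ s y + QQ T.P t e y) x k = D2 (QQ T.P t e) x k := by
  unfold D2
  simp only [map_add, map_sub]
  ring

lemma D2_split_case (s t0 t1 : List Bool) (e e0 e1 : Bool) (x k : Y) :
    D2 (fun y => sg e * T.κ s y + 2 / 3 * (QQ T.P t0 e0 y + QQ T.P t1 e1 y)) x k =
      2 / 3 * (D2 (QQ T.P t0 e0) x k + D2 (QQ T.P t1 e1) x k) := by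
  unfold D2
  simp only [map_add, map_sub]
  ring

lemma combine_sqrt (d : ℕ) (s : List Bool) (h : Y) (a : ℝ) (ha : 0 ≤ a) :
    2 / 3 * (a * √(RR T.P d (false :: s) h) + a * √(RR T.P d (true :: s) h)) ≤
      (19 / 20 * a) * √(RR T.P (d + 1) s h) := by
  set A := √(RR T.P d (false :: s) h) with hA
  set B := √(RR T.P d (true :: s) h) with hB
  have hA0 : 0 ≤ A := Real.sqrt_nonneg _
  have hB0 : 0 ≤ B := Real.sqrt_nonneg _
  have hC : RR T.P (d + 1) s h = A ^ 2 + B ^ 2 := by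
    rw [hA, hB, Real.sq_sqrt (T.RR_nonneg _ _ _), Real.sq_sqrt (T.RR_nonneg _ _ _)]
    rfl
  have hle : 2 / 3 * (A + B) ≤ 19 / 20 * √(RR T.P (d + 1) s h) := by
    have h1 : (A + B) / (57 / 40) ≤ √(RR T.P (d + 1) s h) := by
      apply Real.le_sqrt_of_sq_le
      rw [hC, div_pow, div_le_iff₀ (by norm_num)]
      nlinarith [sq_nonneg (A - B)]
    have h2 : 2 / 3 * (A + B) = 19 / 20 * ((A + B) / (57 / 40)) := by ring
    rw [h2]
    exact mul_le_mul_of_nonneg_left h1 (by norm_num)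
  calc 2 / 3 * (a * A + a * B) = a * (2 / 3 * (A + B)) := by ring
    _ ≤ a * (19 / 20 * √(RR T.P (d + 1) s h)) := mul_le_mul_of_nonneg_left hle ha
    _ = _ := by ring

lemma sqrt_RR_child (n : ℕ) (b : Bool) (s : List Bool) (x : Y) :
    √(RR T.P n (b :: s) x) ≤ √(RR T.P (n + 1) s x) :=
  Real.sqrt_le_sqrt (T.RR_child n b s x)

/-- flatness at depth `d` with the crude constant -/
lemma claim_zero (d : ℕ) (s : List Bool) (e : Bool) {U : Set Y} (hU : NO U) :
    ∃ U' ⊆ U, NO U' ∧ Flat U' (QQ T.P s e) (fun h => 2 * √(RR T.P d s h)) := by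
  induction d generalizing s e U with
  | zero =>
    refine ⟨U, subset_rfl, hU, 1, one_pos, fun x h _ _ _ _ => ?_⟩
    show _ ≤ 2 * √((pp T.P s h) ^ 2)
    rw [Real.sqrt_sq (T.pp_nonneg s h)]
    exact T.D2_QQ_le s e x h
  | succ d ih =>
    obtain ⟨U1, hs1, hN1, ho⟩ := T.options s e hU
    rcases ho with ⟨b, hb⟩ | ⟨e0, e1, hb⟩
    · obtain ⟨U2, hs2, hN2, r, hr, hF⟩ := ih (b :: s) e hN1
      refine ⟨U2, hs2.trans hs1, hN2, r, hr, fun x h hx h1 h2 hn => ?_⟩
      rw [D2_congr hb (hs2 hx) (hs2 h1) (hs2 h2), T.D2_cont_case]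
      refine (hF x h hx h1 h2 hn).trans ?_
      have := T.sqrt_RR_child d b s h
      linarith
    · obtain ⟨U2, hs2, hN2, r, hr, hF⟩ := ih (false :: s) e0 hN1
      obtain ⟨U3, hs3, hN3, r', hr', hF'⟩ := ih (true :: s) e1 hN2
      refine ⟨U3, hs3.trans (hs2.trans hs1), hN3, min r r', lt_min hr hr',
        fun x h hx h1 h2 hn => ?_⟩
      rw [D2_congr hb (hs2 (hs3 hx)) (hs2 (hs3 h1)) (hs2 (hs3 h2)), T.D2_split_case]
      have f1 := hF x h (hs3 hx) (hs3 h1) (hs3 h2) (hn.trans (min_le_left _ _))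
      have f2 := hF' x h hx h1 h2 (hn.trans (min_le_right _ _))
      have f3 := T.combine_sqrt d s h 2 (by norm_num)
      have f4 : 0 ≤ √(RR T.P (d + 1) s h) := Real.sqrt_nonneg _
      linarith

/-- conclusion of the induction claim -/
def Concl (T : TreeNorm Y) (a τ : ℝ) (s : List Bool) (e : Bool) (U : Set Y) : Prop :=
  ∃ U1 ⊆ U, NO U1 ∧ ∃ d0 : ℕ, ∀ d, d0 ≤ d → ∀ U2 ⊆ U1, NO U2 →
    ∃ U3 ⊆ U2, NO U3 ∧ Flat U3 (QQ T.P s e) (fun h => τ * ‖h‖ + a * √(RR T.P d s h))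

lemma concl_split (a : ℝ) (ha : 0 ≤ a)
    (hyp : ∀ (τ : ℝ), 0 < τ → ∀ s e (U : Set Y), NO U → T.Concl a τ s e U)
    (n : ℕ) (τ : ℝ) (hτ : 0 < τ) (s : List Bool) (e : Bool) (U : Set Y) (hU : NO U)
    (hex : ∃ y ∈ U, T.V n s (sg e • y) < T.P s (sg e • y)) :
    T.Concl (19 / 20 * a) τ s e U := by
  induction n generalizing s e U with
  | zero =>
    obtain ⟨y, _, hy⟩ := hex
    exact absurd hy (lt_irrefl _)
  | succ n ih =>
    obtain ⟨y0, hy0, hlt0⟩ := hex
    have hcV : Continuous fun y : Y => T.V (n + 1) s (sg e • y) :=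
      (T.V_cont _ _).comp (continuous_const_smul _)
    have hcP : Continuous fun y : Y => T.P s (sg e • y) :=
      (T.P_cont _).comp (continuous_const_smul _)
    have hN0 : NO (U ∩ {y | T.V (n + 1) s (sg e • y) < T.P s (sg e • y)}) :=
      ⟨hU.1.inter (isOpen_lt hcV hcP), ⟨y0, hy0, hlt0⟩⟩
    obtain ⟨U1, hs1, hN1, ho⟩ := T.options s e hN0
    have hs1U : U1 ⊆ U := hs1.trans Set.inter_subset_left
    rcases ho with ⟨b, hb⟩ | ⟨e0, e1, hb⟩
    · have hex' : ∃ y ∈ U1, T.V n (b :: s) (sg e • y) < T.P (b :: s) (sg e • y) := by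
        obtain ⟨y, hy⟩ := hN1.2
        refine ⟨y, hy, ?_⟩
        have h1 : T.V (n + 1) s (sg e • y) < T.P s (sg e • y) := (hs1 hy).2
        have h2 := hb y hy
        unfold QQ at h2
        have h3 : T.κ s (sg e • y) + T.V n (b :: s) (sg e • y) ≤ T.V (n + 1) s (sg e • y) := by
          show _ ≤ T.κ s (sg e • y) + max (T.V n (false :: s) (sg e • y)) (T.V n (true :: s) (sg e • y))
          cases b
          · linarith [le_max_left (T.V n (false :: s) (sg e • y)) (T.V n (true :: s) (sg e • y))]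
          · linarith [le_max_right (T.V n (false :: s) (sg e • y)) (T.V n (true :: s) (sg e • y))]
        rw [map_smul, smul_eq_mul] at h3
        linarith
      obtain ⟨U2, hs2, hN2, d0, hd⟩ := ih (b :: s) e U1 hN1 hex'
      refine ⟨U2, hs2.trans hs1U, hN2, d0 + 1, fun d hd' U3 hs3 hN3 => ?_⟩
      obtain ⟨d', rfl⟩ : ∃ d', d = d' + 1 := ⟨d - 1, by omega⟩
      obtain ⟨U4, hs4, hN4, r, hr, hF⟩ := hd d' (by omega) U3 hs3 hN3
      refine ⟨U4, hs4, hN4, r, hr, fun x h hx h1 h2 hn => ?_⟩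
      have hsub : U4 ⊆ U1 := hs4.trans (hs3.trans hs2)
      rw [D2_congr hb (hsub hx) (hsub h1) (hsub h2), T.D2_cont_case]
      refine (hF x h hx h1 h2 hn).trans ?_
      have := T.sqrt_RR_child d' b s h
      have h9 : 19 / 20 * a * √(RR T.P d' (b :: s) h) ≤ 19 / 20 * a * √(RR T.P (d' + 1) s h) :=
        mul_le_mul_of_nonneg_left this (by positivity)
      linarith
    · obtain ⟨U2, hs2, hN2, d0, hd⟩ := hyp (τ / 2) (by positivity) (false :: s) e0 U1 hN1
      obtain ⟨U3, hs3, hN3, d1, hd1⟩ := hyp (τ / 2) (by positivity) (true :: s) e1 U2 hN2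
      refine ⟨U3, hs3.trans (hs2.trans hs1U), hN3, max d0 d1 + 1, fun d hd' U4 hs4 hN4 => ?_⟩
      obtain ⟨d', rfl⟩ : ∃ d', d = d' + 1 := ⟨d - 1, by omega⟩
      obtain ⟨U5, hs5, hN5, r, hr, hF⟩ := hd d' (by omega) U4 (hs4.trans hs3) hN4
      obtain ⟨U6, hs6, hN6, r', hr', hF'⟩ := hd1 d' (by omega) U5 (hs5.trans hs4) hN5
      refine ⟨U6, hs6.trans hs5, hN6, min r r', lt_min hr hr', fun x h hx h1 h2 hn => ?_⟩
      have hsub : U6 ⊆ U1 := hs6.trans (hs5.trans (hs4.trans (hs3.trans hs2)))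
      rw [D2_congr hb (hsub hx) (hsub h1) (hsub h2), T.D2_split_case]
      have f1 := hF x h (hs6 hx) (hs6 h1) (hs6 h2) (hn.trans (min_le_left _ _))
      have f2 := hF' x h hx h1 h2 (hn.trans (min_le_right _ _))
      have f3 := T.combine_sqrt d' s h a ha
      have f4 := norm_nonneg h
      nlinarith

lemma claim (k : ℕ) : ∀ (τ : ℝ), 0 < τ → ∀ s e (U : Set Y), NO U →
    T.Concl (2 * (19 / 20) ^ k) τ s e U := by
  induction k with
  | zero =>
    intro τ hτ s e U hU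
    refine ⟨U, subset_rfl, hU, 0, fun d _ U2 _ hN2 => ?_⟩
    obtain ⟨U3, hs3, hN3, hF⟩ := T.claim_zero d s e hN2
    refine ⟨U3, hs3, hN3, hF.mono subset_rfl fun h => ?_⟩
    have : 0 ≤ τ * ‖h‖ := by positivity
    simp only [pow_zero, mul_one]
    linarith
  | succ k ih =>
    intro τ hτ s e U hU
    by_cases hex : ∃ n, ∃ y ∈ U, T.V n s (sg e • y) < T.P s (sg e • y)
    · obtain ⟨n, hn⟩ := hex
      have := T.concl_split (2 * (19 / 20) ^ k) (by positivity) ih n τ hτ s e U hU hn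
      have e : 2 * (19 / 20 : ℝ) ^ (k + 1) = 19 / 20 * (2 * (19 / 20) ^ k) := by ring
      rw [e]
      exact this
    · push Not at hex
      have hUns : ∀ x ∈ U, T.Uns s e x := fun x hx n => le_antisymm (T.V_le n s _) (hex n x hx)
      obtain ⟨x0, hx0⟩ := hU.2
      obtain ⟨ρ2, hρ2, hball⟩ := Metric.isOpen_iff.mp hU.1 x0 hx0
      obtain ⟨j, hj⟩ := exists_pow_lt_of_lt_one (show (0 : ℝ) < τ / 2 by positivity)
        (show (18 / 19 : ℝ) < 1 by norm_num)
      refine ⟨Metric.ball x0 (ρ2 / 2), fun y hy => hball (Metric.ball_subset_ball (by linarith) hy),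
        ⟨Metric.isOpen_ball, ⟨x0, Metric.mem_ball_self (by positivity)⟩⟩, 0, fun d _ U2 hs2 hN2 => ?_⟩
      refine ⟨U2, subset_rfl, hN2, ρ2 / 2 / 2 ^ j, by positivity, fun x h hx _ _ hn => ?_⟩
      have := T.dec_iter s e U hUns x0 (ρ2 / 2) (by positivity) (by
        have : 2 * (ρ2 / 2) = ρ2 := by ring
        rw [this]; exact hball) j x h (hs2 hx) hn
      have h1 : 0 ≤ 2 * (19 / 20 : ℝ) ^ (k + 1) * √(RR T.P d s h) := by positivity
      have h2 : 2 * (18 / 19) ^ j * ‖h‖ ≤ τ * ‖h‖ :=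
        mul_le_mul_of_nonneg_right (by linarith) (norm_nonneg h)
      linarith

/-- every signed functional is nearly smooth on some open subset -/
lemma flat_QQ (s : List Bool) (e : Bool) {U : Set Y} (hU : NO U) (δ : ℝ) (hδ : 0 < δ) :
    ∃ U' ⊆ U, NO U' ∧ Flat U' (QQ T.P s e) (fun h => δ * ‖h‖) := by
  obtain ⟨k, hk⟩ := exists_pow_lt_of_lt_one (show (0 : ℝ) < δ / 4 by positivity)
    (show (19 / 20 : ℝ) < 1 by norm_num)
  obtain ⟨U1, hs1, hN1, d0, hd⟩ := T.claim k (δ / 2) (by positivity) s e U hU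
  obtain ⟨U2, hs2, hN2, hF⟩ := hd d0 le_rfl U1 subset_rfl hN1
  refine ⟨U2, hs2.trans hs1, hN2, hF.mono subset_rfl fun h => ?_⟩
  have h1 := T.sqrt_RR_le_norm d0 s h
  have h2 := Real.sqrt_nonneg (RR T.P d0 s h)
  have h3 : 2 * (19 / 20 : ℝ) ^ k * √(RR T.P d0 s h) ≤ δ / 2 * ‖h‖ := by
    apply mul_le_mul (by linarith) h1 h2 (by positivity)
  linarith


/-! ### the square root functions and the norm -/

lemma hilb_ineq {p q w t η D : ℝ} (hη : 0 < η) (hp : η ≤ p) (hq : η ≤ q) (hw : 0 ≤ w)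
    (ht : 0 ≤ t) (h : (p + q) ^ 2 ≤ w ^ 2 + D) (hD : D ≤ 2 * η * t) : p + q ≤ w + t := by
  by_contra hcon
  push Not at hcon
  have h1 : (p + q - w) * (p + q + w) ≤ 2 * η * t := by nlinarith
  have h2 : t * (2 * η) < (p + q - w) * (p + q + w) := by
    have h3 : t < p + q - w := by linarith
    have h4 : 2 * η ≤ p + q + w := by linarith
    calc t * (2 * η) < (p + q - w) * (2 * η) := by
          apply mul_lt_mul_of_pos_right h3 (by linarith)
      _ ≤ (p + q - w) * (p + q + w) := by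
          apply mul_le_mul_of_nonneg_left h4 (by linarith)
  linarith

lemma combine_flat (A B : Y → ℝ) (hA0 : ∀ y, 0 ≤ A y) (hB0 : ∀ y, 0 ≤ B y)
    (hA : ∀ x y, A x - A y ≤ ‖x - y‖) (hB : ∀ x y, B x - B y ≤ ‖x - y‖)
    (x h : Y) (δ η : ℝ) (hδ : 0 < δ) (hη : 0 < η)
    (h1 : D2 A x h ≤ δ / 4 * ‖h‖) (h2 : D2 B x h ≤ δ / 4 * ‖h‖)
    (hp : η ≤ √((A (x + h)) ^ 2 + (B (x + h)) ^ 2)) (hq : η ≤ √((A (x - h)) ^ 2 + (B (x - h)) ^ 2))
    (hh : ‖h‖ ≤ δ * η / 8) :
    D2 (fun y => √((A y) ^ 2 + (B y) ^ 2)) x h ≤ δ * ‖h‖ := by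
  unfold D2 at *
  have hn := norm_nonneg h
  set a1 := A (x + h)
  set a2 := A (x - h)
  set a := A x
  set b1 := B (x + h)
  set b2 := B (x - h)
  set b := B x
  have ha1 : 0 ≤ a1 := hA0 _
  have ha2 : 0 ≤ a2 := hA0 _
  have ha : 0 ≤ a := hA0 _
  have hb1 : 0 ≤ b1 := hB0 _
  have hb2 : 0 ≤ b2 := hB0 _
  have hb : 0 ≤ b := hB0 _
  set p := √(a1 ^ 2 + b1 ^ 2)
  set q := √(a2 ^ 2 + b2 ^ 2)
  have ep : p ^ 2 = a1 ^ 2 + b1 ^ 2 := Real.sq_sqrt (by positivity)
  have eq' : q ^ 2 = a2 ^ 2 + b2 ^ 2 := Real.sq_sqrt (by positivity)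
  have hd : ‖x + h - (x - h)‖ ≤ 2 * ‖h‖ := by
    have : x + h - (x - h) = (2 : ℝ) • h := by module
    rw [this, norm_smul]; norm_num
  have hd' : ‖x - h - (x + h)‖ ≤ 2 * ‖h‖ := by rw [norm_sub_rev]; exact hd
  have l1 : |a1 - a2| ≤ 2 * ‖h‖ := by
    rw [abs_le]; constructor
    · linarith [hA (x - h) (x + h)]
    · linarith [hA (x + h) (x - h)]
  have l2 : |b1 - b2| ≤ 2 * ‖h‖ := by
    rw [abs_le]; constructor
    · linarith [hB (x - h) (x + h)]
    · linarith [hB (x + h) (x - h)]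
  have l1' : (a1 - a2) ^ 2 ≤ (2 * ‖h‖) ^ 2 := by
    rw [← sq_abs]; exact pow_le_pow_left₀ (abs_nonneg _) l1 2
  have l2' : (b1 - b2) ^ 2 ≤ (2 * ‖h‖) ^ 2 := by
    rw [← sq_abs]; exact pow_le_pow_left₀ (abs_nonneg _) l2 2
  set w := √((a1 + a2) ^ 2 + (b1 + b2) ^ 2) with hw
  have ew : w ^ 2 = (a1 + a2) ^ 2 + (b1 + b2) ^ 2 := Real.sq_sqrt (by positivity)
  have key : (p + q) ^ 2 ≤ w ^ 2 + 8 * ‖h‖ ^ 2 := by
    have h3 : (p + q) ^ 2 ≤ 2 * (p ^ 2 + q ^ 2) := by nlinarith [sq_nonneg (p - q)]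
    have h4 : 2 * (p ^ 2 + q ^ 2) = w ^ 2 + ((a1 - a2) ^ 2 + (b1 - b2) ^ 2) := by
      rw [ep, eq', ew]; ring
    nlinarith
  have hw2 : w ≤ 2 * √(a ^ 2 + b ^ 2) + δ / 2 * ‖h‖ := by
    have h5 : w ≤ √((2 * a + δ / 4 * ‖h‖) ^ 2 + (2 * b + δ / 4 * ‖h‖) ^ 2) :=
      sqrt_mono2 (by positivity) (by positivity) (by linarith) (by linarith)
    have h6 := minkowski2 (2 * a) (2 * b) (δ / 4 * ‖h‖) (δ / 4 * ‖h‖)
    have h7 : √((2 * a) ^ 2 + (2 * b) ^ 2) = 2 * √(a ^ 2 + b ^ 2) := by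
      have : (2 * a) ^ 2 + (2 * b) ^ 2 = 2 ^ 2 * (a ^ 2 + b ^ 2) := by ring
      rw [this, Real.sqrt_mul (by norm_num), Real.sqrt_sq (by norm_num)]
    have h8 : √((δ / 4 * ‖h‖) ^ 2 + (δ / 4 * ‖h‖) ^ 2) ≤ δ / 2 * ‖h‖ := by
      rw [Real.sqrt_le_left (by positivity)]
      nlinarith [sq_nonneg (δ * ‖h‖)]
    linarith
  have hfin : p + q ≤ w + δ / 2 * ‖h‖ := by
    apply hilb_ineq hη hp hq (Real.sqrt_nonneg _) (by positivity) key
    nlinarith
  show p + q - 2 * √(a ^ 2 + b ^ 2) ≤ δ * ‖h‖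
  linarith

lemma flat_sqrt (m : ℕ) (s : List Bool) {U : Set Y} (hU : NO U) (δ : ℝ) (hδ : 0 < δ) :
    ∃ U' ⊆ U, NO U' ∧ Flat U' (fun y => √(RR T.P m s y)) (fun h => δ * ‖h‖) := by
  induction m generalizing s U δ with
  | zero =>
    obtain ⟨U1, hs1, hN1, e, he⟩ := T.choose_pp s hU
    obtain ⟨U2, hs2, hN2, r, hr, hF⟩ := T.flat_QQ s e hN1 δ hδ
    refine ⟨U2, hs2.trans hs1, hN2, r, hr, fun x h hx h1 h2 hn => ?_⟩
    have heq : ∀ y ∈ U1, √(RR T.P 0 s y) = QQ T.P s e y := by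
      intro y hy
      show √((pp T.P s y) ^ 2) = _
      rw [Real.sqrt_sq (T.pp_nonneg s y), he y hy]
    rw [D2_congr heq (hs2 hx) (hs2 h1) (hs2 h2)]
    exact hF x h hx h1 h2 hn
  | succ m ih =>
    obtain ⟨U1, hs1, hN1, r1, hr1, hF1⟩ := ih (false :: s) hU (δ / 4) (by positivity)
    obtain ⟨U2, hs2, hN2, r2, hr2, hF2⟩ := ih (true :: s) hN1 (δ / 4) (by positivity)
    have hcont : Continuous fun y => √(RR T.P (m + 1) s y) := (T.RR_cont _ _).sqrt
    rcases split_open hN2 (continuous_const : Continuous fun _ : Y => (0 : ℝ)) hcont with h0 | ⟨U3, hs3, hN3, h3⟩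
    · refine ⟨U2, hs2.trans hs1, hN2, 1, one_pos, fun x h hx h1 h2 hn => ?_⟩
      have e0 : ∀ y ∈ U2, √(RR T.P (m + 1) s y) = 0 := fun y hy =>
        le_antisymm (h0 y hy) (Real.sqrt_nonneg _)
      have hz : D2 (fun y => √(RR T.P (m + 1) s y)) x h = 0 := by
        show √(RR T.P (m + 1) s (x + h)) + √(RR T.P (m + 1) s (x - h)) -
          2 * √(RR T.P (m + 1) s x) = 0
        rw [e0 _ h1, e0 _ h2, e0 _ hx]; ring
      rw [hz]
      show 0 ≤ δ * ‖h‖
      positivity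
    · obtain ⟨y0, hy0⟩ := hN3.2
      set η := √(RR T.P (m + 1) s y0) / 2 with hη
      have hηpos : 0 < η := half_pos (h3 y0 hy0)
      refine ⟨U3 ∩ {y | η < √(RR T.P (m + 1) s y)}, fun y hy => hs1 (hs2 (hs3 hy.1)),
        ⟨hN3.1.inter (isOpen_lt continuous_const hcont), ⟨y0, hy0, ?_⟩⟩,
        min (min r1 r2) (δ * η / 8), lt_min (lt_min hr1 hr2) (by positivity),
        fun x h hx h1 h2 hn => ?_⟩
      · show η < √(RR T.P (m + 1) s y0)
        rw [hη]; linarith [h3 y0 hy0]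
      · have hn1 : ‖h‖ ≤ r1 := hn.trans ((min_le_left _ _).trans (min_le_left _ _))
        have hn2 : ‖h‖ ≤ r2 := hn.trans ((min_le_left _ _).trans (min_le_right _ _))
        have hn3 : ‖h‖ ≤ δ * η / 8 := hn.trans (min_le_right _ _)
        have g1 := hF1 x h (hs2 (hs3 hx.1)) (hs2 (hs3 h1.1)) (hs2 (hs3 h2.1)) hn1
        have g2 := hF2 x h (hs3 hx.1) (hs3 h1.1) (hs3 h2.1) hn2
        have hfun : (fun y => √(RR T.P (m + 1) s y)) =
            fun y => √((√(RR T.P m (false :: s) y)) ^ 2 + (√(RR T.P m (true :: s) y)) ^ 2) := by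
          funext y; exact T.sqrt_RR_succ m s y
        rw [hfun]
        apply combine_flat (fun y => √(RR T.P m (false :: s) y)) (fun y => √(RR T.P m (true :: s) y))
          (fun _ => Real.sqrt_nonneg _) (fun _ => Real.sqrt_nonneg _)
          (fun x y => T.sqrt_RR_sub_le m _ x y) (fun x y => T.sqrt_RR_sub_le m _ x y) x h δ η hδ hηpos
          g1 g2
        · rw [← T.sqrt_RR_succ]; exact h1.2.le
        · rw [← T.sqrt_RR_succ]; exact h2.2.le
        · exact hn3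

lemma exists_nonzero [Nontrivial Y] {U : Set Y} (hU : NO U) : ∃ y ∈ U, y ≠ 0 := by
  obtain ⟨y, hy⟩ := hU.2
  by_cases h0 : y = 0
  · subst h0
    obtain ⟨v, hv⟩ := exists_ne (0 : Y)
    obtain ⟨ε, hε, hball⟩ := Metric.isOpen_iff.mp hU.1 0 hy
    have hvn : 0 < ‖v‖ := norm_pos_iff.mpr hv
    refine ⟨(ε / 2 / ‖v‖) • v, hball ?_, smul_ne_zero (by positivity) hv⟩
    rw [Metric.mem_ball, dist_zero_right, norm_smul, Real.norm_of_nonneg (by positivity),
      div_mul_cancel₀ _ hvn.ne']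
    linarith
  · exact ⟨y, hy, h0⟩

lemma norm_eq [Nontrivial Y] {U : Set Y} (hU : NO U) :
    ∃ U' ⊆ U, NO U' ∧ ∃ m, ∀ y ∈ U', ‖y‖ = √(RR T.P m [] y) := by
  obtain ⟨y0, hy0, hne⟩ := exists_nonzero hU
  have hpos : 0 < ‖y0‖ := norm_pos_iff.mpr hne
  obtain ⟨N, hN⟩ := T.R_zero y0 (‖y0‖ ^ 2 / 16) (by positivity)
  have hN' : ∀ n, N ≤ n → √(RR T.P n [] y0) ≤ ‖y0‖ / 4 := by
    intro n hn
    rw [Real.sqrt_le_left (by positivity)]
    have := hN n hn
    calc RR T.P n [] y0 ≤ ‖y0‖ ^ 2 / 16 := this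
      _ = (‖y0‖ / 4) ^ 2 := by ring
  set U0 := U ∩ Metric.ball y0 (‖y0‖ / 8) with hU0
  have hN0 : NO U0 := ⟨hU.1.inter Metric.isOpen_ball, ⟨y0, hy0, Metric.mem_ball_self (by positivity)⟩⟩
  have hbig : ∀ y ∈ U0, ∀ n, N ≤ n → √(RR T.P n [] y) < ‖y‖ := by
    intro y hy n hn
    have hd : ‖y - y0‖ < ‖y0‖ / 8 := by
      have := hy.2; rwa [Metric.mem_ball, dist_eq_norm] at this
    have h1 := T.sqrt_RR_sub_le n [] y y0
    have h2 := hN' n hn
    have h3 : ‖y0‖ - ‖y‖ ≤ ‖y - y0‖ := by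
      have := norm_sub_norm_le y0 y
      rwa [norm_sub_rev] at this
    linarith
  have hind : ∀ n : ℕ, (∃ m, ∃ U' ⊆ U0, NO U' ∧ ∀ y ∈ U', ‖y‖ ≤ √(RR T.P m [] y)) ∨
      (∃ U' ⊆ U0, NO U' ∧ ∀ y ∈ U', ∀ m < n, √(RR T.P m [] y) < ‖y‖) := by
    intro n
    induction n with
    | zero => right; exact ⟨U0, subset_rfl, hN0, fun y _ m hm => absurd hm (Nat.not_lt_zero m)⟩
    | succ n ih =>
      rcases ih with h | ⟨U1, hs1, hN1, h1⟩
      · exact Or.inl h
      · rcases split_open hN1 ((T.RR_cont n []).sqrt) (continuous_norm : Continuous fun y : Y => ‖y‖)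
          with h2 | ⟨U2, hs2, hN2, h2⟩
        · exact Or.inl ⟨n, U1, hs1, hN1, h2⟩
        · right
          refine ⟨U2, hs2.trans hs1, hN2, fun y hy m hm => ?_⟩
          rcases Nat.lt_succ_iff_lt_or_eq.mp hm with hlt | heq
          · exact h1 y (hs2 hy) m hlt
          · rw [heq]; exact h2 y hy
  rcases hind N with ⟨m, U1, hs1, hN1, h1⟩ | ⟨U1, hs1, hN1, h1⟩
  · exact ⟨U1, hs1.trans Set.inter_subset_left, hN1, m, fun y hy =>
      le_antisymm (h1 y hy) (T.sqrt_RR_le_norm m [] y)⟩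
  · exfalso
    obtain ⟨y, hy⟩ := hN1.2
    obtain ⟨n, hn⟩ := T.R_att y
    have h2 : ‖y‖ ≤ √(RR T.P n [] y) := Real.le_sqrt_of_sq_le hn
    rcases lt_or_ge n N with hlt | hge
    · exact absurd (h1 y hy n hlt) (not_lt.mpr h2)
    · exact absurd (hbig y (hs1 hy) n hge) (not_lt.mpr h2)

lemma flat_norm (T : TreeNorm Y) [Nontrivial Y] {U : Set Y} (hU : NO U) (δ : ℝ) (hδ : 0 < δ) :
    ∃ U' ⊆ U, NO U' ∧ Flat U' (fun y : Y => ‖y‖) (fun h => δ * ‖h‖) := by
  obtain ⟨U1, hs1, hN1, m, hm⟩ := T.norm_eq hU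
  obtain ⟨U2, hs2, hN2, r, hr, hF⟩ := T.flat_sqrt m [] hN1 δ hδ
  refine ⟨U2, hs2.trans hs1, hN2, r, hr, fun x h hx h1 h2 hn => ?_⟩
  rw [D2_congr hm (hs2 hx) (hs2 h1) (hs2 h2)]
  exact hF x h hx h1 h2 hn

end TreeNorm

/-- Frechet differentiability from small second differences -/
lemma differentiableAt_norm_of_flat (x : Y)
    (hx : ∀ ε : ℝ, 0 < ε → ∃ r : ℝ, 0 < r ∧ ∀ h : Y, ‖h‖ ≤ r → D2 (fun y : Y => ‖y‖) x h ≤ ε * ‖h‖) :
    DifferentiableAt ℝ (fun y : Y => ‖y‖) x := by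
  obtain ⟨f, hf1, hfx⟩ := exists_dual_vector'' ℝ x
  simp only [RCLike.ofReal_real_eq_id, id] at hfx
  have hfle : ∀ y, f y ≤ ‖y‖ := fun y => by
    calc f y ≤ ‖f y‖ := Real.le_norm_self _
      _ ≤ ‖f‖ * ‖y‖ := f.le_opNorm y
      _ ≤ 1 * ‖y‖ := mul_le_mul_of_nonneg_right hf1 (norm_nonneg y)
      _ = ‖y‖ := one_mul _
  refine ⟨f, ?_⟩
  rw [hasFDerivAt_iff_isLittleO_nhds_zero, Asymptotics.isLittleO_iff]
  intro ε hε
  obtain ⟨r, hr, hh⟩ := hx ε hε
  filter_upwards [Metric.closedBall_mem_nhds (0 : Y) hr] with h hmem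
  rw [Metric.mem_closedBall, dist_zero_right] at hmem
  have h1 := hh h hmem
  unfold D2 at h1
  have h2 := hfle (x + h)
  have h3 := hfle (x - h)
  rw [map_add, hfx] at h2
  rw [map_sub, hfx] at h3
  rw [Real.norm_eq_abs, abs_le]
  constructor
  · have : 0 ≤ ε * ‖h‖ := by positivity
    linarith
  · linarith

/-- main abstract theorem: a complete nontrivial space with a tree norm has a point of Frechet
differentiability of the norm -/
theorem TreeNorm.exists_differentiableAt [CompleteSpace Y] [Nontrivial Y] (T : TreeNorm Y) :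
    ∃ x : Y, DifferentiableAt ℝ (fun y : Y => ‖y‖) x := by
  let O : ℕ → Set Y := fun k =>
    ⋃₀ {U : Set Y | IsOpen U ∧ TreeNorm.Flat U (fun y : Y => ‖y‖) (fun h => (1 / ((k : ℝ) + 1)) * ‖h‖)}
  have hO : ∀ k, IsOpen (O k) := fun k => isOpen_sUnion fun U hU => hU.1
  have hD : ∀ k, Dense (O k) := by
    intro k
    rw [dense_iff_inter_open]
    intro U hU hne
    obtain ⟨U', hs, hN, hF⟩ := T.flat_norm (U := U) ⟨hU, hne⟩ (1 / ((k : ℝ) + 1)) (by positivity)
    obtain ⟨y, hy⟩ := hN.2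
    exact ⟨y, hs hy, U', ⟨hN.1, hF⟩, hy⟩
  have hdense := dense_iInter_of_isOpen_nat hO hD
  obtain ⟨x, hx⟩ := hdense.nonempty
  refine ⟨x, differentiableAt_norm_of_flat x fun ε hε => ?_⟩
  obtain ⟨k, hk⟩ := exists_nat_one_div_lt hε
  have hxk := Set.mem_iInter.mp hx k
  obtain ⟨U, ⟨hU, r, hr, hF⟩, hxU⟩ := hxk
  obtain ⟨ρ, hρ, hball⟩ := Metric.isOpen_iff.mp hU x hxU
  refine ⟨min r (ρ / 2), lt_min hr (by positivity), fun h hn => ?_⟩
  have hn1 : ‖h‖ ≤ r := hn.trans (min_le_left _ _)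
  have hn2 : ‖h‖ < ρ := lt_of_le_of_lt (hn.trans (min_le_right _ _)) (by linarith)
  have m1 : x + h ∈ U := hball (by rw [Metric.mem_ball, dist_eq_norm]; simpa using hn2)
  have m2 : x - h ∈ U := hball (by
    rw [Metric.mem_ball, dist_eq_norm]
    have : x - h - x = -h := by abel
    rw [this, norm_neg]; exact hn2)
  refine (hF x h hxU m1 m2 hn1).trans ?_
  exact mul_le_mul_of_nonneg_right hk.le (norm_nonneg h)

end Pool.Agent.Helper31.Tree
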