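import Pool.Agent.Helper31.TreeA

set_option autoImplicit false

namespace Pool.Agent.Helper31.Tree

open Filter Topology

/-! ### the recursion on functions on the tree -/

/-- the functional after `n` steps of the recursion -/
noncomputable def Pn : ℕ → List Bool → (List Bool → ℝ) → ℝ
  | 0, s, x => x s
  | n + 1, s, x => x s + max (max (Pn n (false :: s) x) (Pn n (true :: s) x))
      (2 / 3 * (max (Pn n (false :: s) x) (Pn n (false :: s) (-x)) +
        max (Pn n (true :: s) x) (Pn n (true :: s) (-x))))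

lemma Pn_succ (n : ℕ) (s : List Bool) (x : List Bool → ℝ) :
    Pn (n + 1) s x = x s + max (max (Pn n (false :: s) x) (Pn n (true :: s) x))
      (2 / 3 * (pp (Pn n) (false :: s) x + pp (Pn n) (true :: s) x)) := rfl

lemma max3_add {u v w u1 v1 w1 u2 v2 w2 : ℝ} (h1 : u ≤ u1 + u2) (h2 : v ≤ v1 + v2)
    (h3 : w ≤ w1 + w2) : max (max u v) w ≤ max (max u1 v1) w1 + max (max u2 v2) w2 := by
  have a1 := le_max_left (max u1 v1) w1
  have a2 := le_max_right (max u1 v1) w1
  have a3 := le_max_left u1 v1
  have a4 := le_max_right u1 v1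
  have b1 := le_max_left (max u2 v2) w2
  have b2 := le_max_right (max u2 v2) w2
  have b3 := le_max_left u2 v2
  have b4 := le_max_right u2 v2
  exact max_le (max_le (by linarith) (by linarith)) (by linarith)

lemma max2_add {u v u1 v1 u2 v2 : ℝ} (h1 : u ≤ u1 + u2) (h2 : v ≤ v1 + v2) :
    max u v ≤ max u1 v1 + max u2 v2 := by
  have a3 := le_max_left u1 v1
  have a4 := le_max_right u1 v1
  have b3 := le_max_left u2 v2
  have b4 := le_max_right u2 v2
  exact max_le (by linarith) (by linarith)

lemma Pn_add (n : ℕ) (s : List Bool) (x y : List Bool → ℝ) :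
    Pn n s (x + y) ≤ Pn n s x + Pn n s y := by
  induction n generalizing s x y with
  | zero => exact le_rfl
  | succ n ih =>
    have hpp : ∀ t, pp (Pn n) t (x + y) ≤ pp (Pn n) t x + pp (Pn n) t y := by
      intro t
      unfold pp
      apply max2_add (ih t x y)
      rw [neg_add]
      exact ih t (-x) (-y)
    rw [Pn_succ, Pn_succ, Pn_succ]
    have h := max3_add (ih (false :: s) x y) (ih (true :: s) x y)
      (show 2 / 3 * (pp (Pn n) (false :: s) (x + y) + pp (Pn n) (true :: s) (x + y)) ≤
        2 / 3 * (pp (Pn n) (false :: s) x + pp (Pn n) (true :: s) x) +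
        2 / 3 * (pp (Pn n) (false :: s) y + pp (Pn n) (true :: s) y) by
          linarith [hpp (false :: s), hpp (true :: s)])
    have e : (x + y) s = x s + y s := rfl
    rw [e]
    linarith

lemma Pn_smul (n : ℕ) (s : List Bool) (a : ℝ) (ha : 0 ≤ a) (x : List Bool → ℝ) :
    Pn n s (a • x) = a * Pn n s x := by
  induction n generalizing s x with
  | zero => rfl
  | succ n ih =>
    have hpp : ∀ t, pp (Pn n) t (a • x) = a * pp (Pn n) t x := by
      intro t
      unfold pp
      rw [← smul_neg, ih, ih, mul_max_of_nonneg _ _ ha]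
    rw [Pn_succ, Pn_succ, ih, ih, hpp, hpp]
    have e : (a • x) s = a * x s := rfl
    have h3 : 2 / 3 * (a * pp (Pn n) (false :: s) x + a * pp (Pn n) (true :: s) x) =
      a * (2 / 3 * (pp (Pn n) (false :: s) x + pp (Pn n) (true :: s) x)) := by ring
    rw [e, h3, ← mul_max_of_nonneg _ _ ha, ← mul_max_of_nonneg _ _ ha]
    ring

lemma Pn_van (D : ℕ) (x : List Bool → ℝ) (hx : ∀ t : List Bool, D ≤ t.length → x t = 0)
    (n : ℕ) (s : List Bool) (hs : D ≤ s.length) : Pn n s x = 0 := by
  induction n generalizing s x with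
  | zero => exact hx s hs
  | succ n ih =>
    have hx' : ∀ t : List Bool, D ≤ t.length → (-x) t = 0 := fun t ht => by
      show -(x t) = 0
      rw [hx t ht, neg_zero]
    have h0 : D ≤ (false :: s).length := by rw [List.length_cons]; omega
    have h1 : D ≤ (true :: s).length := by rw [List.length_cons]; omega
    rw [Pn_succ]
    unfold pp
    rw [ih x hx _ h0, ih x hx _ h1, ih (-x) hx' _ h0, ih (-x) hx' _ h1, hx s hs]
    simp

lemma Pn_stab (D : ℕ) (x : List Bool → ℝ) (hx : ∀ t : List Bool, D ≤ t.length → x t = 0)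
    (n : ℕ) (s : List Bool) (hs : D ≤ n + s.length) : Pn (n + 1) s x = Pn n s x := by
  induction n generalizing s x with
  | zero =>
    rw [Pn_van D x hx 1 s (by omega), Pn_van D x hx 0 s (by omega)]
  | succ n ih =>
    have hx' : ∀ t : List Bool, D ≤ t.length → (-x) t = 0 := fun t ht => by
      show -(x t) = 0
      rw [hx t ht, neg_zero]
    have h0 : D ≤ n + (false :: s).length := by rw [List.length_cons]; omega
    have h1 : D ≤ n + (true :: s).length := by rw [List.length_cons]; omega
    rw [Pn_succ (n + 1) s x, Pn_succ n s x]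
    unfold pp
    rw [ih x hx _ h0, ih x hx _ h1, ih (-x) hx' _ h0, ih (-x) hx' _ h1]

lemma Pn_stab' (D : ℕ) (x : List Bool → ℝ) (hx : ∀ t : List Bool, D ≤ t.length → x t = 0)
    (n m : ℕ) (hn : D ≤ n) (hnm : n ≤ m) (s : List Bool) : Pn m s x = Pn n s x := by
  induction m, hnm using Nat.le_induction with
  | base => rfl
  | succ m hm ih => rw [Pn_stab D x hx m s (by omega), ih]

/-! ### sublinear families -/

/-- a family of sublinear functions indexed by the tree -/
structure Sub {E : Type*} [AddCommGroup E] [Module ℝ E] (P : List Bool → E → ℝ) : Prop where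
  add : ∀ s x y, P s (x + y) ≤ P s x + P s y
  smul : ∀ s (a : ℝ) x, 0 ≤ a → P s (a • x) = a * P s x

namespace Sub

variable {E : Type*} [AddCommGroup E] [Module ℝ E] {P : List Bool → E → ℝ} (H : Sub P)

include H

lemma zero (s : List Bool) : P s 0 = 0 := by
  have := H.smul s 0 0 le_rfl
  simpa using this

lemma pp_nonneg (s : List Bool) (x : E) : 0 ≤ pp P s x := by
  have h := H.add s x (-x)
  rw [add_neg_cancel, H.zero] at h
  have h1 : P s x ≤ pp P s x := le_max_left _ _
  have h2 : P s (-x) ≤ pp P s x := le_max_right _ _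
  linarith

omit [Module ℝ E] H in
lemma pp_neg (s : List Bool) (x : E) : pp P s (-x) = pp P s x := by
  unfold pp
  rw [neg_neg, max_comm]

lemma pp_add (s : List Bool) (x y : E) : pp P s (x + y) ≤ pp P s x + pp P s y := by
  unfold pp
  apply max2_add (H.add s x y)
  rw [neg_add]
  exact H.add s (-x) (-y)

lemma pp_smul (s : List Bool) (a : ℝ) (x : E) : pp P s (a • x) = |a| * pp P s x := by
  rcases le_or_gt 0 a with ha | ha
  · unfold pp
    rw [← smul_neg, H.smul s a x ha, H.smul s a (-x) ha, abs_of_nonneg ha,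
      mul_max_of_nonneg _ _ ha]
  · have e : a • x = -((-a) • x) := by simp
    rw [e, pp_neg]
    unfold pp
    rw [← smul_neg, H.smul s (-a) x (by linarith), H.smul s (-a) (-x) (by linarith),
      abs_of_neg ha, mul_max_of_nonneg _ _ (by linarith)]

omit [Module ℝ E] H in
lemma RR_nonneg (n : ℕ) (s : List Bool) (x : E) : 0 ≤ RR P n s x := by
  induction n generalizing s with
  | zero => exact sq_nonneg _
  | succ n ih => exact add_nonneg (ih _) (ih _)

lemma RR_smul (n : ℕ) (s : List Bool) (a : ℝ) (x : E) : RR P n s (a • x) = a ^ 2 * RR P n s x := by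
  induction n generalizing s with
  | zero =>
    show (pp P s (a • x)) ^ 2 = a ^ 2 * (pp P s x) ^ 2
    rw [H.pp_smul, mul_pow, sq_abs]
  | succ n ih =>
    show RR P n _ (a • x) + RR P n _ (a • x) = a ^ 2 * (RR P n _ x + RR P n _ x)
    rw [ih, ih]; ring

lemma sqrt_RR_add (n : ℕ) (s : List Bool) (x y : E) :
    √(RR P n s (x + y)) ≤ √(RR P n s x) + √(RR P n s y) := by
  induction n generalizing s with
  | zero =>
    show √((pp P s (x + y)) ^ 2) ≤ √((pp P s x) ^ 2) + √((pp P s y) ^ 2)
    rw [Real.sqrt_sq (H.pp_nonneg _ _), Real.sqrt_sq (H.pp_nonneg _ _),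
      Real.sqrt_sq (H.pp_nonneg _ _)]
    exact H.pp_add s x y
  | succ n ih =>
    have e : ∀ z, √(RR P (n + 1) s z) =
        √((√(RR P n (false :: s) z)) ^ 2 + (√(RR P n (true :: s) z)) ^ 2) := by
      intro z
      rw [Real.sq_sqrt (RR_nonneg _ _ _), Real.sq_sqrt (RR_nonneg _ _ _)]
      rfl
    rw [e, e, e]
    exact le_trans (TreeNorm.sqrt_mono2 (Real.sqrt_nonneg _) (Real.sqrt_nonneg _)
      (ih (false :: s)) (ih (true :: s))) (TreeNorm.minkowski2 _ _ _ _)

omit [Module ℝ E] H in
lemma RR_child (n : ℕ) (b : Bool) (s : List Bool) (x : E) :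
    RR P n (b :: s) x ≤ RR P (n + 1) s x := by
  have h0 := RR_nonneg (P := P) n (false :: s) x
  have h1 := RR_nonneg (P := P) n (true :: s) x
  show _ ≤ RR P n (false :: s) x + RR P n (true :: s) x
  cases b <;> linarith

omit [Module ℝ E] H in
lemma RR_root (n : ℕ) (s : List Bool) (x : E) :
    RR P n s x ≤ RR P (n + s.length) [] x := by
  induction s generalizing n with
  | nil => simp
  | cons b s ih =>
    refine (RR_child n b s x).trans ((ih (n + 1)).trans ?_)
    rw [List.length_cons]
    have : n + 1 + s.length = n + (s.length + 1) := by ring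
    rw [this]

end Sub


/-! ### the base space -/

/-- finitely supported functions on the tree -/
def E0 : Type := List Bool →₀ ℝ

noncomputable instance : AddCommGroup E0 := inferInstanceAs (AddCommGroup (List Bool →₀ ℝ))
noncomputable instance : Module ℝ E0 := inferInstanceAs (Module ℝ (List Bool →₀ ℝ))

/-- evaluation -/
def ev (x : E0) : List Bool → ℝ := fun t => (show List Bool →₀ ℝ from x) t

lemma ev_add (x y : E0) : ev (x + y) = ev x + ev y := by
  funext t; exact Finsupp.add_apply _ _ _

lemma ev_neg (x : E0) : ev (-x) = -ev x := by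
  funext t; exact Finsupp.neg_apply _ _

lemma ev_smul (a : ℝ) (x : E0) : ev (a • x) = a • ev x := by
  funext t; exact Finsupp.smul_apply _ _ _

/-- a level beyond which the vector vanishes -/
def lev (x : E0) : ℕ := (show List Bool →₀ ℝ from x).support.sup List.length + 1

lemma lev_spec (x : E0) (t : List Bool) (ht : lev x ≤ t.length) : ev x t = 0 := by
  by_contra hne
  have hmem : t ∈ (show List Bool →₀ ℝ from x).support := Finsupp.mem_support_iff.mpr hne
  have := Finset.le_sup (f := List.length) hmem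
  unfold lev at ht
  omega

/-- the functionals on the base space -/
noncomputable def P0 (s : List Bool) (x : E0) : ℝ := Pn (lev x) s (ev x)

lemma P0_eq (D : ℕ) (x : E0) (hx : ∀ t : List Bool, D ≤ t.length → ev x t = 0) (n : ℕ)
    (hn : D ≤ n) (s : List Bool) : P0 s x = Pn n s (ev x) := by
  have h1 := Pn_stab' D (ev x) hx n (max n (lev x)) hn (le_max_left _ _) s
  have h2 := Pn_stab' (lev x) (ev x) (lev_spec x) (lev x) (max n (lev x)) le_rfl (le_max_right _ _) s
  unfold P0
  rw [← h1, ← h2]

lemma P0_sub : Sub P0 where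
  add s x y := by
    set D := max (lev x) (lev y)
    have hx : ∀ t : List Bool, D ≤ t.length → ev x t = 0 := fun t ht =>
      lev_spec x t ((le_max_left _ _).trans ht)
    have hy : ∀ t : List Bool, D ≤ t.length → ev y t = 0 := fun t ht =>
      lev_spec y t ((le_max_right _ _).trans ht)
    have hxy : ∀ t : List Bool, D ≤ t.length → ev (x + y) t = 0 := fun t ht => by
      rw [ev_add]
      show ev x t + ev y t = 0
      rw [hx t ht, hy t ht, add_zero]
    rw [P0_eq D _ hxy D le_rfl, P0_eq D _ hx D le_rfl, P0_eq D _ hy D le_rfl, ev_add]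
    exact Pn_add D s _ _
  smul s a x ha := by
    have hx : ∀ t : List Bool, lev x ≤ t.length → ev (a • x) t = 0 := fun t ht => by
      rw [ev_smul]
      show a * ev x t = 0
      rw [lev_spec x t ht, mul_zero]
    rw [P0_eq (lev x) _ hx (lev x) le_rfl, P0_eq (lev x) _ (lev_spec x) (lev x) le_rfl, ev_smul]
    exact Pn_smul _ s a ha _

lemma P0_rec (s : List Bool) (x : E0) : P0 s x = ev x s +
    max (max (P0 (false :: s) x) (P0 (true :: s) x))
      (2 / 3 * (pp P0 (false :: s) x + pp P0 (true :: s) x)) := by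
  have hx' : ∀ t : List Bool, lev x ≤ t.length → ev (-x) t = 0 := fun t ht => by
    rw [ev_neg]
    show -(ev x t) = 0
    rw [lev_spec x t ht, neg_zero]
  have h1 : ∀ t, P0 t x = Pn (lev x) t (ev x) := fun t => rfl
  have h2 : ∀ t, P0 t (-x) = Pn (lev x) t (-(ev x)) := fun t => by
    rw [P0_eq (lev x) _ hx' (lev x) le_rfl, ev_neg]
  rw [P0_eq (lev x) x (lev_spec x) (lev x + 1) (by omega) s, Pn_succ]
  unfold pp
  rw [h1, h1, h2, h2]

lemma P0_van (x : E0) (s : List Bool) (hs : lev x ≤ s.length) : P0 s x = 0 :=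
  Pn_van (lev x) (ev x) (lev_spec x) _ s hs

lemma pp0_van (x : E0) (s : List Bool) (hs : lev x ≤ s.length) : pp P0 s x = 0 := by
  have h1 := P0_van x s hs
  have h2 : P0 s (-x) = 0 := by
    have hx' : ∀ t : List Bool, lev x ≤ t.length → ev (-x) t = 0 := fun t ht => by
      rw [ev_neg]
      show -(ev x t) = 0
      rw [lev_spec x t ht, neg_zero]
    rw [P0_eq (lev x) _ hx' (lev x) le_rfl]
    exact Pn_van (lev x) _ hx' _ s hs
  unfold pp
  rw [h1, h2, max_self]

lemma RR0_van (x : E0) (n : ℕ) (s : List Bool) (hs : lev x ≤ n + s.length) : RR P0 n s x = 0 := by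
  induction n generalizing s with
  | zero =>
    show (pp P0 s x) ^ 2 = 0
    rw [pp0_van x s (by omega)]; norm_num
  | succ n ih =>
    show RR P0 n (false :: s) x + RR P0 n (true :: s) x = 0
    rw [ih _ (by rw [List.length_cons]; omega), ih _ (by rw [List.length_cons]; omega), add_zero]

lemma bdd (x : E0) : BddAbove (Set.range fun n => √(RR P0 n [] x)) := by
  refine ⟨∑ i ∈ Finset.range (lev x), √(RR P0 i [] x), ?_⟩
  rintro _ ⟨n, rfl⟩
  simp only []
  rcases lt_or_ge n (lev x) with h | h
  · exact Finset.single_le_sum (f := fun i => √(RR P0 i [] x)) (fun i _ => Real.sqrt_nonneg _)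
      (Finset.mem_range.mpr h)
  · rw [RR0_van x n [] (by simpa using h), Real.sqrt_zero]
    exact Finset.sum_nonneg fun i _ => Real.sqrt_nonneg _

noncomputable instance : Norm E0 := ⟨fun x => ⨆ n, √(RR P0 n [] x)⟩

lemma norm_def (x : E0) : ‖x‖ = ⨆ n, √(RR P0 n [] x) := rfl

lemma sqrt_RR0_le (n : ℕ) (x : E0) : √(RR P0 n [] x) ≤ ‖x‖ := le_ciSup (bdd x) n

lemma core : SeminormedSpace.Core ℝ E0 where
  norm_nonneg x := le_trans (Real.sqrt_nonneg _) (sqrt_RR0_le 0 x)
  norm_smul a x := by
    rw [norm_def, norm_def, Real.norm_eq_abs, Real.mul_iSup_of_nonneg (abs_nonneg a)]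
    congr 1
    funext n
    rw [P0_sub.RR_smul, Real.sqrt_mul (sq_nonneg a), Real.sqrt_sq_eq_abs]
  norm_triangle x y := by
    rw [norm_def]
    apply ciSup_le
    intro n
    exact (P0_sub.sqrt_RR_add n [] x y).trans (add_le_add (sqrt_RR0_le n x) (sqrt_RR0_le n y))

noncomputable instance : SeminormedAddCommGroup E0 := SeminormedAddCommGroup.ofCore core

noncomputable instance : NormedSpace ℝ E0 where
  norm_smul_le a x := (core.norm_smul a x).le

/-- the Banach space -/
abbrev X : Type := UniformSpace.Completion E0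


/-! ### extension to the completion -/

lemma pp0_le_norm (s : List Bool) (x : E0) : pp P0 s x ≤ ‖x‖ := by
  have h1 : RR P0 0 s x ≤ RR P0 (0 + s.length) [] x := Sub.RR_root 0 s x
  have h2 := sqrt_RR0_le (0 + s.length) x
  have h3 := Real.sqrt_le_sqrt h1
  have h4 : √(RR P0 0 s x) = pp P0 s x := Real.sqrt_sq (P0_sub.pp_nonneg s x)
  rw [h4] at h3
  exact h3.trans h2

lemma P0_sub_le (s : List Bool) (x y : E0) : P0 s x - P0 s y ≤ ‖x - y‖ := by
  have h := P0_sub.add s y (x - y)
  rw [add_sub_cancel] at h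
  have h1 : P0 s (x - y) ≤ pp P0 s (x - y) := le_max_left _ _
  have h2 := pp0_le_norm s (x - y)
  linarith

lemma P0_lip (s : List Bool) : LipschitzWith 1 (P0 s) := by
  apply LipschitzWith.of_dist_le_mul
  intro x y
  rw [Real.dist_eq, dist_eq_norm]
  have h1 := P0_sub_le s x y
  have h2 := P0_sub_le s y x
  rw [norm_sub_rev] at h2
  rw [NNReal.coe_one, one_mul, abs_le]
  constructor <;> linarith

/-- the functionals on the completion -/
noncomputable def PX (s : List Bool) : X → ℝ := UniformSpace.Completion.extension (P0 s)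

lemma PX_coe (s : List Bool) (x : E0) : PX s (x : X) = P0 s x :=
  UniformSpace.Completion.extension_coe (P0_lip s).uniformContinuous x

lemma PX_cont (s : List Bool) : Continuous (PX s) :=
  UniformSpace.Completion.continuous_extension

lemma PX_sub : Sub PX where
  add s x y := by
    induction x, y using UniformSpace.Completion.induction_on₂ with
    | hp =>
      exact isClosed_le ((PX_cont s).comp (continuous_fst.add continuous_snd))
        (((PX_cont s).comp continuous_fst).add ((PX_cont s).comp continuous_snd))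
    | ih x y =>
      rw [← UniformSpace.Completion.coe_add, PX_coe, PX_coe, PX_coe]
      exact P0_sub.add s x y
  smul s a x ha := by
    induction x using UniformSpace.Completion.induction_on with
    | hp =>
      exact isClosed_eq ((PX_cont s).comp (continuous_const_smul a))
        (continuous_const.mul (PX_cont s))
    | ih x =>
      rw [← UniformSpace.Completion.coe_smul, PX_coe, PX_coe]
      exact P0_sub.smul s a x ha

lemma ppX_coe (s : List Bool) (x : E0) : pp PX s (x : X) = pp P0 s x := by
  unfold pp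
  rw [← UniformSpace.Completion.coe_neg, PX_coe, PX_coe]

lemma ppX_cont (s : List Bool) : Continuous (pp PX s) :=
  (PX_cont s).max ((PX_cont s).comp continuous_neg)

lemma RRX_coe (n : ℕ) (s : List Bool) (x : E0) : RR PX n s (x : X) = RR P0 n s x := by
  induction n generalizing s with
  | zero => show (pp PX s (x : X)) ^ 2 = (pp P0 s x) ^ 2; rw [ppX_coe]
  | succ n ih =>
    show RR PX n _ (x : X) + RR PX n _ (x : X) = RR P0 n _ x + RR P0 n _ x
    rw [ih, ih]

lemma RRX_cont (n : ℕ) (s : List Bool) : Continuous (RR PX n s) := by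
  induction n generalizing s with
  | zero => exact (ppX_cont s).pow 2
  | succ n ih => exact (ih _).add (ih _)

lemma RRX_le (n : ℕ) (z : X) : RR PX n [] z ≤ ‖z‖ ^ 2 := by
  induction z using UniformSpace.Completion.induction_on with
  | hp => exact isClosed_le (RRX_cont n []) (continuous_norm.pow 2)
  | ih x =>
    rw [RRX_coe, UniformSpace.Completion.norm_coe]
    have h := sqrt_RR0_le n x
    have h0 : 0 ≤ ‖x‖ := le_trans (Real.sqrt_nonneg _) h
    exact (Real.sqrt_le_left h0).mp h

lemma sqrt_RRX_le (n : ℕ) (z : X) : √(RR PX n [] z) ≤ ‖z‖ :=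
  (Real.sqrt_le_left (norm_nonneg z)).mpr (RRX_le n z)

lemma sqrt_RRX_sub_le (n : ℕ) (x y : X) :
    √(RR PX n [] x) ≤ √(RR PX n [] y) + ‖x - y‖ := by
  have h := PX_sub.sqrt_RR_add n [] y (x - y)
  rw [add_sub_cancel] at h
  have := sqrt_RRX_le n (x - y)
  linarith

lemma exists_approx (z : X) (δ : ℝ) (hδ : 0 < δ) : ∃ e : E0, ‖z - (e : X)‖ < δ := by
  have h := (UniformSpace.Completion.denseRange_coe (α := E0)).exists_dist_lt z hδ
  obtain ⟨e, he⟩ := h
  exact ⟨e, by rwa [dist_eq_norm] at he⟩

lemma RRX_zero (z : X) (ε : ℝ) (hε : 0 < ε) : ∃ N, ∀ n, N ≤ n → √(RR PX n [] z) ≤ ε := by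
  obtain ⟨e, he⟩ := exists_approx z ε hε
  refine ⟨lev e, fun n hn => ?_⟩
  have h := sqrt_RRX_sub_le n z e
  rw [RRX_coe, RR0_van e n [] (by simpa using hn), Real.sqrt_zero] at h
  linarith

lemma RRX_att (z : X) : ∃ n, ‖z‖ ^ 2 ≤ RR PX n [] z := by
  by_contra hcon
  push Not at hcon
  have hlt : ∀ n, √(RR PX n [] z) < ‖z‖ := by
    intro n
    rw [Real.sqrt_lt' ]
    · exact hcon n
    · by_contra h0
      have h1 : ‖z‖ = 0 := le_antisymm (not_lt.mp h0) (norm_nonneg z)
      have h2 := hcon n
      rw [h1] at h2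
      have h3 : 0 ≤ RR PX n [] z := Sub.RR_nonneg n [] z
      norm_num at h2
      linarith
  have hpos : 0 < ‖z‖ := lt_of_le_of_lt (Real.sqrt_nonneg _) (hlt 0)
  obtain ⟨N, hN⟩ := RRX_zero z (‖z‖ / 2) (by linarith)
  have hfin : ∀ m : ℕ, ∃ M < ‖z‖, ∀ n < m, √(RR PX n [] z) ≤ M := by
    intro m
    induction m with
    | zero => exact ⟨‖z‖ / 2, by linarith, fun n hn => by omega⟩
    | succ m ih =>
      obtain ⟨M, hM, hMn⟩ := ih
      refine ⟨max M (√(RR PX m [] z)), max_lt hM (hlt m), fun n hn => ?_⟩
      rcases Nat.lt_succ_iff_lt_or_eq.mp hn with h | h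
      · exact (hMn n h).trans (le_max_left _ _)
      · rw [h]; exact le_max_right _ _
  obtain ⟨M, hM, hMn⟩ := hfin N
  set M' := max M (‖z‖ / 2) with hM'
  have hM'lt : M' < ‖z‖ := max_lt hM (by linarith)
  have hall : ∀ n, √(RR PX n [] z) ≤ M' := by
    intro n
    rcases lt_or_ge n N with h | h
    · exact (hMn n h).trans (le_max_left _ _)
    · exact (hN n h).trans (le_max_right _ _)
  obtain ⟨e, he⟩ := exists_approx z ((‖z‖ - M') / 2) (by linarith)
  have h1 : ‖(e : X)‖ ≤ M' + ‖z - (e : X)‖ := by
    rw [UniformSpace.Completion.norm_coe, norm_def]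
    apply ciSup_le
    intro n
    rw [← RRX_coe]
    have h := sqrt_RRX_sub_le n (e : X) z
    rw [norm_sub_rev] at h
    linarith [hall n]
  have h2 : ‖z‖ ≤ ‖(e : X)‖ + ‖z - (e : X)‖ := by
    have := norm_add_le (e : X) (z - (e : X))
    rwa [add_sub_cancel] at this
  linarith

/-- the coordinate functionals on the completion -/
noncomputable def kX (s : List Bool) (z : X) : ℝ :=
  PX s z - max (max (PX (false :: s) z) (PX (true :: s) z))
      (2 / 3 * (pp PX (false :: s) z + pp PX (true :: s) z))

lemma kX_cont (s : List Bool) : Continuous (kX s) :=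
  (PX_cont s).sub (((PX_cont _).max (PX_cont _)).max
    (continuous_const.mul ((ppX_cont _).add (ppX_cont _))))

lemma kX_coe (s : List Bool) (x : E0) : kX s (x : X) = ev x s := by
  unfold kX
  rw [PX_coe, PX_coe, PX_coe, ppX_coe, ppX_coe, P0_rec s x]
  ring

/-- the coordinate functionals as linear maps -/
noncomputable def κX (s : List Bool) : X →ₗ[ℝ] ℝ where
  toFun := kX s
  map_add' x y := by
    induction x, y using UniformSpace.Completion.induction_on₂ with
    | hp =>
      exact isClosed_eq ((kX_cont s).comp (continuous_fst.add continuous_snd))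
        (((kX_cont s).comp continuous_fst).add ((kX_cont s).comp continuous_snd))
    | ih x y =>
      rw [← UniformSpace.Completion.coe_add, kX_coe, kX_coe, kX_coe, ev_add]
      rfl
  map_smul' a x := by
    induction x using UniformSpace.Completion.induction_on with
    | hp =>
      exact isClosed_eq ((kX_cont s).comp (continuous_const_smul a))
        (continuous_const.mul (kX_cont s))
    | ih x =>
      rw [← UniformSpace.Completion.coe_smul, kX_coe, kX_coe, ev_smul]
      rfl

lemma κX_coe (s : List Bool) (x : E0) : κX s (x : X) = ev x s := kX_coe s x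

/-- the completion carries a tree norm -/
noncomputable def treeX : TreeNorm X where
  κ := κX
  P := PX
  P_add := PX_sub.add
  P_smul := PX_sub.smul
  P_rec s x := by
    show PX s x = kX s x + _
    unfold kX
    ring
  R_le := RRX_le
  R_zero z ε hε := by
    obtain ⟨N, hN⟩ := RRX_zero z (√ε) (Real.sqrt_pos.mpr hε)
    refine ⟨N, fun n hn => ?_⟩
    exact (Real.sqrt_le_sqrt_iff hε.le).mp (hN n hn)
  R_att := RRX_att

/-- restriction to a subspace -/
noncomputable def TreeNorm.restrict {Z : Type*} [NormedAddCommGroup Z] [NormedSpace ℝ Z]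
    (T : TreeNorm Z) (Y : Submodule ℝ Z) : TreeNorm Y :=
  have hRR : ∀ (n : ℕ) (s : List Bool) (y : Y),
      RR (fun s (y : Y) => T.P s (y : Z)) n s y = RR T.P n s (y : Z) := by
    intro n
    induction n with
    | zero => intro s y; rfl
    | succ n ih =>
      intro s y
      show RR _ n _ y + RR _ n _ y = RR T.P n _ (y : Z) + RR T.P n _ (y : Z)
      rw [ih, ih]
  { κ := fun s => (T.κ s).comp Y.subtype
    P := fun s y => T.P s (y : Z)
    P_add := fun s x y => T.P_add s x y
    P_smul := fun s a x ha => T.P_smul s a x ha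
    P_rec := fun s x => T.P_rec s x
    R_le := fun n x => by rw [hRR]; exact T.R_le n x
    R_zero := fun x ε hε => by
      obtain ⟨N, hN⟩ := T.R_zero (x : Z) ε hε
      exact ⟨N, fun n hn => by rw [hRR]; exact hN n hn⟩
    R_att := fun x => by
      obtain ⟨n, hn⟩ := T.R_att (x : Z)
      exact ⟨n, by rw [hRR]; exact hn⟩ }

theorem frechet_somewhere (Y : Submodule ℝ X) (hY : IsClosed (Y : Set X)) (hne : Y ≠ ⊥) :
    ∃ y : Y, DifferentiableAt ℝ (fun z : Y => ‖z‖) y := by
  have : CompleteSpace Y := hY.completeSpace_coe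
  have : Nontrivial Y := Submodule.nontrivial_iff_ne_bot.mpr hne
  exact (treeX.restrict Y).exists_differentiableAt

end Pool.Agent.Helper31.Tree
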