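import Pool.Agent.Helper31.TreeB

set_option autoImplicit false

namespace Pool.Agent.Helper31.Tree

open Filter Topology

/-! ### separability -/

/-- basis vector of the base space -/
noncomputable def bv (t : List Bool) : E0 := (Finsupp.single t (1 : ℝ) : List Bool →₀ ℝ)

lemma smul_bv (t : List Bool) (a : ℝ) :
    a • bv t = (Finsupp.single t a : List Bool →₀ ℝ) := by
  have h : (a • (Finsupp.single t (1 : ℝ) : List Bool →₀ ℝ)) = Finsupp.single t a := by
    rw [Finsupp.smul_single, smul_eq_mul, mul_one]
  exact h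

lemma span_bv : Submodule.span ℝ (Set.range bv) = ⊤ := by
  rw [eq_top_iff]
  have key : ∀ f : List Bool →₀ ℝ, (id f : E0) ∈ Submodule.span ℝ (Set.range bv) := by
    intro f
    induction f using Finsupp.induction_linear with
    | zero => exact Submodule.zero_mem _
    | add f g hf hg => exact Submodule.add_mem _ hf hg
    | single t a =>
      have h : a • bv t ∈ Submodule.span ℝ (Set.range bv) :=
        Submodule.smul_mem _ a (Submodule.subset_span ⟨t, rfl⟩)
      rw [smul_bv] at h
      exact h
  intro x _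
  exact key x

instance : TopologicalSpace.SeparableSpace E0 := by
  rw [← TopologicalSpace.isSeparable_univ_iff]
  have h : TopologicalSpace.IsSeparable (Submodule.span ℝ (Set.range bv) : Set E0) :=
    (Set.countable_range bv).isSeparable.span (R := ℝ)
  rw [span_bv] at h
  exact h

/-! ### norm of basis vectors -/

lemma ev_bv (t s : List Bool) : ev (bv t) s = if t = s then 1 else 0 := by
  unfold ev bv
  exact Finsupp.single_apply

lemma not_suffix_cons {b : Bool} {s t : List Bool} (h : ¬ s <:+ t) : ¬ (b :: s) <:+ t :=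
  fun h' => h ((List.suffix_cons b s).trans h')

lemma Pn_not_suffix (t : List Bool) (a : ℝ) (n : ℕ) (s : List Bool) (h : ¬ s <:+ t) :
    Pn n s (a • ev (bv t)) = 0 := by
  induction n generalizing s a with
  | zero =>
    show a * ev (bv t) s = 0
    rw [ev_bv, if_neg, mul_zero]
    rintro rfl
    exact h List.suffix_rfl
  | succ n ih =>
    have e : -(a • ev (bv t)) = (-a) • ev (bv t) := by rw [neg_smul]
    rw [Pn_succ]
    unfold pp
    rw [e, ih a _ (not_suffix_cons h), ih a _ (not_suffix_cons h), ih (-a) _ (not_suffix_cons h),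
      ih (-a) _ (not_suffix_cons h)]
    have : (a • ev (bv t)) s = 0 := by
      show a * ev (bv t) s = 0
      rw [ev_bv, if_neg, mul_zero]
      rintro rfl
      exact h List.suffix_rfl
    rw [this]; simp

lemma one_child {s t : List Bool} (h0 : (false :: s) <:+ t) (h1 : (true :: s) <:+ t) : False := by
  have := List.suffix_of_suffix_length_le h0 h1 (by simp)
  have h2 := this.eq_of_length (by simp)
  simp at h2

lemma Pn_bv_le (t : List Bool) (a : ℝ) (ha : |a| ≤ 1) (n : ℕ) (s : List Bool) :
    Pn n s (a • ev (bv t)) ≤ 1 := by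
  have ha' := abs_le.mp ha
  induction n generalizing s a with
  | zero =>
    show a * ev (bv t) s ≤ 1
    rw [ev_bv]
    split_ifs <;> linarith
  | succ n ih =>
    have e : -(a • ev (bv t)) = (-a) • ev (bv t) := by rw [neg_smul]
    have hna : |-a| ≤ 1 := by rwa [abs_neg]
    have hna' : -1 ≤ -a ∧ -a ≤ 1 := by constructor <;> linarith [ha'.1, ha'.2]
    rw [Pn_succ]
    unfold pp
    rw [e]
    by_cases hst : t = s
    · subst hst
      have hb : ∀ b : Bool, ¬ (b :: t) <:+ t := by
        intro b hb
        have := hb.length_le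
        simp at this
      rw [Pn_not_suffix t a n _ (hb false), Pn_not_suffix t a n _ (hb true),
        Pn_not_suffix t (-a) n _ (hb false), Pn_not_suffix t (-a) n _ (hb true)]
      show a * ev (bv t) t + _ ≤ 1
      rw [ev_bv, if_pos rfl]
      simp
      linarith
    · have h0 : (a • ev (bv t)) s = 0 := by
        show a * ev (bv t) s = 0
        rw [ev_bv, if_neg hst, mul_zero]
      rw [h0]
      have i1 := ih a ha (false :: s) ha'
      have i2 := ih a ha (true :: s) ha'
      have i3 := ih (-a) hna (false :: s) hna'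
      have i4 := ih (-a) hna (true :: s) hna'
      by_cases hf : (false :: s) <:+ t
      · have ht : ¬ (true :: s) <:+ t := fun h => one_child hf h
        rw [Pn_not_suffix t a n _ ht, Pn_not_suffix t (-a) n _ ht]
        have : max (Pn n (false :: s) (a • ev (bv t))) (Pn n (false :: s) (-a • ev (bv t))) ≤ 1 :=
          max_le i1 i3
        rw [zero_add]
        apply max_le (max_le i1 (by norm_num))
        rw [max_self]
        linarith
      · rw [Pn_not_suffix t a n _ hf, Pn_not_suffix t (-a) n _ hf]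
        have : max (Pn n (true :: s) (a • ev (bv t))) (Pn n (true :: s) (-a • ev (bv t))) ≤ 1 :=
          max_le i2 i4
        rw [zero_add]
        apply max_le (max_le (by norm_num) i2)
        rw [max_self]
        linarith

lemma pp0_bv_le (t s : List Bool) : pp P0 s (bv t) ≤ 1 := by
  unfold pp
  apply max_le
  · have := Pn_bv_le t 1 (by norm_num) (lev (bv t)) s
    rw [one_smul] at this
    exact this
  · have := Pn_bv_le t (-1) (by norm_num) (lev (-bv t)) s
    rw [neg_smul, one_smul, ← ev_neg] at this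
    exact this

lemma pp0_bv_zero (t s : List Bool) (h : ¬ s <:+ t) : pp P0 s (bv t) = 0 := by
  unfold pp
  have h1 : P0 s (bv t) = 0 := by
    have := Pn_not_suffix t 1 (lev (bv t)) s h
    rw [one_smul] at this
    exact this
  have h2 : P0 s (-bv t) = 0 := by
    have := Pn_not_suffix t (-1) (lev (-bv t)) s h
    rw [neg_smul, one_smul, ← ev_neg] at this
    exact this
  rw [h1, h2, max_self]

lemma RR0_bv_zero (t : List Bool) (n : ℕ) (s : List Bool) (h : ¬ s <:+ t) :
    RR P0 n s (bv t) = 0 := by
  induction n generalizing s with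
  | zero => show (pp P0 s (bv t)) ^ 2 = 0; rw [pp0_bv_zero t s h]; norm_num
  | succ n ih =>
    show RR P0 n (false :: s) (bv t) + RR P0 n (true :: s) (bv t) = 0
    rw [ih _ (not_suffix_cons h), ih _ (not_suffix_cons h), add_zero]

lemma RR0_bv_le (t : List Bool) (n : ℕ) (s : List Bool) : RR P0 n s (bv t) ≤ 1 := by
  induction n generalizing s with
  | zero =>
    show (pp P0 s (bv t)) ^ 2 ≤ 1
    have h1 := pp0_bv_le t s
    have h0 := P0_sub.pp_nonneg s (bv t)
    nlinarith
  | succ n ih =>
    show RR P0 n (false :: s) (bv t) + RR P0 n (true :: s) (bv t) ≤ 1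
    by_cases hf : (false :: s) <:+ t
    · have ht : ¬ (true :: s) <:+ t := fun h => one_child hf h
      rw [RR0_bv_zero t n _ ht, add_zero]
      exact ih _
    · rw [RR0_bv_zero t n _ hf, zero_add]
      exact ih _

lemma norm_bv_le (t : List Bool) : ‖((bv t : E0) : X)‖ ≤ 1 := by
  rw [UniformSpace.Completion.norm_coe, norm_def]
  apply ciSup_le
  intro n
  rw [Real.sqrt_le_left zero_le_one, one_pow]
  exact RR0_bv_le t n []

/-! ### branch functionals -/

/-- initial segments of a branch -/
def br (σ : ℕ → Bool) : ℕ → List Bool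
  | 0 => []
  | n + 1 => σ n :: br σ n

lemma br_length (σ : ℕ → Bool) (n : ℕ) : (br σ n).length = n := by
  induction n with
  | zero => rfl
  | succ n ih => show (σ n :: br σ n).length = n + 1; rw [List.length_cons, ih]

lemma sum_br_le_P (σ : ℕ → Bool) (z : X) (k m : ℕ) :
    ∑ i ∈ Finset.range (k + 1), κX (br σ (m + i)) z ≤ treeX.P (br σ m) z := by
  induction k generalizing m with
  | zero =>
    have h : κX (br σ m) z ≤ treeX.P (br σ m) z := treeX.P_ge_κ (br σ m) z
    simpa using h
  | succ k ih =>
    rw [Finset.sum_range_succ']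
    have h := ih (m + 1)
    have h2 := treeX.P_ge_child (br σ m) (σ m) z
    have h3 : ∀ i, m + 1 + i = m + (i + 1) := fun i => by ring
    simp only [h3] at h
    have h4 : treeX.P (br σ (m + 1)) z = treeX.P (σ m :: br σ m) z := rfl
    have h5 : treeX.κ (br σ m) z = κX (br σ (m + 0)) z := rfl
    linarith

lemma sum_br_abs (σ : ℕ → Bool) (z : X) (k m : ℕ) :
    |∑ i ∈ Finset.range k, κX (br σ (m + i)) z| ≤ pp treeX.P (br σ m) z := by
  cases k with
  | zero => simpa using treeX.pp_nonneg (br σ m) z
  | succ k =>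
    have h1 := sum_br_le_P σ z k m
    have h2 := sum_br_le_P σ (-z) k m
    have h3 := treeX.P_le_pp (br σ m) z
    have h4 := treeX.P_neg_le_pp (br σ m) z
    have h5 : ∑ i ∈ Finset.range (k + 1), κX (br σ (m + i)) (-z) =
      -∑ i ∈ Finset.range (k + 1), κX (br σ (m + i)) z := by
      rw [← Finset.sum_neg_distrib]
      exact Finset.sum_congr rfl fun i _ => map_neg _ _
    rw [h5] at h2
    rw [abs_le]
    constructor <;> linarith

/-- partial sums along a branch -/
noncomputable def FF (σ : ℕ → Bool) (n : ℕ) : X →ₗ[ℝ] ℝ := ∑ i ∈ Finset.range n, κX (br σ i)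

lemma FF_apply (σ : ℕ → Bool) (n : ℕ) (z : X) :
    FF σ n z = ∑ i ∈ Finset.range n, κX (br σ i) z := by
  unfold FF
  rw [LinearMap.sum_apply]

lemma FF_le (σ : ℕ → Bool) (n : ℕ) (z : X) : |FF σ n z| ≤ ‖z‖ := by
  rw [FF_apply]
  have h := sum_br_abs σ z n 0
  simp only [zero_add] at h
  exact h.trans (treeX.pp_le_norm _ z)

lemma pp_br_zero (σ : ℕ → Bool) (z : X) (ε : ℝ) (hε : 0 < ε) :
    ∃ N, ∀ n, N ≤ n → pp treeX.P (br σ n) z ≤ ε := by
  obtain ⟨N, hN⟩ := RRX_zero z ε hε
  refine ⟨N, fun n hn => ?_⟩
  have h1 : RR PX 0 (br σ n) z ≤ RR PX (0 + (br σ n).length) [] z := Sub.RR_root 0 _ z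
  rw [br_length, zero_add] at h1
  have h2 := Real.sqrt_le_sqrt h1
  have h3 : √(RR PX 0 (br σ n) z) = pp PX (br σ n) z := Real.sqrt_sq (PX_sub.pp_nonneg _ z)
  rw [h3] at h2
  exact h2.trans (hN n hn)

lemma FF_cauchy (σ : ℕ → Bool) (z : X) : CauchySeq fun n => FF σ n z := by
  rw [Metric.cauchySeq_iff']
  intro ε hε
  obtain ⟨N, hN⟩ := pp_br_zero σ z (ε / 2) (by linarith)
  refine ⟨N, fun n hn => ?_⟩
  obtain ⟨k, rfl⟩ := Nat.exists_eq_add_of_le hn
  have h : FF σ (N + k) z - FF σ N z = ∑ i ∈ Finset.range k, κX (br σ (N + i)) z := by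
    rw [FF_apply, FF_apply, Finset.sum_range_add]
    ring
  rw [Real.dist_eq, h]
  have h1 := sum_br_abs σ z k N
  have h2 := hN N le_rfl
  linarith

/-- value of the branch functional -/
noncomputable def fval (σ : ℕ → Bool) (z : X) : ℝ :=
  (cauchySeq_tendsto_of_complete (FF_cauchy σ z)).choose

lemma fval_spec (σ : ℕ → Bool) (z : X) : Tendsto (fun n => FF σ n z) atTop (𝓝 (fval σ z)) :=
  (cauchySeq_tendsto_of_complete (FF_cauchy σ z)).choose_spec

/-- the branch functional -/
noncomputable def fσ (σ : ℕ → Bool) : X →L[ℝ] ℝ :=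
  LinearMap.mkContinuous
    { toFun := fval σ
      map_add' := fun x y => by
        refine tendsto_nhds_unique (fval_spec σ (x + y)) ?_
        have h := (fval_spec σ x).add (fval_spec σ y)
        refine h.congr fun n => ?_
        rw [map_add]
      map_smul' := fun a x => by
        refine tendsto_nhds_unique (fval_spec σ (a • x)) ?_
        have h := (fval_spec σ x).const_mul a
        refine h.congr fun n => ?_
        rw [map_smul]; rfl } 1 (fun z => by
        rw [one_mul]
        exact le_of_tendsto (fval_spec σ z).norm (Eventually.of_forall fun n => FF_le σ n z))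

lemma fσ_apply (σ : ℕ → Bool) (z : X) : fσ σ z = fval σ z := rfl

lemma fσ_bv_on (σ : ℕ → Bool) (m : ℕ) : fσ σ ((bv (br σ m) : E0) : X) = 1 := by
  rw [fσ_apply]
  refine tendsto_nhds_unique (fval_spec σ _) ?_
  refine tendsto_const_nhds.congr' ?_
  filter_upwards [eventually_gt_atTop m] with n hn
  rw [FF_apply, Finset.sum_eq_single m]
  · rw [κX_coe, ev_bv, if_pos rfl]
  · intro i _ hi
    rw [κX_coe, ev_bv, if_neg]
    intro h
    apply hi
    have := congrArg List.length h
    rw [br_length, br_length] at this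
    exact this.symm
  · intro h
    exact absurd (Finset.mem_range.mpr hn) h

lemma fσ_bv_off (σ : ℕ → Bool) (t : List Bool) (ht : ∀ n, t ≠ br σ n) :
    fσ σ ((bv t : E0) : X) = 0 := by
  rw [fσ_apply]
  refine tendsto_nhds_unique (fval_spec σ _) ?_
  refine tendsto_const_nhds.congr fun n => ?_
  rw [FF_apply]
  symm
  apply Finset.sum_eq_zero
  intro i _
  rw [κX_coe, ev_bv, if_neg (ht i)]

lemma fσ_sep (σ τ : ℕ → Bool) (h : σ ≠ τ) : 1 ≤ ‖fσ σ - fσ τ‖ := by
  obtain ⟨n, hn⟩ := Function.ne_iff.mp h
  have h1 := fσ_bv_on σ (n + 1)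
  have h2 : fσ τ ((bv (br σ (n + 1)) : E0) : X) = 0 := by
    apply fσ_bv_off
    intro m hm
    have hl := congrArg List.length hm
    rw [br_length, br_length] at hl
    subst hl
    have : σ n :: br σ n = τ n :: br τ n := hm
    exact hn (List.cons.inj this).1
  have h3 := (fσ σ - fσ τ).le_opNorm ((bv (br σ (n + 1)) : E0) : X)
  rw [_root_.sub_apply, h1, h2, sub_zero, norm_one] at h3
  have h4 := norm_bv_le (br σ (n + 1))
  have h5 : 0 ≤ ‖fσ σ - fσ τ‖ := norm_nonneg _
  nlinarith

instance : Uncountable (ℕ → Bool) := by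
  have e : (ℕ → Bool) ≃ Set ℕ := 
    Equiv.arrowCongr (Equiv.refl ℕ) (Equiv.propEquivBool.symm)
  constructor
  intro hc
  have hc' : Countable (Set ℕ) := e.symm.injective.countable
  obtain ⟨f, hf⟩ := exists_injective_nat (Set ℕ)
  exact Function.cantor_injective f hf

theorem dual_not_separable : ¬ TopologicalSpace.SeparableSpace (X →L[ℝ] ℝ) := by
  intro hsep
  have h := Set.PairwiseDisjoint.countable_of_isOpen (a := (Set.univ : Set (ℕ → Bool)))
    (s := fun σ => Metric.ball (fσ σ) (1 / 2)) (by
      intro σ _ τ _ hne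
      apply Metric.ball_disjoint_ball
      rw [dist_eq_norm]
      linarith [fσ_sep σ τ hne]) (fun σ _ => Metric.isOpen_ball)
    (fun σ _ => Metric.nonempty_ball.mpr (by norm_num))
  exact Set.not_countable_univ h

end Pool.Agent.Helper31.Tree
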